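import Pool.Agent.MP_9673d9_co.Conv.Turn

set_option autoImplicit false

open Finset

namespace Pool.Agent.MP_9673d9_co.Conv

open Pool.Agent.MP_9673d9_co.Rich

theorem Chain_uniq {T : Finset (ℝ × ℝ)} {p : ℕ} {φ : ℝ} {y y' : ℝ × ℝ} (h : Lab T p φ y)
    (h' : Lab T p φ y') : y' = y :=
  label_eq h.2 h.1.1 h'.1.1 (h'.1.ev_eq h.1)

theorem Chain_near {T : Finset (ℝ × ℝ)} {p : ℕ} {φ₀ : ℝ} {y : ℝ × ℝ} (h : Lab T p φ₀ y) :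
    ∃ ε > 0, ∀ ψ, |ψ - φ₀| < ε → Lab T p ψ y := by
  obtain ⟨ε, hε, h1⟩ := Metric.eventually_nhds_iff.mp (label_near h.1 h.2)
  refine ⟨ε, hε, fun ψ hψ => ?_⟩
  exact h1 (by rw [Real.dist_eq]; exact hψ)

theorem Chain_right {T : Finset (ℝ × ℝ)} {p : ℕ} (hp : p < T.card) {τ φ₁ : ℝ} (h1 : τ < φ₁)
    {y : ℝ × ℝ} (l : Lab T p τ y) (hno : ∀ φ, τ < φ → φ < φ₁ → ¬ Ev T p φ) :
    ∀ φ, τ < φ → φ < φ₁ → Lab T p φ y := by
  obtain ⟨y0, hy0, _, _⟩ := label hp h1 hno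
  obtain ⟨ε, hε, h2⟩ := Chain_near l
  have hm : 0 < min ε (φ₁ - τ) := lt_min hε (by linarith)
  have hm1 := min_le_left ε (φ₁ - τ)
  have hm2 := min_le_right ε (φ₁ - τ)
  have h3 : Lab T p (τ + min ε (φ₁ - τ) / 2) y := h2 _ (by
    rw [abs_lt]
    constructor <;> linarith)
  have h4 : Lab T p (τ + min ε (φ₁ - τ) / 2) y0 := hy0 _ (by linarith) (by linarith)
  have h5 : y0 = y := Chain_uniq h3 h4
  intro φ h6 h7
  rw [← h5]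
  exact hy0 φ h6 h7

theorem Chain_left {T : Finset (ℝ × ℝ)} {p : ℕ} (hp : p < T.card) {τ φ₁ : ℝ} (h1 : φ₁ < τ)
    {y : ℝ × ℝ} (l : Lab T p τ y) (hno : ∀ φ, φ₁ < φ → φ < τ → ¬ Ev T p φ) :
    ∀ φ, φ₁ < φ → φ < τ → Lab T p φ y := by
  obtain ⟨y0, hy0, _, _⟩ := label hp h1 hno
  obtain ⟨ε, hε, h2⟩ := Chain_near l
  have hm : 0 < min ε (τ - φ₁) := lt_min hε (by linarith)
  have hm1 := min_le_left ε (τ - φ₁)
  have hm2 := min_le_right ε (τ - φ₁)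
  have h3 : Lab T p (τ - min ε (τ - φ₁) / 2) y := h2 _ (by
    rw [abs_lt]
    constructor <;> linarith)
  have h4 : Lab T p (τ - min ε (τ - φ₁) / 2) y0 := hy0 _ (by linarith) (by linarith)
  have h5 : y0 = y := Chain_uniq h3 h4
  intro φ h6 h7
  rw [← h5]
  exact hy0 φ h6 h7

theorem Chain_aux {T : Finset (ℝ × ℝ)} {d D : ℤ} {p : ℕ} (hp : p < T.card)
    (hf : d + (T.card : ℤ) - 1 - 2 * (p : ℤ) < D) {α β : ℝ} (hβ : β ≤ α + Real.pi)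
    (hLL : ∀ φ, α < φ → φ < β → Ev T p φ → LL T d D p φ) {τ₂ : ℝ}
    (h2 : τ₂ < β) {y₂ : ℝ × ℝ} (l2 : Lab T p τ₂ y₂) (n : ℕ) :
    ∀ (τ₁ : ℝ) (y₁ : ℝ × ℝ), α < τ₁ → τ₁ < τ₂ → Lab T p τ₁ y₁ →
      (∃ φ, τ₁ < φ ∧ φ < τ₂ ∧ Ev T p φ) → {φ : ℝ | τ₁ < φ ∧ φ < τ₂ ∧ Ev T p φ}.ncard ≤ n →
      ev τ₂ y₁ < ev τ₂ y₂ ∧ ev τ₁ y₂ < ev τ₁ y₁ := by
  induction n with
  | zero =>
    intro τ₁ y₁ h1 h12 l1 hev hn
    exfalso
    have hfin : {φ : ℝ | τ₁ < φ ∧ φ < τ₂ ∧ Ev T p φ}.Finite :=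
      (events_finite T p τ₁).subset (fun φ hφ => ⟨hφ.1, by linarith [hφ.2.1], hφ.2.2⟩)
    have h3 := (Set.ncard_eq_zero hfin).mp (Nat.le_zero.mp hn)
    obtain ⟨φ, hφ⟩ := hev
    have h4 : φ ∈ {φ : ℝ | τ₁ < φ ∧ φ < τ₂ ∧ Ev T p φ} := hφ
    rw [h3] at h4
    exact h4
  | succ n ih =>
    intro τ₁ y₁ h1 h12 l1 hev hn
    obtain ⟨φ₁, a1, a2, a3, a4⟩ := exists_first (by linarith) hev
    have b1 : ∀ φ, τ₁ < φ → φ < φ₁ → Lab T p φ y₁ := Chain_right hp a1 l1 a4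
    have hL := hLL φ₁ (by linarith) (by linarith) a3
    by_cases hc : ∃ φ, φ₁ < φ ∧ φ < τ₂ ∧ Ev T p φ
    · obtain ⟨φ₂, c1, c2, c3, c4⟩ := exists_first (by linarith) hc
      obtain ⟨y, hy, _, _⟩ := label hp c1 c4
      have d1 : Lab T p ((φ₁ + φ₂) / 2) y := hy _ (by linarith) (by linarith)
      have hfin : {φ : ℝ | τ₁ < φ ∧ φ < τ₂ ∧ Ev T p φ}.Finite :=
        (events_finite T p τ₁).subset (fun φ hφ => ⟨hφ.1, by linarith [hφ.2.1], hφ.2.2⟩)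
      have hcard : {φ : ℝ | (φ₁ + φ₂) / 2 < φ ∧ φ < τ₂ ∧ Ev T p φ}.ncard <
          {φ : ℝ | τ₁ < φ ∧ φ < τ₂ ∧ Ev T p φ}.ncard := by
        apply Set.ncard_lt_ncard _ hfin
        rw [Set.ssubset_iff_of_subset]
        · refine ⟨φ₁, ⟨a1, a2, a3⟩, ?_⟩
          rintro ⟨k1, _⟩
          linarith
        · rintro φ ⟨k1, k2, k3⟩
          exact ⟨by linarith, k2, k3⟩
      obtain ⟨e1, e2⟩ := ih ((φ₁ + φ₂) / 2) y (by linarith) (by linarith) d1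
        ⟨φ₂, by linarith, c2, c3⟩ (by omega)
      obtain ⟨t1, t2⟩ := turn hL hf a1 c1 b1 (fun φ k1 k2 => hy φ k1 k2)
      have f1 := t1 τ₂ a2 (by linarith)
      have f2 := t2 τ₁ (by linarith) a1
      refine ⟨f1.trans e1, ?_⟩
      have f3 : ev τ₁ y₂ < ev τ₁ y := by
        by_contra hcon
        push Not at hcon
        exact no_three (φ1 := τ₁) (φ2 := (φ₁ + φ₂) / 2) (φ3 := τ₂) (by linarith) (by linarith)
          (by linarith) hcon e2 e1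
      exact f3.trans f2
    · push Not at hc
      have b2 : ∀ φ, φ₁ < φ → φ < τ₂ → Lab T p φ y₂ := Chain_left hp a2 l2 (fun φ k1 k2 => hc φ k1 k2)
      obtain ⟨t1, t2⟩ := turn hL hf a1 a2 b1 b2
      exact ⟨t1 τ₂ a2 (by linarith), t2 τ₁ (by linarith) a1⟩

/-- On an interval on which all events at `p` are left events the labels form a convex chain.
Proof: induction on the number of events in `(τ₁, τ₂)` (finite: `events_finite`, subset; or strong induction on the `ncard`).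
Let `φ₁` be the first event in `(τ₁, τ₂)` (`exists_first`).  `label` and `Lab T p τ₁ y₁` (extend the interval a little to the
left of `τ₁` by `label_near`) show that `y₁` is the label on `(τ₁, φ₁)`.
If there is no event in `(φ₁, τ₂)`, then `y₂` is the label on `(φ₁, τ₂)` (in the same way) and `turn` gives both claims
(`τ₂ < φ₁ + π`, `φ₁ - π < τ₁`, because `τ₁, τ₂ ∈ (α, β)`).
Otherwise let `φ₂` be the next event after `φ₁`, `y` the label on `(φ₁, φ₂)`, `τ` a direction in `(φ₁, φ₂)`.  Induction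
hypothesis for `(τ, τ₂)`: `ev τ₂ y < ev τ₂ y₂` and `ev τ y₂ < ev τ y`.  `turn` at `φ₁`: `ev τ₂ y₁ < ev τ₂ y`, `ev τ₁ y < ev τ₁ y₁`.
So `ev τ₂ y₁ < ev τ₂ y₂`.  Finally `ev τ₁ y₂ < ev τ₁ y`: otherwise `no_three` at `τ₁ < τ < τ₂` (`y ≤ y₂`, `y₂ < y`, `y < y₂`);
so `ev τ₁ y₂ < ev τ₁ y₁`. -/
theorem chain {T : Finset (ℝ × ℝ)} {d D : ℤ} {p : ℕ} (hp : p < T.card)
    (hf : d + (T.card : ℤ) - 1 - 2 * (p : ℤ) < D) {α β : ℝ} (hβ : β ≤ α + Real.pi)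
    (hLL : ∀ φ, α < φ → φ < β → Ev T p φ → LL T d D p φ) {τ₁ τ₂ : ℝ} (h1 : α < τ₁) (h12 : τ₁ < τ₂)
    (h2 : τ₂ < β) {y₁ y₂ : ℝ × ℝ} (l1 : Lab T p τ₁ y₁) (l2 : Lab T p τ₂ y₂)
    (hev : ∃ φ, τ₁ < φ ∧ φ < τ₂ ∧ Ev T p φ) : ev τ₂ y₁ < ev τ₂ y₂ ∧ ev τ₁ y₂ < ev τ₁ y₁ := by
  exact Chain_aux hp hf hβ hLL h2 l2 _ τ₁ y₁ h1 h12 l1 hev le_rfl

end Pool.Agent.MP_9673d9_co.Conv
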