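import Mathlib

set_option autoImplicit false

open Finset

namespace Pool.Agent.MP_9673d9_co.Conv

/-- Proof: `V.offDiag` is contained in the union of `{(z, w) | w ∈ U z}` and `{(z, w) | z ∈ U w}` (pairs of members of `V`),
each of which has at most `d * V.card` elements, and `V.offDiag.card = V.card * V.card - V.card`. -/
theorem tourn {X : Type*} [DecidableEq X] (V : Finset X) (U : X → Finset X) (d : ℕ)
    (hU : ∀ z ∈ V, (U z).card ≤ d) (htot : ∀ z ∈ V, ∀ w ∈ V, z ≠ w → w ∈ U z ∨ z ∈ U w) :
    V.card ≤ 2 * d + 1 := by
  classical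
  set A := V.biUnion (fun z => (U z).image (fun w => (z, w))) with hA
  set B := V.biUnion (fun z => (U z).image (fun w => (w, z))) with hB
  have h1 : V.offDiag ⊆ A ∪ B := by
    rintro ⟨z, w⟩ hzw
    rw [Finset.mem_offDiag] at hzw
    obtain ⟨hz, hw, hne⟩ := hzw
    rw [Finset.mem_union]
    rcases htot z hz w hw hne with h | h
    · exact Or.inl (Finset.mem_biUnion.2 ⟨z, hz, Finset.mem_image.2 ⟨w, h, rfl⟩⟩)
    · exact Or.inr (Finset.mem_biUnion.2 ⟨w, hw, Finset.mem_image.2 ⟨z, h, rfl⟩⟩)
  have hA' : A.card ≤ V.card * d :=
    Finset.card_biUnion_le_card_mul _ _ _ fun z hz => Finset.card_image_le.trans (hU z hz)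
  have hB' : B.card ≤ V.card * d :=
    Finset.card_biUnion_le_card_mul _ _ _ fun z hz => Finset.card_image_le.trans (hU z hz)
  have h2 : V.offDiag.card ≤ V.card * d + V.card * d :=
    (Finset.card_le_card h1).trans ((Finset.card_union_le _ _).trans (add_le_add hA' hB'))
  rw [Finset.offDiag_card] at h2
  rcases Nat.eq_zero_or_pos V.card with h0 | h0
  · omega
  · have h3 : V.card * V.card ≤ V.card * (2 * d + 1) := by
      have : V.card ≤ V.card * V.card := Nat.le_mul_of_pos_left _ h0
      have e : V.card * (2 * d + 1) = V.card * d + V.card * d + V.card := by ring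
      omega
    exact Nat.le_of_mul_le_mul_left h3 h0

/-- Proof: induction on `V.card`.  If `V` is non-empty there is `v ∈ V` such that the number of `w ∈ V` with `w ∈ U v` plus
the number of `w ∈ V` with `v ∈ U w` is at most `2 * d` (double counting); remove `v` and all these `w` from `V`, apply the
induction hypothesis and add `v` to the independent set. -/
theorem indep {X : Type*} [DecidableEq X] (V : Finset X) (U : X → Finset X) (d : ℕ)
    (hU : ∀ z ∈ V, (U z).card ≤ d) :
    ∃ I ⊆ V, V.card ≤ (2 * d + 1) * I.card ∧ ∀ z ∈ I, ∀ w ∈ I, z ≠ w → w ∉ U z := by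
  classical
  induction hn : V.card using Nat.strong_induction_on generalizing V with
  | _ n ih =>
    rcases V.eq_empty_or_nonempty with h0 | h0
    · subst h0
      refine ⟨∅, Finset.Subset.refl _, ?_, by simp⟩
      rw [← hn]
      simp
    · have hsum : ∑ v ∈ V, ((V.filter fun w => w ∈ U v).card + (V.filter fun w => v ∈ U w).card) ≤
          ∑ v ∈ V, 2 * d := by
        rw [Finset.sum_add_distrib]
        have e1 : ∑ v ∈ V, (V.filter fun w => v ∈ U w).card =
            ∑ w ∈ V, (V.filter fun v => v ∈ U w).card :=
          Finset.sum_card_bipartiteAbove_eq_sum_card_bipartiteBelow (fun v w => v ∈ U w)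
        have e2 : ∑ v ∈ V, (V.filter fun w => w ∈ U v).card ≤ ∑ v ∈ V, d := by
          refine Finset.sum_le_sum fun v hv => ?_
          refine (Finset.card_le_card ?_).trans (hU v hv)
          intro w hw
          exact (Finset.mem_filter.1 hw).2
        rw [e1]
        rw [Finset.sum_const, smul_eq_mul] at e2 ⊢
        have e3 : V.card * (2 * d) = V.card * d + V.card * d := by ring
        omega
      obtain ⟨v, hv, hle⟩ := Finset.exists_le_of_sum_le h0 hsum
      set R := insert v ((V.filter fun w => w ∈ U v) ∪ (V.filter fun w => v ∈ U w)) with hR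
      have hRc : R.card ≤ 2 * d + 1 := by
        refine (Finset.card_insert_le _ _).trans ?_
        have := Finset.card_union_le (V.filter fun w => w ∈ U v) (V.filter fun w => v ∈ U w)
        omega
      have hvR : v ∈ R := Finset.mem_insert_self _ _
      have hlt : (V \ R).card < n := by
        rw [← hn]
        exact Finset.card_lt_card ⟨Finset.sdiff_subset, fun h =>
          (Finset.mem_sdiff.1 (h hv)).2 hvR⟩
      obtain ⟨I, hI, hIc, hind⟩ := ih _ hlt (V \ R)
        (fun z hz => hU z (Finset.mem_sdiff.1 hz).1) rfl
      have hvI : v ∉ I := fun h => (Finset.mem_sdiff.1 (hI h)).2 hvR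
      have hsplit : V.card ≤ (V \ R).card + R.card := by
        have := Finset.card_le_card_sdiff_add_card (s := V) (t := R)
        omega
      refine ⟨insert v I, ?_, ?_, ?_⟩
      · exact Finset.insert_subset hv (hI.trans Finset.sdiff_subset)
      · rw [Finset.card_insert_of_notMem hvI]
        have e : (2 * d + 1) * (I.card + 1) = (2 * d + 1) * I.card + (2 * d + 1) := by ring
        omega
      · intro z hz w hw hne
        rcases Finset.mem_insert.1 hz with rfl | hz'
        · rcases Finset.mem_insert.1 hw with rfl | hw
          · exact absurd rfl hne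
          · intro hcon
            have h1 := Finset.mem_sdiff.1 (hI hw)
            exact h1.2 (Finset.mem_insert_of_mem (Finset.mem_union_left _
              (Finset.mem_filter.2 ⟨h1.1, hcon⟩)))
        · rcases Finset.mem_insert.1 hw with rfl | hw
          · intro hcon
            have h1 := Finset.mem_sdiff.1 (hI hz')
            exact h1.2 (Finset.mem_insert_of_mem (Finset.mem_union_right _
              (Finset.mem_filter.2 ⟨h1.1, hcon⟩)))
          · exact hind z hz' w hw hne

end Pool.Agent.MP_9673d9_co.Conv
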