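import Pool.Agent.MP_9673d9_co.Rich.Bridge

set_option autoImplicit false

open Finset

namespace Pool.Agent.MP_9673d9_co.Conv

open Pool.Agent.MP_9673d9_co.Rich

/-- every point of `Z` is the unique maximum of a linear functional -/
def Conv3 (Z : Finset (Fin 3 → ℝ)) : Prop :=
  ∀ z ∈ Z, ∃ u : (Fin 3 → ℝ) →ₗ[ℝ] ℝ, ∀ x ∈ Z, x ≠ z → u x < u z

/-- no three points of `Z` are on a line.  Proof: `t = 0`, `t = 1` are excluded; for `t < 0` use the functional of `z1`, for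
`0 < t < 1` the one of `z3`, for `1 < t` the one of `z2`. -/
theorem conv3_no_three {Z : Finset (Fin 3 → ℝ)} (hZ : Conv3 Z) {z1 z2 z3 : Fin 3 → ℝ} (h1 : z1 ∈ Z)
    (h2 : z2 ∈ Z) (h3 : z3 ∈ Z) (h12 : z1 ≠ z2) (h13 : z1 ≠ z3) (h23 : z2 ≠ z3) (t : ℝ)
    (ht : z3 - z1 = t • (z2 - z1)) : False := by
  have key : ∀ u : (Fin 3 → ℝ) →ₗ[ℝ] ℝ, u z3 - u z1 = t * (u z2 - u z1) := by
    intro u
    have h := congrArg u ht
    rwa [map_sub, map_smul, map_sub, smul_eq_mul] at h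
  rcases lt_trichotomy t 0 with h | h | h
  · obtain ⟨u, hu⟩ := hZ z1 h1
    have a2 := hu z2 h2 (Ne.symm h12)
    have a3 := hu z3 h3 (Ne.symm h13)
    have a4 := key u
    have a5 := mul_pos_of_neg_of_neg h (sub_neg.2 a2)
    linarith
  · rw [h, zero_smul] at ht
    exact h13 (sub_eq_zero.1 ht).symm
  · rcases lt_trichotomy t 1 with h' | h' | h'
    · obtain ⟨u, hu⟩ := hZ z3 h3
      have a1 := hu z1 h1 h13
      have a2 := hu z2 h2 h23
      have a4 := key u
      have a5 := mul_pos h (sub_pos.2 a2)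
      have a6 := mul_pos (sub_pos.2 h') (sub_pos.2 a1)
      nlinarith
    · rw [h', one_smul] at ht
      exact h23 (sub_left_inj.1 ht).symm
    · obtain ⟨u, hu⟩ := hZ z2 h2
      have a1 := hu z1 h1 h12
      have a3 := hu z3 h3 (Ne.symm h23)
      have a4 := key u
      have a5 := mul_pos (sub_pos.2 h') (sub_pos.2 a1)
      nlinarith

/-- Proof: otherwise some line contains three points of `Z` (pigeonhole:
`Finset.exists_lt_card_fiber_of_mul_lt_card_of_maps_to`, `Finset.two_lt_card`). -/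
theorem cover_lines {Z : Finset (Fin 3 → ℝ)} (hZ : Conv3 Z) (k : ℕ) (p v : Fin k → (Fin 3 → ℝ))
    (hc : ∀ x ∈ Z, ∃ i, ∃ t : ℝ, x = p i + t • v i) : Z.card ≤ 2 * k := by
  classical
  by_contra hlt
  rw [not_le] at hlt
  rcases Nat.eq_zero_or_pos k with hk | hk
  · subst hk
    have h1 : 0 < Z.card := by omega
    obtain ⟨x, hx⟩ := Finset.card_pos.1 h1
    obtain ⟨i, _⟩ := hc x hx
    exact i.elim0
  · have hi : ∀ x : Fin 3 → ℝ, ∃ i : Fin k, x ∈ Z → ∃ t : ℝ, x = p i + t • v i := by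
      intro x
      by_cases hx : x ∈ Z
      · obtain ⟨i, hi⟩ := hc x hx
        exact ⟨i, fun _ => hi⟩
      · exact ⟨⟨0, hk⟩, fun h => absurd h hx⟩
    choose f hf using hi
    have h1 : (Finset.univ : Finset (Fin k)).card * 2 < Z.card := by
      rw [Finset.card_univ, Fintype.card_fin]
      omega
    obtain ⟨i, _, h2⟩ := Finset.exists_lt_card_fiber_of_mul_lt_card_of_maps_to
      (f := f) (fun x _ => Finset.mem_univ (f x)) h1
    obtain ⟨z1, z2, z3, m1, m2, m3, h12, h13, h23⟩ := Finset.two_lt_card_iff.1 h2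
    rw [Finset.mem_filter] at m1 m2 m3
    obtain ⟨t1, e1⟩ := hf z1 m1.1
    obtain ⟨t2, e2⟩ := hf z2 m2.1
    obtain ⟨t3, e3⟩ := hf z3 m3.1
    rw [m1.2] at e1
    rw [m2.2] at e2
    rw [m3.2] at e3
    have h4 : t2 - t1 ≠ 0 := by
      intro h5
      apply h12
      rw [e1, e2, sub_eq_zero.1 h5]
    refine conv3_no_three hZ m1.1 m2.1 m3.1 h12 h13 h23 ((t3 - t1) / (t2 - t1)) ?_
    have e4 : z3 - z1 = (t3 - t1) • v i := by
      rw [e3, e1, add_sub_add_left_eq_sub, sub_smul]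
    have e5 : z2 - z1 = (t2 - t1) • v i := by
      rw [e2, e1, add_sub_add_left_eq_sub, sub_smul]
    rw [e4, e5, smul_smul, div_mul_cancel₀ _ h4]

end Pool.Agent.MP_9673d9_co.Conv
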