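import Pool.Agent.MP_9673d9_co.Conv.CoverA

set_option autoImplicit false

open Finset

namespace Pool.Agent.MP_9673d9_co.Conv

open Pool.Agent.MP_9673d9_co.Rich

/-- two planes that are not the same plane meet `Z` together in at most two points.
Proof: if three different `z1, z2, z3` are in both planes, `z2 - z1` and `z3 - z1` are in the common kernel of `h` and `g`.  If `h` and
`g` are independent this kernel is one-dimensional, so `z3 - z1` is a multiple of `z2 - z1 ≠ 0`: `conv3_no_three`.  Otherwise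
`g = r • h` (`h ≠ 0`), and then `h x = h z1` implies `g x = g z1`, contradicting `hne`. -/
theorem two_planes {Z : Finset (Fin 3 → ℝ)} (hZ : Conv3 Z) (h g : (Fin 3 → ℝ) →ₗ[ℝ] ℝ) (c d : ℝ)
    (hh : h ≠ 0) (hne : ∃ x, h x = c ∧ g x ≠ d) (h1 : ∀ z ∈ Z, h z = c) (h2 : ∀ z ∈ Z, g z = d) :
    Z.card ≤ 2 := by
  classical
  by_contra hlt
  rw [not_le] at hlt
  obtain ⟨z1, z2, z3, m1, m2, m3, h12, h13, h23⟩ := Finset.two_lt_card_iff.1 hlt
  obtain ⟨x, hx1, hx2⟩ := hne
  obtain ⟨y, hy⟩ : ∃ y, h y ≠ 0 := by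
    by_contra hc
    push Not at hc
    exact hh (LinearMap.ext hc)
  have hdep : ¬ LinearIndependent ℝ ![z2 - z1, z3 - z1, x - z1, y] := by
    intro hli
    have h3 := hli.fintype_card_le_finrank
    rw [Fintype.card_fin, Module.finrank_fin_fun] at h3
    omega
  rw [Fintype.not_linearIndependent_iff] at hdep
  obtain ⟨γ, hγ, i, hi⟩ := hdep
  rw [Fin.sum_univ_four] at hγ
  have hγ' : γ 0 • (z2 - z1) + γ 1 • (z3 - z1) + γ 2 • (x - z1) + γ 3 • y = 0 := hγ
  have e3 : γ 3 = 0 := by
    have h3 := congrArg h hγ'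
    rw [map_add, map_add, map_add, map_smul, map_smul, map_smul, map_smul, map_sub, map_sub,
      map_sub, h1 z1 m1, h1 z2 m2, h1 z3 m3, hx1, sub_self, smul_zero, smul_zero, smul_zero,
      add_zero, add_zero, zero_add, map_zero, smul_eq_mul] at h3
    exact (mul_eq_zero.1 h3).resolve_right hy
  have e2 : γ 2 = 0 := by
    have h3 := congrArg g hγ'
    rw [e3, zero_smul, add_zero, map_add, map_add, map_smul, map_smul, map_smul, map_sub, map_sub,
      map_sub, h2 z1 m1, h2 z2 m2, h2 z3 m3, sub_self, smul_zero, smul_zero,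
      zero_add, zero_add, map_zero, smul_eq_mul] at h3
    exact (mul_eq_zero.1 h3).resolve_right (sub_ne_zero.2 hx2)
  rw [e3, e2, zero_smul, zero_smul, add_zero, add_zero] at hγ'
  have e1 : γ 1 ≠ 0 := by
    intro e1
    rw [e1, zero_smul, add_zero] at hγ'
    have e0 : γ 0 = 0 := (smul_eq_zero.1 hγ').resolve_right (sub_ne_zero.2 (Ne.symm h12))
    apply hi
    fin_cases i
    · exact e0
    · exact e1
    · exact e2
    · exact e3
  refine conv3_no_three hZ m1 m2 m3 h12 h13 h23 (-(γ 0 / γ 1)) ?_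
  have h3 : γ 1 • (z3 - z1) = -(γ 0 • (z2 - z1)) := by
    rw [eq_neg_iff_add_eq_zero, add_comm]
    exact hγ'
  rw [neg_smul, div_eq_inv_mul, mul_smul, ← smul_neg, ← h3, smul_smul, inv_mul_cancel₀ e1, one_smul]

end Pool.Agent.MP_9673d9_co.Conv
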