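import Pool.Agent.MP_9673d9_co.Conv.CoverB

set_option autoImplicit false

open Finset

namespace Pool.Agent.MP_9673d9_co.Conv

open Pool.Agent.MP_9673d9_co.Rich

theorem CoverC_mono {Z Z' : Finset (Fin 3 → ℝ)} (hZ : Conv3 Z) (h : Z' ⊆ Z) : Conv3 Z' := by
  intro z hz
  obtain ⟨u, hu⟩ := hZ z (h hz)
  exact ⟨u, fun x hx hne => hu x (h hx) hne⟩

/-- Sets covered by `k` planes.  `hB` is the conclusion of `liftB`.
Proof: let `I ⊆ Finset.univ` be a set of indices of minimal cardinality such that the planes `g i = d i`, `i ∈ I`, cover `S`.  If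
`I.card ≤ 1` all points of `S` are in one plane (`S` has two points), which has imbalance `0`: `balanced_of`.  Otherwise there are
`i₁ ≠ i₂` in `I` and, by minimality, `x₁ ∈ S` which is only in the plane `i₁` of `I`, and `x₂ ∈ S` only in the plane `i₂`; `x₁ ≠ x₂`.
`hB` for `x₁, x₂` gives the plane `h` and `Z`.  For `i ∈ I` not both `x₁`, `x₂` are in the plane `i`, so `two_planes` (for the set of the
points of `Z` in the plane `i`; a subset of a `Conv3` set is `Conv3`) gives at most two points.  So `2 ^ j ≤ Z.card ≤ 2 * I.card ≤ 2 * k`. -/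
theorem cover_planes (S : Finset (Fin 3 → ℝ)) (hS : 2 ≤ S.card) (j k : ℕ) (hk : 2 * k < 2 ^ j)
    (g : Fin k → ((Fin 3 → ℝ) →ₗ[ℝ] ℝ)) (d : Fin k → ℝ) (hg : ∀ i, g i ≠ 0)
    (hc : ∀ x ∈ S, ∃ i, g i x = d i)
    (hB : ∀ p ∈ S, ∀ q ∈ S, p ≠ q → ¬ Balanced S (2 * (j : ℤ) + 3) →
      ∃ h : (Fin 3 → ℝ) →ₗ[ℝ] ℝ, h ≠ 0 ∧ h q = h p ∧ ∃ Z ⊆ S, (∀ z ∈ Z, h z = h p) ∧ 2 ^ j ≤ Z.card ∧
      Conv3 Z) : Balanced S (2 * (j : ℤ) + 3) := by
  classical
  by_contra hbal
  -- the minimal covers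
  let P : Finset (Fin k) → Prop := fun I => ∀ x ∈ S, ∃ i ∈ I, g i x = d i
  have hP : P Finset.univ := by
    intro x hx
    obtain ⟨i, hi⟩ := hc x hx
    exact ⟨i, Finset.mem_univ i, hi⟩
  have hne : (Finset.univ.filter fun I : Finset (Fin k) => P I).Nonempty :=
    ⟨Finset.univ, Finset.mem_filter.2 ⟨Finset.mem_univ _, hP⟩⟩
  obtain ⟨I, hI, hmin⟩ := Finset.exists_min_image _ Finset.card hne
  have hPI : P I := (Finset.mem_filter.1 hI).2
  -- private points
  have hpriv : ∀ i ∈ I, ∃ x ∈ S, g i x = d i ∧ ∀ i' ∈ I, i' ≠ i → g i' x ≠ d i' := by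
    intro i hi
    by_contra hcon
    push Not at hcon
    have h1 : P (I.erase i) := by
      intro x hx
      obtain ⟨i', hi', hx'⟩ := hPI x hx
      by_cases h2 : i' = i
      · subst h2
        obtain ⟨i'', h3, h4, h5⟩ := hcon x hx hx'
        exact ⟨i'', Finset.mem_erase.2 ⟨h4, h3⟩, h5⟩
      · exact ⟨i', Finset.mem_erase.2 ⟨h2, hi'⟩, hx'⟩
    have h2 := hmin (I.erase i) (Finset.mem_filter.2 ⟨Finset.mem_univ _, h1⟩)
    have h3 := Finset.card_erase_lt_of_mem hi
    omega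
  obtain ⟨a, ha, b, hb, hab⟩ := Finset.one_lt_card.1 (by omega : 1 < S.card)
  by_cases hI1 : I.card ≤ 1
  · -- one plane
    obtain ⟨i, hi, -⟩ := hPI a ha
    have hall : ∀ x ∈ S, g i x = d i := by
      intro x hx
      obtain ⟨i', hi', hx'⟩ := hPI x hx
      have : i' = i := Finset.card_le_one.1 hI1 i' hi' i hi
      rw [← this]
      exact hx'
    apply hbal
    refine balanced_of S _ (g i) (-(d i)) (hg i) ?_ ?_
    · rw [Finset.filter_true_of_mem (fun x hx => by rw [hall x hx]; ring)]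
      exact hS
    · rw [Finset.sum_congr rfl (fun x hx => by rw [hall x hx, add_neg_cancel, sg_zero] : ∀ x ∈ S,
        sg (g i x + -(d i)) = 0), Finset.sum_const_zero, abs_zero]
      positivity
  · push Not at hI1
    obtain ⟨i1, hi1, i2, hi2, hi12⟩ := Finset.one_lt_card.1 hI1
    obtain ⟨x1, hx1, hx1', hx1''⟩ := hpriv i1 hi1
    obtain ⟨x2, hx2, hx2', hx2''⟩ := hpriv i2 hi2
    have hx12 : x1 ≠ x2 := by
      intro h0
      rw [h0] at hx1'
      exact hx2'' i1 hi1 hi12 hx1'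
    obtain ⟨h, hh0, hh, Z, hZS, hZh, hZc, hZ⟩ := hB x1 hx1 x2 hx2 hx12 hbal
    have hfib : ∀ i ∈ I, (Z.filter fun z => g i z = d i).card ≤ 2 := by
      intro i hi
      refine two_planes (CoverC_mono hZ (Finset.filter_subset _ _)) h (g i) (h x1) (d i) hh0 ?_ ?_ ?_
      · by_cases h1 : i = i1
        · refine ⟨x2, hh, ?_⟩
          exact hx2'' i hi (by rw [h1]; exact hi12)
        · exact ⟨x1, rfl, hx1'' i hi h1⟩
      · intro z hz
        exact hZh z (Finset.mem_filter.1 hz).1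
      · intro z hz
        exact (Finset.mem_filter.1 hz).2
    have hcov : Z ⊆ I.biUnion fun i => Z.filter fun z => g i z = d i := by
      intro z hz
      obtain ⟨i, hi, hzi⟩ := hPI z (hZS hz)
      exact Finset.mem_biUnion.2 ⟨i, hi, Finset.mem_filter.2 ⟨hz, hzi⟩⟩
    have h1 := (Finset.card_le_card hcov).trans Finset.card_biUnion_le
    have h2 : ∑ i ∈ I, (Z.filter fun z => g i z = d i).card ≤ I.card * 2 :=
      Finset.sum_le_card_nsmul _ _ _ hfib
    have h3 : I.card ≤ k := by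
      have := Finset.card_le_univ I
      rwa [Fintype.card_fin] at this
    omega

end Pool.Agent.MP_9673d9_co.Conv
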