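import Pool.Agent.MP_9673d9_co.Conv.SideB
import Pool.Agent.MP_9673d9_co.Conv.Comb

set_option autoImplicit false

open Finset

namespace Pool.Agent.MP_9673d9_co.Conv

open Pool.Agent.MP_9673d9_co.Rich

/-- Points that visit the position `c - s` in `[i, m)`, stay to the left of `c` in `[i, m)`, but not in `[m, j)`.
Proof: for such a `z` choose `t z` in a gap of `[i, m)` with `Lab T (c - s) (t z) z`, and let `b z ∈ [m, j)` be the first
gap in which `z` is not always to the left.  Then `z` is to the left in the gap `b z - 1` (it is the gap `m - 1 ≥ i`, or the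
minimality of `b z`; use `Lf_const` to pass from one direction to all directions of a gap), so `cross` gives
`Cov T c (e (b z)) z`.  For fixed `k` the fibre `{z | b z = k}` has at most `2 * s - 1` members: `tourn` with
`U z = upp T c (t z) z`, `d = s - 1`; if `z ≠ w` are in the fibre, `w ∉ U z`, `z ∉ U w` then `w` is strictly lower than `z` at
`t z`, `z` strictly lower than `w` at `t w` (see `rep_card`), and `ev (e k) z = ev (e k) w` (`Cov.ev_eq`), `e k ≥ e m > t z, t w`:
contradiction by `no_three'`.  Sum over `k ∈ [m, j)` (`Finset.card_le_mul_card_image` or `card_biUnion_le`). -/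
theorem cross_card {T : Finset (ℝ × ℝ)} {c s : ℕ} {e : ℕ → ℝ} {G : ℕ} (hG : Gaps T c e G) (hs : 1 ≤ s)
    (hsc : s ≤ c) (hc : c < T.card) {i m j : ℕ} (him : i ≤ m) (hmj : m ≤ j) (hj : j ≤ G) :
    (flt T fun z => (Stay T c e i m z ∧ ¬ Stay T c e i j z) ∧
      ∃ k, i ≤ k ∧ k < m ∧ z ∈ vis T (c - s) (e k) (e (k + 1))).card ≤ (2 * s - 1) * (j - m) := by
  classical
  set X := flt T fun z => (Stay T c e i m z ∧ ¬ Stay T c e i j z) ∧
      ∃ k, i ≤ k ∧ k < m ∧ z ∈ vis T (c - s) (e k) (e (k + 1)) with hX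
  have hmono : ∀ k l : ℕ, k ≤ l → l ≤ G → e k ≤ e l := by
    intro k l hkl hl
    rcases Nat.lt_or_eq_of_le hkl with h | h
    · exact (hG.mono k l h hl).le
    · rw [h]
  have hex : ∀ z : ℝ × ℝ, ∃ (t : ℝ) (k b : ℕ), z ∈ X → i ≤ k ∧ k < m ∧ e k < t ∧ t < e (k + 1) ∧
      Lab T (c - s) t z ∧ m ≤ b ∧ b < j ∧ Cov T c (e b) z := by
    intro z
    by_cases hz : z ∈ X
    · obtain ⟨hzT, ⟨hst, hnst⟩, k, h1, h2, h3⟩ := mem_flt.1 hz
      obtain ⟨_, t, h4, h5, h6⟩ := mem_vis.1 h3
      have hP : ∃ b, i ≤ b ∧ b < j ∧ ∃ φ, e b < φ ∧ φ < e (b + 1) ∧ ¬ Lf T c φ z := by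
        unfold Stay at hnst
        push Not at hnst
        obtain ⟨b, h7, h8, φ, h9, h10, h11⟩ := hnst
        exact ⟨b, h7, h8, φ, h9, h10, h11⟩
      obtain ⟨h7, h8, φ, h9, h10, h11⟩ := Nat.find_spec hP
      set b := Nat.find hP with hb
      have hmb : m ≤ b := by
        by_contra hcon
        exact h11 (hst b h7 (not_le.1 hcon) φ h9 h10)
      have hlast : ∀ φ, e (b - 1) < φ → φ < e (b - 1 + 1) → Lf T c φ z := by
        intro φ' ha hb'
        rcases Nat.lt_or_eq_of_le hmb with hlt | heq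
        · by_contra hcon
          have := Nat.find_min hP (m := b - 1) (by omega)
          exact this ⟨by omega, by omega, φ', ha, hb', hcon⟩
        · exact hst (b - 1) (by omega) (by omega) φ' ha hb'
      have eb : b - 1 + 1 = b := by omega
      rw [eb] at hlast
      refine ⟨t, k, b, fun _ => ⟨h1, h2, h4, h5, h6, hmb, h8, ?_⟩⟩
      have hlt1 : e (b - 1) < e b := hG.mono _ _ (by omega) (by omega)
      refine cross hc hzT (α := e (b - 1)) (β := e (b + 1)) ?_ ?_ ?_ ?_
      · intro ψ h12 h13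
        exact hG.free (b - 1) (by omega) ψ h12 (by rw [eb]; exact h13)
      · intro ψ h12 h13
        exact hG.free b (by omega) ψ h12 h13
      · exact ⟨(e (b - 1) + e b) / 2, by linarith, by linarith, hlast _ (by linarith) (by linarith)⟩
      · exact ⟨φ, h9, h10, h11⟩
    · exact ⟨0, 0, 0, fun h => absurd h hz⟩
  choose t κ b ht using hex
  have hXT : ∀ z ∈ X, z ∈ T := fun z hz => (mem_flt.1 hz).1
  have hfib : ∀ k ∈ X.image b, (X.filter fun z => b z = k).card ≤ 2 * s - 1 := by
    intro k _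
    have h1 := tourn (X.filter fun z => b z = k) (fun z => upp T c (t z) z) (s - 1) ?_ ?_
    · refine h1.trans ?_
      omega
    · intro z hz
      have hz' := (Finset.mem_filter.1 hz).1
      have h1 := upp_card (p := c - s) (by omega) hc (ht z hz').2.2.2.2.1
      omega
    · -- totality
      have hlow : ∀ z ∈ X, ∀ w ∈ X, z ≠ w → w ∉ upp T c (t z) z → ev (t z) w < ev (t z) z := by
        intro z hz w hw hne hnot
        obtain ⟨h1, h2, h3, h4, h5, _⟩ := ht z hz
        have hlf : Lf T c (t z) w := (mem_flt.1 hw).2.1.1 (κ z) h1 h2 (t z) h3 h4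
        have hle : ev (t z) w ≤ ev (t z) z := by
          by_contra hcon
          exact hnot (mem_upp.2 ⟨hXT w hw, not_le.1 hcon, hlf⟩)
        refine lt_of_le_of_ne hle fun heq => ?_
        exact hne (label_eq h5.2 (hXT z hz) (hXT w hw) heq).symm
      have hpi : ∀ z ∈ X, ∀ k : ℕ, k ≤ G → e k ≤ t z + Real.pi := by
        intro z hz k hk
        obtain ⟨h1, h2, h3, _⟩ := ht z hz
        have h5 := hmono k G hk le_rfl
        have h6 := hmono 0 (κ z) (Nat.zero_le _) (by omega)
        have h7 := hG.span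
        linarith
      have hbef : ∀ z ∈ X, ∀ k : ℕ, m ≤ k → k ≤ G → t z < e k := by
        intro z hz k hk hkG
        obtain ⟨h1, h2, h3, h4, _⟩ := ht z hz
        have h5 := hmono (κ z + 1) k (by omega) hkG
        linarith
      intro z hz w hw hne
      obtain ⟨hzX, hbz⟩ := Finset.mem_filter.1 hz
      obtain ⟨hwX, hbw⟩ := Finset.mem_filter.1 hw
      by_contra hcon
      push Not at hcon
      obtain ⟨hc1, hc2⟩ := hcon
      have l1 := hlow z hzX w hwX hne hc1
      have l2 := hlow w hwX z hzX hne.symm hc2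
      have cz := (ht z hzX).2.2.2.2.2
      have cw := (ht w hwX).2.2.2.2.2
      rw [hbz] at cz
      rw [hbw] at cw
      have heq : ev (e k) z = ev (e k) w := cz.2.2.ev_eq cw.2.2
      have hkG : k ≤ G := by omega
      rcases lt_trichotomy (t z) (t w) with h | h | h
      · exact no_three' h (hbef w hwX k cz.1 hkG) (hpi z hzX k hkG) l1 l2 heq.symm.le
      · rw [h] at l1
        exact lt_asymm l1 l2
      · exact no_three' h (hbef z hzX k cz.1 hkG) (hpi w hwX k hkG) l2 l1 heq.le
  refine (Finset.card_le_mul_card_image X (2 * s - 1) hfib).trans ?_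
  refine Nat.mul_le_mul_left _ ?_
  rw [← Nat.card_Ico]
  refine Finset.card_le_card fun k hk => ?_
  obtain ⟨z, hz, rfl⟩ := Finset.mem_image.1 hk
  obtain ⟨_, _, _, _, _, h6, h7, _⟩ := ht z hz
  exact Finset.mem_Ico.2 ⟨h6, h7⟩

end Pool.Agent.MP_9673d9_co.Conv
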