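import Pool.Agent.MP_9673d9_co.Conv.SideB
import Pool.Agent.MP_9673d9_co.Conv.Comb

set_option autoImplicit false

open Finset

namespace Pool.Agent.MP_9673d9_co.Conv

open Pool.Agent.MP_9673d9_co.Rich

theorem CrossB_le {T : Finset (ℝ × ℝ)} {c : ℕ} {e : ℕ → ℝ} {G : ℕ} (hG : Gaps T c e G) {k l : ℕ}
    (h : k ≤ l) (hl : l ≤ G) : e k ≤ e l := by
  rcases h.lt_or_eq with h | rfl
  · exact (hG.mono k l h hl).le
  · exact le_rfl

theorem CrossB_last {T : Finset (ℝ × ℝ)} {c : ℕ} {e : ℕ → ℝ} {G : ℕ} (hG : Gaps T c e G)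
    (hc : c < T.card) {i m j : ℕ} (hmj : m < j) (hj : j ≤ G) {z : ℝ × ℝ}
    (hz : z ∈ T) (h1 : Stay T c e m j z) (h2 : ¬ Stay T c e i j z) :
    ∃ b, i ≤ b ∧ b < m ∧ Cov T c (e (b + 1)) z := by
  classical
  set S := (Finset.Ico i m).filter
    (fun k => ¬ ∀ φ : ℝ, e k < φ → φ < e (k + 1) → Lf T c φ z) with hS
  have hne : S.Nonempty := by
    by_contra h3
    rw [Finset.not_nonempty_iff_eq_empty, hS, Finset.filter_eq_empty_iff] at h3
    refine h2 fun k hk hkj => ?_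
    by_cases hkm : k < m
    · exact not_not.1 (h3 (Finset.mem_Ico.2 ⟨hk, hkm⟩))
    · exact h1 k (not_lt.1 hkm) hkj
  obtain ⟨b, hb, hmax⟩ := Finset.exists_max_image S id hne
  rw [hS, Finset.mem_filter, Finset.mem_Ico] at hb
  obtain ⟨⟨hib, hbm⟩, hnb⟩ := hb
  have hnext : ∀ φ : ℝ, e (b + 1) < φ → φ < e (b + 1 + 1) → Lf T c φ z := by
    by_cases hb1 : b + 1 < m
    · by_contra h3
      have h4 := hmax (b + 1) (by
        rw [hS, Finset.mem_filter, Finset.mem_Ico]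
        exact ⟨⟨by omega, hb1⟩, h3⟩)
      simp only [id] at h4
      omega
    · exact h1 (b + 1) (by omega) (by omega)
  refine ⟨b, hib, hbm, ?_⟩
  push Not at hnb
  obtain ⟨φ, hφ1, hφ2, hφ3⟩ := hnb
  have hlt : e (b + 1) < e (b + 1 + 1) := hG.mono _ _ (Nat.lt_succ_self _) (by omega)
  refine cross' hc hz (α := e b) (β := e (b + 1 + 1)) (hG.free b (by omega))
    (hG.free (b + 1) (by omega)) ⟨φ, hφ1, hφ2, hφ3⟩ ?_
  exact ⟨(e (b + 1) + e (b + 1 + 1)) / 2, by linarith, by linarith,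
    hnext _ (by linarith) (by linarith)⟩

/-- The same in the other direction of time: `b z ∈ [i, m)` is the last gap in which `z` is not always to the left, and the
class at `e (b z + 1)` covers `c` and contains `z` (`cross'`). -/
theorem cross_card' {T : Finset (ℝ × ℝ)} {c s : ℕ} {e : ℕ → ℝ} {G : ℕ} (hG : Gaps T c e G) (hs : 1 ≤ s)
    (hsc : s ≤ c) (hc : c < T.card) {i m j : ℕ} (him : i ≤ m) (hmj : m ≤ j) (hj : j ≤ G) :
    (flt T fun z => (Stay T c e m j z ∧ ¬ Stay T c e i j z) ∧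
      ∃ k, m ≤ k ∧ k < j ∧ z ∈ vis T (c - s) (e k) (e (k + 1))).card ≤ (2 * s - 1) * (m - i) := by
  classical
  rcases hmj.eq_or_lt with rfl | hmj'
  · have h0 : (flt T fun z => (Stay T c e m m z ∧ ¬ Stay T c e i m z) ∧
      ∃ k, m ≤ k ∧ k < m ∧ z ∈ vis T (c - s) (e k) (e (k + 1))) = ∅ := by
      rw [Finset.eq_empty_iff_forall_notMem]
      intro z hz
      obtain ⟨k, h1, h2, _⟩ := (mem_flt.1 hz).2.2
      omega
    rw [h0]
    simp
  set V := flt T fun z => (Stay T c e m j z ∧ ¬ Stay T c e i j z) ∧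
      ∃ k, m ≤ k ∧ k < j ∧ z ∈ vis T (c - s) (e k) (e (k + 1)) with hV
  have hVt : ∀ z, ∃ t b, z ∈ V → ((e m < t ∧ t < e j) ∧ (∃ k, m ≤ k ∧ k < j ∧ e k < t ∧ t < e (k + 1))
      ∧ Lab T (c - s) t z) ∧ (i ≤ b ∧ b < m ∧ Cov T c (e (b + 1)) z) := by
    intro z
    by_cases hz : z ∈ V
    · obtain ⟨hzT, ⟨h1, h2⟩, k, hk1, hk2, hk3⟩ := mem_flt.1 hz
      obtain ⟨_, t, ht1, ht2, ht3⟩ := mem_vis.1 hk3
      obtain ⟨b, hb⟩ := CrossB_last hG hc hmj' hj hzT h1 h2
      refine ⟨t, b, fun _ => ⟨⟨⟨?_, ?_⟩, ⟨k, hk1, hk2, ht1, ht2⟩, ht3⟩, hb⟩⟩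
      · exact (CrossB_le hG hk1 (by omega)).trans_lt ht1
      · exact ht2.trans_le (CrossB_le hG (by omega) hj)
    · exact ⟨0, 0, fun h => absurd h hz⟩
  choose t b ht using hVt
  have hfib : ∀ k ∈ Finset.Ico i m, (V.filter fun z => b z = k).card ≤ 2 * s - 1 := by
    intro k hk
    rw [Finset.mem_Ico] at hk
    have h3 := tourn (V.filter fun z => b z = k) (fun z => upp T c (t z) z) (s - 1) ?_ ?_
    · omega
    · intro z hz
      obtain ⟨⟨_, _, h4⟩, _⟩ := ht z (Finset.mem_filter.1 hz).1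
      have h5 := upp_card (T := T) (c := c) (p := c - s) (by omega) hc h4
      omega
    · intro z hz w hw hzw
      obtain ⟨hzV, hzb⟩ := Finset.mem_filter.1 hz
      obtain ⟨hwV, hwb⟩ := Finset.mem_filter.1 hw
      obtain ⟨⟨hz1, ⟨kz, hkz1, hkz2, hkz3, hkz4⟩, hz2⟩, hz3, hz4, hz5⟩ := ht z hzV
      obtain ⟨⟨hw1, ⟨kw, hkw1, hkw2, hkw3, hkw4⟩, hw2⟩, hw3, hw4, hw5⟩ := ht w hwV
      rw [hzb] at hz5
      rw [hwb] at hw5
      have heq : ev (e (k + 1)) z = ev (e (k + 1)) w := hz5.ev_eq hw5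
      by_contra hcon
      push Not at hcon
      obtain ⟨hc1, hc2⟩ := hcon
      have hsz : Stay T c e m j z := (mem_flt.1 hzV).2.1.1
      have hsw : Stay T c e m j w := (mem_flt.1 hwV).2.1.1
      have hzT : z ∈ T := (mem_flt.1 hzV).1
      have hwT : w ∈ T := (mem_flt.1 hwV).1
      have a1 : ev (t z) w < ev (t z) z := by
        rcases lt_trichotomy (ev (t z) w) (ev (t z) z) with h | h | h
        · exact h
        · exact absurd (label_eq hz2.2 hzT hwT h) (Ne.symm hzw)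
        · exact absurd (mem_upp.2 ⟨hwT, h, hsw kz hkz1 hkz2 _ hkz3 hkz4⟩) hc1
      have a2 : ev (t w) z < ev (t w) w := by
        rcases lt_trichotomy (ev (t w) z) (ev (t w) w) with h | h | h
        · exact h
        · exact absurd (label_eq hw2.2 hwT hzT h) hzw
        · exact absurd (mem_upp.2 ⟨hzT, h, hsz kw hkw1 hkw2 _ hkw3 hkw4⟩) hc2
      have h6 : e (k + 1) ≤ e m := CrossB_le hG (by omega) (by omega)
      have h7 : e 0 ≤ e (k + 1) := CrossB_le hG (by omega) (by omega)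
      have h8 : e j ≤ e G := CrossB_le hG hj le_rfl
      have h9 := hG.span
      rcases lt_trichotomy (t z) (t w) with h | h | h
      · exact no_three (φ1 := e (k + 1)) (φ2 := t z) (φ3 := t w) (by linarith) h
          (by linarith) heq.le a1 a2
      · rw [h] at a1
        exact lt_asymm a1 a2
      · exact no_three (φ1 := e (k + 1)) (φ2 := t w) (φ3 := t z) (by linarith) h
          (by linarith) heq.ge a2 a1
  have h10 := Finset.card_le_mul_card_image_of_maps_to (s := V) (t := Finset.Ico i m) (f := b)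
    (fun z hz => by
      obtain ⟨_, h1, h2, _⟩ := ht z hz
      exact Finset.mem_Ico.2 ⟨h1, h2⟩) (2 * s - 1) hfib
  rwa [Nat.card_Ico] at h10

end Pool.Agent.MP_9673d9_co.Conv
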