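import Pool.Agent.MP_9673d9_co.Rich.Down
import Pool.Agent.MP_9673d9_co.Rich.Start

set_option autoImplicit false

open Finset

namespace Pool.Agent.MP_9673d9_co.Conv

open Pool.Agent.MP_9673d9_co.Rich

/-- in direction `φ` the point `y` is alone on the position `i` -/
def Lab (T : Finset (ℝ × ℝ)) (i : ℕ) (φ : ℝ) (y : ℝ × ℝ) : Prop := Cov T i φ y ∧ same T φ y = 1

/-- in direction `φ` the point `z` is strictly to the left of the class covering the position `c` -/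
def Lf (T : Finset (ℝ × ℝ)) (c : ℕ) (φ : ℝ) (z : ℝ × ℝ) : Prop := T.card ≤ c + above T φ z

/-- the points of `T` that are the label of the position `p` for some direction in `(α, β)` -/
noncomputable def vis (T : Finset (ℝ × ℝ)) (p : ℕ) (α β : ℝ) : Finset (ℝ × ℝ) := by
  classical
  exact T.filter fun z => ∃ φ, α < φ ∧ φ < β ∧ Lab T p φ z

/-- a sequence of directions in a half-turn, without events at the position `c` in the open gaps
`(e k, e (k + 1))`, `k < G` -/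
structure Gaps (T : Finset (ℝ × ℝ)) (c : ℕ) (e : ℕ → ℝ) (G : ℕ) : Prop where
  mono : ∀ k l : ℕ, k < l → l ≤ G → e k < e l
  span : e G ≤ e 0 + Real.pi
  free : ∀ k : ℕ, k < G → ∀ φ : ℝ, e k < φ → φ < e (k + 1) → ¬ Ev T c φ

/-- `z` is to the left of the position `c` in all gaps `k` with `i ≤ k < j` -/
def Stay (T : Finset (ℝ × ℝ)) (c : ℕ) (e : ℕ → ℝ) (i j : ℕ) (z : ℝ × ℝ) : Prop :=
  ∀ k : ℕ, i ≤ k → k < j → ∀ φ : ℝ, e k < φ → φ < e (k + 1) → Lf T c φ z

/-- points above `z` and to the left of the position `c` -/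
noncomputable def upp (T : Finset (ℝ × ℝ)) (c : ℕ) (φ : ℝ) (z : ℝ × ℝ) : Finset (ℝ × ℝ) := by
  classical
  exact T.filter fun w => ev φ z < ev φ w ∧ Lf T c φ w

/-- strictly convex position: every point is the unique highest one in some direction -/
def Exposed (Z : Finset (ℝ × ℝ)) : Prop :=
  ∀ z ∈ Z, ∃ φ : ℝ, ∀ w ∈ Z, w ≠ z → ev φ w < ev φ z

theorem mem_vis {T : Finset (ℝ × ℝ)} {p : ℕ} {α β : ℝ} {z : ℝ × ℝ} :
    z ∈ vis T p α β ↔ z ∈ T ∧ ∃ φ, α < φ ∧ φ < β ∧ Lab T p φ z := by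
  classical
  unfold vis
  rw [Finset.mem_filter]

theorem mem_upp {T : Finset (ℝ × ℝ)} {c : ℕ} {φ : ℝ} {z w : ℝ × ℝ} :
    w ∈ upp T c φ z ↔ w ∈ T ∧ ev φ z < ev φ w ∧ Lf T c φ w := by
  classical
  unfold upp
  rw [Finset.mem_filter]

/-- classical filter -/
noncomputable def flt (V : Finset (ℝ × ℝ)) (P : ℝ × ℝ → Prop) : Finset (ℝ × ℝ) := by
  classical
  exact V.filter P

theorem mem_flt {V : Finset (ℝ × ℝ)} {P : ℝ × ℝ → Prop} {z : ℝ × ℝ} : z ∈ flt V P ↔ z ∈ V ∧ P z := by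
  classical
  unfold flt
  rw [Finset.mem_filter]

theorem Exposed.mono {Z Z' : Finset (ℝ × ℝ)} (h : Exposed Z) (hs : Z' ⊆ Z) : Exposed Z' := by
  intro z hz
  obtain ⟨φ, hφ⟩ := h z (hs hz)
  exact ⟨φ, fun w hw hne => hφ w (hs hw) hne⟩

end Pool.Agent.MP_9673d9_co.Conv
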