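import Pool.Agent.MP_9673d9_co.Conv.SideB

set_option autoImplicit false

open Finset

namespace Pool.Agent.MP_9673d9_co.Conv

open Pool.Agent.MP_9673d9_co.Rich

theorem full_left {T : Finset (ℝ × ℝ)} {c : ℕ} (hc : c < T.card) {α β : ℝ} (hαβ : α < β)
    (hno : ∀ φ, α < φ → φ < β → ¬ Ev T c φ) {z : ℝ × ℝ} (hz : z ∈ T)
    (hl : ∀ φ, α < φ → φ < β → Lf T c φ z) (hg : ∀ w ∈ T, z ≠ w → ev α z ≠ ev α w) :
    Lf T c α z := by
  obtain ⟨x, hx, hx0, -⟩ := label hc hαβ hno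
  have hlt : ∀ φ, α < φ → φ < β → ev φ z < ev φ x := fun φ h1 h2 =>
    (Lf_iff (hx φ h1 h2).1 hz).1 (hl φ h1 h2)
  obtain ⟨ψ, h1, h2⟩ := exists_between hαβ
  have hne : z ≠ x := by
    intro h3
    have h4 := hlt ψ h1 h2
    rw [h3] at h4
    exact lt_irrefl _ h4
  have hle : ev α z ≤ ev α x := by
    by_contra h3
    push Not at h3
    have h4 : ∀ᶠ ψ in nhdsWithin α (Set.Ioi α), ev ψ x < ev ψ z :=
      nhdsWithin_le_nhds (ev_near h3)
    have h5 : ∀ᶠ ψ in nhdsWithin α (Set.Ioi α), ψ ∈ Set.Ioo α β := Ioo_mem_nhdsGT hαβ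
    obtain ⟨ψ', h6, h7⟩ := (h4.and h5).exists
    exact lt_asymm h6 (hlt ψ' h7.1 h7.2)
  exact (Lf_iff hx0 hz).2 (lt_of_le_of_ne hle (hg x hx0.1 hne))

theorem full_right {T : Finset (ℝ × ℝ)} {c : ℕ} (hc : c < T.card) {α β : ℝ} (hαβ : α < β)
    (hno : ∀ φ, α < φ → φ < β → ¬ Ev T c φ) {z : ℝ × ℝ} (hz : z ∈ T)
    (hl : ∀ φ, α < φ → φ < β → Lf T c φ z) (hg : ∀ w ∈ T, z ≠ w → ev β z ≠ ev β w) :
    Lf T c β z := by
  obtain ⟨x, hx, -, hx0⟩ := label hc hαβ hno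
  have hlt : ∀ φ, α < φ → φ < β → ev φ z < ev φ x := fun φ h1 h2 =>
    (Lf_iff (hx φ h1 h2).1 hz).1 (hl φ h1 h2)
  obtain ⟨ψ, h1, h2⟩ := exists_between hαβ
  have hne : z ≠ x := by
    intro h3
    have h4 := hlt ψ h1 h2
    rw [h3] at h4
    exact lt_irrefl _ h4
  have hle : ev β z ≤ ev β x := by
    by_contra h3
    push Not at h3
    have h4 : ∀ᶠ ψ in nhdsWithin β (Set.Iio β), ev ψ x < ev ψ z :=
      nhdsWithin_le_nhds (ev_near h3)
    have h5 : ∀ᶠ ψ in nhdsWithin β (Set.Iio β), ψ ∈ Set.Ioo α β := Ioo_mem_nhdsLT hαβ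
    obtain ⟨ψ', h6, h7⟩ := (h4.and h5).exists
    exact lt_asymm h6 (hlt ψ' h7.1 h7.2)
  exact (Lf_iff hx0 hz).2 (lt_of_le_of_ne hle (hg x hx0.1 hne))

/-- No point stays to the left of `c` during a whole half-turn, if `2 * c ≤ T.card` and the two ends are generic.
Proof: let `z` stay to the left.  `label` on the gap `0` gives `x`, alone on `c` in the gap, `Cov T c (e 0) x`.  In the gap
`ev φ z < ev φ x` (`Lf_iff`), so in the limit `ev (e 0) z ≤ ev (e 0) x`, and `z ≠ x`, so `<` by `hgen`, so `Lf T c (e 0) z`.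
In the same way at the end: the gap `G - 1` gives `Lf T c (e G) z` (values at `e G = e 0 + π` are minus the values at `e 0`,
`ev_add_pi`, so they are different too).  So `T.card ≤ c + above T (e 0) z` and `T.card ≤ c + above T (e 0 + π) z =
c + below T (e 0) z`; the sum contradicts `count_add`, `same_pos` and `2 * c ≤ T.card`. -/
theorem full {T : Finset (ℝ × ℝ)} {c : ℕ} {e : ℕ → ℝ} {G : ℕ} (hG : Gaps T c e G) (hG1 : 1 ≤ G)
    (hspan : e G = e 0 + Real.pi) (hgen : ∀ z ∈ T, ∀ w ∈ T, z ≠ w → ev (e 0) z ≠ ev (e 0) w)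
    (hc : c < T.card) (h2 : 2 * c ≤ T.card) : ∀ z ∈ T, ¬ Stay T c e 0 G z := by
  intro z hz hst
  obtain ⟨K, rfl⟩ : ∃ K, G = K + 1 := ⟨G - 1, by omega⟩
  have hA : Lf T c (e 0) z :=
    full_left hc (hG.mono 0 1 Nat.zero_lt_one hG1) (hG.free 0 (by omega)) hz
      (hst 0 le_rfl (by omega)) (hgen z hz)
  have hB : Lf T c (e (K + 1)) z := by
    refine full_right hc (hG.mono K (K + 1) (Nat.lt_succ_self K) le_rfl) (hG.free K (by omega)) hz
      (hst K (Nat.zero_le K) (by omega)) ?_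
    intro w hw hne
    rw [hspan, ev_add_pi, ev_add_pi]
    intro h3
    exact hgen z hz w hw hne (neg_injective h3)
  unfold Lf at hA hB
  rw [hspan, above_add_pi] at hB
  have h3 := count_add T (e 0) z
  have h4 := same_pos (e 0) hz
  omega

end Pool.Agent.MP_9673d9_co.Conv
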