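import Pool.Agent.MP_9673d9_co.Conv.Near
import Pool.Agent.MP_9673d9_co.Conv.Full

set_option autoImplicit false

open Finset

namespace Pool.Agent.MP_9673d9_co.Conv

open Pool.Agent.MP_9673d9_co.Rich

/-- At least three events at `c` in a half-turn between generic ends: here the case that the first one is `LL`.
Proof: suppose `G ≤ 3`.  `stays_near` at `e 1` gives `z`; by `Lf_const` `z` is to the left in the gaps `0` and `1`.  If `G = 3`: `z` is to the
left in the gap `2`: otherwise `cross` gives `Cov T c (e 2) z`; the label `x` of `c` on the gap `1` (`label`) satisfies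
`Cov T c (e 1) x`, `Cov T c (e 2) x`, so `ev (e 1) z = ev (e 1) x` and `ev (e 2) z = ev (e 2) x`, so `z = x` (`ev_inj`), but `z` is
to the left in the gap `1` and `x` is not (`Lf_iff`).  So `Stay T c e 0 G z`, contradicting `full`. -/
theorem few {T : Finset (ℝ × ℝ)} {D : ℤ} {c : ℕ} {e : ℕ → ℝ} {G : ℕ} (hG : Gaps T c e G) (hG2 : 2 ≤ G)
    (hspan : e G = e 0 + Real.pi) (hgen : ∀ z ∈ T, ∀ w ∈ T, z ≠ w → ev (e 0) z ≠ ev (e 0) w)
    (hc : c < T.card) (hc1 : 2 * c ≤ T.card) (hc2 : T.card ≤ 2 * c + 2) (hD : 4 ≤ D)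
    (hL : LL T 0 D c (e 1)) : 4 ≤ G := by
  by_contra hG4
  have h01 : e 0 < e 1 := hG.mono 0 1 (by omega) (by omega)
  have h12 : e 1 < e 2 := hG.mono 1 2 (by omega) (by omega)
  obtain ⟨z, hz, hcz, hl, hr⟩ := stays_near hc hc1 hc2 hD hL
  -- gap 0
  have g0 : ∀ φ, e 0 < φ → φ < e 1 → Lf T c φ z := by
    obtain ⟨ψ, hψ, hψ2⟩ := (hl.and (Ioo_mem_nhdsLT h01)).exists
    exact Lf_const hc hz (fun φ h1 h2 => hG.free 0 (by omega) φ h1 h2) hψ2.1 hψ2.2 hψ
  have g1 : ∀ φ, e 1 < φ → φ < e 2 → Lf T c φ z := by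
    obtain ⟨ψ, hψ, hψ2⟩ := (hr.and (Ioo_mem_nhdsGT h12)).exists
    exact Lf_const hc hz (fun φ h1 h2 => hG.free 1 (by omega) φ h1 h2) hψ2.1 hψ2.2 hψ
  have hfull := full hG (by omega) hspan hgen hc hc1 z hz
  have hG' : G = 2 ∨ G = 3 := by omega
  rcases hG' with rfl | rfl
  · refine hfull fun k _ hk φ h1 h2 => ?_
    interval_cases k
    · exact g0 φ h1 h2
    · exact g1 φ h1 h2
  · have h23 : e 2 < e 3 := hG.mono 2 3 (by omega) (by omega)
    refine hfull fun k _ hk φ h1 h2 => ?_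
    interval_cases k
    · exact g0 φ h1 h2
    · exact g1 φ h1 h2
    · by_contra hnl
      have hc2z : Cov T c (e 2) z :=
        cross hc hz (fun φ h1 h2 => hG.free 1 (by omega) φ h1 h2)
          (fun φ h1 h2 => hG.free 2 (by omega) φ h1 h2)
          ⟨(e 1 + e 2) / 2, by linarith, by linarith, g1 _ (by linarith) (by linarith)⟩
          ⟨φ, h1, h2, hnl⟩
      obtain ⟨x, hx, hx1, hx2⟩ := label hc h12 (fun φ h1 h2 => hG.free 1 (by omega) φ h1 h2)
      have e1 : ev (e 1) z = ev (e 1) x := hcz.ev_eq hx1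
      have e2 : ev (e 2) z = ev (e 2) x := hc2z.ev_eq hx2
      have hpi : e 2 < e 1 + Real.pi := by
        have := hG.span
        linarith
      have hzx : z = x := ev_inj h12 hpi e1 e2
      subst hzx
      have h3 := (Lf_iff (hx ((e 1 + e 2) / 2) (by linarith) (by linarith)).1 hz).1
        (g1 _ (by linarith) (by linarith))
      exact lt_irrefl _ h3

end Pool.Agent.MP_9673d9_co.Conv
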