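import Pool.Agent.MP_9673d9_co.Conv.Three
import Pool.Agent.MP_9673d9_co.Rich.Gap

set_option autoImplicit false

open Finset

namespace Pool.Agent.MP_9673d9_co.Conv

open Pool.Agent.MP_9673d9_co.Rich

/-- a direction in which all points of `T` have different values.
Proof: otherwise every `θ` in the infinite set `(0, π)` is in one of the finitely many sets
`{θ ∈ (0, π) | ev θ z = ev θ w}`, `z ≠ w` in `T`, each of which has at most one element (`ev_inj`). -/
theorem exists_generic (T : Finset (ℝ × ℝ)) : ∃ θ₀ : ℝ, ∀ z ∈ T, ∀ w ∈ T, z ≠ w → ev θ₀ z ≠ ev θ₀ w := by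
  classical
  have hfin : (⋃ r ∈ (((T ×ˢ T).filter fun r : (ℝ × ℝ) × (ℝ × ℝ) => r.1 ≠ r.2 :
      Finset ((ℝ × ℝ) × (ℝ × ℝ))) : Set ((ℝ × ℝ) × (ℝ × ℝ))),
      {φ : ℝ | 0 < φ ∧ φ < Real.pi ∧ ev φ r.1 = ev φ r.2}).Finite := by
    refine Set.Finite.biUnion (Finset.finite_toSet _) fun r hr => ?_
    refine Set.Subsingleton.finite ?_
    intro a ha b hb
    by_contra hab
    have hr' := (Finset.mem_filter.1 (Finset.mem_coe.1 hr)).2
    rcases lt_or_gt_of_ne hab with h | h
    · exact hr' (ev_inj h (by linarith [hb.2.1, ha.1]) ha.2.2 hb.2.2)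
    · exact hr' (ev_inj h (by linarith [ha.2.1, hb.1]) hb.2.2 ha.2.2)
  obtain ⟨θ, hθ, hn⟩ := (Set.Ioo_infinite Real.pi_pos).exists_notMem_finite hfin
  refine ⟨θ, fun z hz w hw hzw he => hn ?_⟩
  refine Set.mem_biUnion (x := (z, w)) ?_ ⟨hθ.1, hθ.2, he⟩
  exact Finset.mem_coe.2 (Finset.mem_filter.2 ⟨Finset.mem_product.2 ⟨hz, hw⟩, hzw⟩)

/-- The events at `c` in `(θ₀, θ₀ + π)` in increasing order.
Proof: the finite set of `events_finite`, non-empty by `exists_event`; together with `θ₀` and `θ₀ + π` it is a finite set `F`;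
`e k` is the `k`-th element (`Finset.orderEmbOfFin F rfl`) for `k < F.card`, `G = F.card - 1`. -/
theorem exists_gaps {T : Finset (ℝ × ℝ)} (hT : NC T) {c : ℕ} (hc : c < T.card) (θ₀ : ℝ) :
    ∃ (e : ℕ → ℝ) (G : ℕ), 2 ≤ G ∧ Gaps T c e G ∧ e 0 = θ₀ ∧ e G = θ₀ + Real.pi ∧
      ∀ k, 1 ≤ k → k < G → Ev T c (e k) := by
  classical
  have hπ := Real.pi_pos
  obtain ⟨φ₀, hφ1, hφ2, hφ3⟩ := exists_event hT hc θ₀
  set E : Finset ℝ := (events_finite T c θ₀).toFinset with hE
  have hEm : ∀ φ, φ ∈ E ↔ θ₀ < φ ∧ φ < θ₀ + Real.pi ∧ Ev T c φ := by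
    intro φ
    rw [hE, Set.Finite.mem_toFinset, Set.mem_ofPred_eq]
  set F : Finset ℝ := insert θ₀ (insert (θ₀ + Real.pi) E) with hF
  have hFm : ∀ φ, φ ∈ F ↔ φ = θ₀ ∨ φ = θ₀ + Real.pi ∨ (θ₀ < φ ∧ φ < θ₀ + Real.pi ∧ Ev T c φ) := by
    intro φ
    rw [hF, Finset.mem_insert, Finset.mem_insert, hEm]
  have hlo : ∀ φ ∈ F, θ₀ ≤ φ := by
    intro φ hφ
    rcases (hFm φ).1 hφ with h | h | h
    · linarith
    · linarith
    · linarith [h.1]
  have hhi : ∀ φ ∈ F, φ ≤ θ₀ + Real.pi := by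
    intro φ hφ
    rcases (hFm φ).1 hφ with h | h | h
    · linarith
    · linarith
    · linarith [h.2.1]
  have h0F : θ₀ ∈ F := (hFm _).2 (Or.inl rfl)
  have h1F : θ₀ + Real.pi ∈ F := (hFm _).2 (Or.inr (Or.inl rfl))
  have hφF : φ₀ ∈ F := (hFm _).2 (Or.inr (Or.inr ⟨hφ1, hφ2, hφ3⟩))
  have hcard : 3 ≤ F.card := by
    have h3 : ({θ₀, φ₀, θ₀ + Real.pi} : Finset ℝ).card = 3 := by
      rw [Finset.card_insert_of_notMem, Finset.card_insert_of_notMem, Finset.card_singleton]
      · rw [Finset.mem_singleton]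
        exact hφ2.ne
      · rw [Finset.mem_insert, Finset.mem_singleton]
        rintro (h | h)
        · exact hφ1.ne h
        · linarith
    rw [← h3]
    refine Finset.card_le_card ?_
    intro x hx
    rw [Finset.mem_insert, Finset.mem_insert, Finset.mem_singleton] at hx
    rcases hx with rfl | rfl | rfl
    · exact h0F
    · exact hφF
    · exact h1F
  set f := F.orderEmbOfFin rfl with hf
  set e : ℕ → ℝ := fun k => if h : k < F.card then f ⟨k, h⟩ else 0 with he
  have hek : ∀ k (h : k < F.card), e k = f ⟨k, h⟩ := fun k h => dif_pos h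
  have hmem : ∀ k, k < F.card → e k ∈ F := by
    intro k h
    rw [hek k h]
    exact Finset.orderEmbOfFin_mem F rfl _
  have hmono : ∀ k l, k < l → l < F.card → e k < e l := by
    intro k l hkl hl
    rw [hek k (hkl.trans hl), hek l hl]
    exact f.strictMono (Fin.mk_lt_mk.2 hkl)
  have hsurj : ∀ φ ∈ F, ∃ k, k < F.card ∧ e k = φ := by
    intro φ hφ
    have h1 : φ ∈ Set.range f := by
      rw [hf, Finset.range_orderEmbOfFin]
      exact hφ
    obtain ⟨⟨k, hk⟩, h2⟩ := h1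
    exact ⟨k, hk, (hek k hk).trans h2⟩
  have he0 : e 0 = θ₀ := by
    obtain ⟨k, hk, h2⟩ := hsurj θ₀ h0F
    rcases Nat.eq_zero_or_pos k with h3 | h3
    · rw [← h3]
      exact h2
    · have h4 := hmono 0 k h3 hk
      have h5 := hlo (e 0) (hmem 0 (by omega))
      rw [h2] at h4
      linarith
  have heG : e (F.card - 1) = θ₀ + Real.pi := by
    obtain ⟨k, hk, h2⟩ := hsurj (θ₀ + Real.pi) h1F
    rcases (show k ≤ F.card - 1 by omega).eq_or_lt with h3 | h3
    · rw [← h3]
      exact h2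
    · have h4 := hmono k (F.card - 1) h3 (by omega)
      have h5 := hhi (e (F.card - 1)) (hmem _ (by omega))
      rw [h2] at h4
      linarith
  refine ⟨e, F.card - 1, by omega, ⟨?_, ?_, ?_⟩, he0, heG, ?_⟩
  · intro k l hkl hl
    exact hmono k l hkl (by omega)
  · rw [he0, heG]
  · intro k hk φ h1 h2 h3
    have h4 := hlo (e k) (hmem k (by omega))
    have h5 := hhi (e (k + 1)) (hmem (k + 1) (by omega))
    obtain ⟨j, hj, hjφ⟩ := hsurj φ ((hFm φ).2 (Or.inr (Or.inr ⟨by linarith, by linarith, h3⟩)))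
    rw [← hjφ] at h1 h2
    have h6 : k < j := by
      by_contra hcon
      rcases (not_lt.1 hcon).eq_or_lt with h7 | h7
      · rw [h7] at h1
        exact lt_irrefl _ h1
      · exact lt_asymm h1 (hmono j k h7 (by omega))
    have h8 : j < k + 1 := by
      by_contra hcon
      rcases (not_lt.1 hcon).eq_or_lt with h7 | h7
      · rw [h7] at h2
        exact lt_irrefl _ h2
      · exact lt_asymm h2 (hmono (k + 1) j h7 hj)
    omega
  · intro k hk1 hk2
    rcases (hFm (e k)).1 (hmem k (by omega)) with h | h | h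
    · have h1 := hmono 0 k (by omega) (by omega)
      rw [he0, h] at h1
      exact absurd h1 (lt_irrefl _)
    · have h1 := hmono k (F.card - 1) hk2 (by omega)
      rw [heG, h] at h1
      exact absurd h1 (lt_irrefl _)
    · exact h.2.2

end Pool.Agent.MP_9673d9_co.Conv
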