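import Pool.Agent.MP_9673d9_co.Conv.PlanarA
import Pool.Agent.MP_9673d9_co.Rich.Reduce
import Pool.Agent.MP_9673d9_co.Rich.Bridge

set_option autoImplicit false

open Finset

namespace Pool.Agent.MP_9673d9_co.Conv

open Pool.Agent.MP_9673d9_co.Rich

/-- Projections.  `l1`, `l2` are independent and `(l1, l2)` is injective on `S`.
Proof: by contradiction `hbad_of`.  `T` is the image of `S` under `F s = (l1 s, l2 s)` (`Finset.card_image_of_injOn`,
`Finset.filter_image` as in `rich0`).  `Bad T 0 (2 s + 2)`: for `φ`, `y ∈ T` use `hbad` for the functional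
`cos φ • l1 + sin φ • l2` (`≠ 0` by `hind`, as `cos² + sin² = 1`) and `c = - ev φ y`, `sum_sg`.  `NC T`: if `ev φ = c` on `T`, then
all points of `S` are on the plane of this functional, whose sum of signs is `0`, a contradiction to `hbad` (`2 ≤ S.card`).
`planarA`: an exposed `Z' ⊆ T` is the image of `Z = S.filter (F s ∈ Z')`, of the same cardinality, and `hN` applies with
`a = cos φ`, `b = sin φ`. -/
theorem liftA (S : Finset (Fin 3 → ℝ)) (hS : 2 ≤ S.card) (l1 l2 : (Fin 3 → ℝ) →ₗ[ℝ] ℝ)
    (hind : ∀ a b : ℝ, a • l1 + b • l2 = 0 → a = 0 ∧ b = 0)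
    (hinj : ∀ x ∈ S, ∀ y ∈ S, l1 x = l1 y → l2 x = l2 y → x = y) {s m : ℕ} (hs : 1 ≤ s) (hm : 2 ≤ m)
    (hnum : 120 * s * (m + 1) < 2 ^ s)
    (hN : ∀ Z ⊆ S, (∀ z ∈ Z, ∃ a b : ℝ, ∀ x ∈ Z, x ≠ z → a * l1 x + b * l2 x < a * l1 z + b * l2 z) →
      Z.card ≤ 2 ^ m) : Balanced S (2 * (s : ℤ) + 1) := by
  classical
  by_contra hb
  have hbad := hbad_of hb
  set F : (Fin 3 → ℝ) → ℝ × ℝ := fun x => (l1 x, l2 x) with hF
  have hinjF : Set.InjOn F S := by
    intro x hx y hy hxy
    exact hinj x (Finset.mem_coe.1 hx) y (Finset.mem_coe.1 hy) (congrArg Prod.fst hxy)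
      (congrArg Prod.snd hxy)
  set T := S.image F with hT
  have hcount : ∀ P : ℝ × ℝ → Prop, (T.filter P).card = (S.filter fun x => P (F x)).card := by
    intro P
    rw [hT, Finset.filter_image, Finset.card_image_of_injOn]
    exact hinjF.mono (by
      intro x hx
      exact (Finset.mem_filter.1 hx).1)
  have hl : ∀ φ : ℝ, Real.cos φ • l1 + Real.sin φ • l2 ≠ 0 := by
    intro φ h0
    obtain ⟨h1, h2⟩ := hind _ _ h0
    have h3 := Real.sin_sq_add_cos_sq φ
    rw [h1, h2] at h3
    norm_num at h3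
  have hval : ∀ (φ c : ℝ) (x : Fin 3 → ℝ),
      (Real.cos φ • l1 + Real.sin φ • l2) x + -c = ev φ (F x) - c := by
    intro φ c x
    rfl
  have hNC : NC T := by
    intro φ c
    by_contra hcon
    push Not at hcon
    have e0 : ∀ x ∈ S, (Real.cos φ • l1 + Real.sin φ • l2) x + -c = 0 := by
      intro x hx
      rw [hval, hcon (F x) (Finset.mem_image_of_mem _ hx), sub_self]
    have e1 := hbad (Real.cos φ • l1 + Real.sin φ • l2) (-c) (hl φ) (by
      rw [Finset.filter_true_of_mem e0]
      exact hS)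
    rw [Finset.sum_congr rfl (fun x hx => by rw [e0 x hx, sg_zero] : ∀ x ∈ S,
      sg ((Real.cos φ • l1 + Real.sin φ • l2) x + -c) = 0), Finset.sum_const_zero, abs_zero] at e1
    omega
  have hBad : Bad T 0 (2 * (s : ℤ) + 2) := by
    intro φ y hy h2
    have e1 := hbad (Real.cos φ • l1 + Real.sin φ • l2) (-(ev φ y)) (hl φ) (by
      unfold same at h2
      rw [hcount] at h2
      refine h2.trans (le_of_eq ?_)
      congr 1
      refine Finset.filter_congr fun x _ => ?_
      rw [hval, sub_eq_zero])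
    rw [Finset.sum_congr rfl (fun x _ => by rw [hval φ _ x] : ∀ x ∈ S,
      sg ((Real.cos φ • l1 + Real.sin φ • l2) x + -(ev φ y)) = sg (ev φ (F x) - ev φ y)),
      sum_sg S] at e1
    have e2 : (above T φ y) = (S.filter fun x => 0 < ev φ (F x) - ev φ y).card := by
      unfold above
      rw [hcount]
      congr 1
      exact Finset.filter_congr fun x _ => by rw [sub_pos]
    have e3 : (below T φ y) = (S.filter fun x => ev φ (F x) - ev φ y < 0).card := by
      unfold below
      rw [hcount]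
      congr 1
      exact Finset.filter_congr fun x _ => by rw [sub_neg]
    rw [← e2, ← e3] at e1
    rw [zero_add]
    omega
  refine planarA hNC hs hm hnum hBad ?_
  intro Z' hZ' hE
  have hcard : Z'.card = (S.filter fun x => F x ∈ Z').card := by
    have e1 : (S.filter fun x => F x ∈ Z').image F = Z' := by
      ext y
      rw [Finset.mem_image]
      constructor
      · rintro ⟨x, hx, rfl⟩
        exact (Finset.mem_filter.1 hx).2
      · intro hy
        obtain ⟨x, hx, hxy⟩ := Finset.mem_image.1 (hZ' hy)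
        exact ⟨x, Finset.mem_filter.2 ⟨hx, by rw [hxy]; exact hy⟩, hxy⟩
    have e2 : ((S.filter fun x => F x ∈ Z').image F).card = (S.filter fun x => F x ∈ Z').card :=
      Finset.card_image_of_injOn (hinjF.mono fun x hx => (Finset.mem_filter.1 hx).1)
    rw [← e2, e1]
  rw [hcard]
  refine hN _ (Finset.filter_subset _ _) ?_
  intro z hz
  rw [Finset.mem_filter] at hz
  obtain ⟨φ, hφ⟩ := hE (F z) hz.2
  refine ⟨Real.cos φ, Real.sin φ, fun x hx hne => ?_⟩
  rw [Finset.mem_filter] at hx
  exact hφ (F x) hx.2 fun h => hne (hinjF (Finset.mem_coe.2 hx.1) (Finset.mem_coe.2 hz.1) h)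

end Pool.Agent.MP_9673d9_co.Conv
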