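import Pool.Agent.MP_9673d9_co.Conv.PlanarB
import Pool.Agent.MP_9673d9_co.Rich.Reduce
import Pool.Agent.MP_9673d9_co.Rich.Bridge

set_option autoImplicit false

open Finset

namespace Pool.Agent.MP_9673d9_co.Conv

open Pool.Agent.MP_9673d9_co.Rich

/-- Planes through two given points.
Proof: as `rich0` (copy its beginning), with `planarB` (`D = B + 1`, `B = 2 j + 3`) instead of `planar_rich`: `¬ Balanced` gives
`hbad` (`hbad_of`), `reduce` gives `h, A1, A2, a`, the planar set `T` and `Z' ⊆ T` exposed with `2 ^ j ≤ Z'.card`.  `Z` is the set of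
the `s ∈ S` with `h (s - p) = 0` and `F s ∈ Z'`; the functional for `z ∈ Z` is `cos φ • A1 + sin φ • A2`.
`v i = h (Pi.single i 1)` (`coef`, `coef_ne`), `c = h p`. -/
theorem liftB (S : Finset (Fin 3 → ℝ)) (j : ℕ) (p q : Fin 3 → ℝ) (hp : p ∈ S) (hq : q ∈ S) (hpq : p ≠ q)
    (hb : ¬ Balanced S (2 * (j : ℤ) + 3)) :
    ∃ h : (Fin 3 → ℝ) →ₗ[ℝ] ℝ, h ≠ 0 ∧ h q = h p ∧ ∃ Z ⊆ S, (∀ z ∈ Z, h z = h p) ∧ 2 ^ j ≤ Z.card ∧
      ∀ z ∈ Z, ∃ u : (Fin 3 → ℝ) →ₗ[ℝ] ℝ, ∀ x ∈ Z, x ≠ z → u x < u z := by
  classical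
  have hbad := hbad_of hb
  have hB0 : 0 ≤ 2 * (j : ℤ) + 3 := by
    have : (0 : ℤ) ≤ (j : ℤ) := Int.natCast_nonneg j
    omega
  obtain ⟨h, A1, A2, a, hh0, hhq, haS, hha, h1q, h2q, h1a, h2a, hcoord, hval, htilt⟩ :=
    reduce S (2 * (j : ℤ) + 3) hB0 hbad p q hp hq hpq
  set S' := S.filter fun s => h (s - p) = 0 with hS'
  set F : (Fin 3 → ℝ) → ℝ × ℝ := fun s => (A1 (s - p), A2 (s - p)) with hF
  have hinj : Set.InjOn F S' := by
    intro s hs t ht hst
    rw [Finset.mem_coe, hS', Finset.mem_filter] at hs ht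
    have e1 := hcoord _ hs.2
    have e2 := hcoord _ ht.2
    have e3 : A1 (s - p) = A1 (t - p) := congrArg Prod.fst hst
    have e4 : A2 (s - p) = A2 (t - p) := congrArg Prod.snd hst
    rw [e3, e4, ← e2] at e1
    exact sub_left_injective e1
  set T := S'.image F with hT
  have hcount : ∀ P : ℝ × ℝ → Prop, (T.filter P).card = (S'.filter fun s => P (F s)).card := by
    intro P
    rw [hT, Finset.filter_image, Finset.card_image_of_injOn]
    exact hinj.mono (by
      intro x hx
      exact (Finset.mem_filter.1 hx).1)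
  have hTcard : T.card = S'.card := by
    rw [hT, Finset.card_image_of_injOn hinj]
  have hpS' : p ∈ S' := by
    rw [hS', Finset.mem_filter]
    exact ⟨hp, by rw [sub_self, map_zero]⟩
  have hqS' : q ∈ S' := by
    rw [hS', Finset.mem_filter]
    exact ⟨hq, hhq⟩
  have haS' : a ∈ S' := by
    rw [hS', Finset.mem_filter]
    exact ⟨haS, hha⟩
  have hFp : F p = (0, 0) := by
    rw [hF]
    simp
  have hFq : F q = (1, 0) := by
    rw [hF]
    simp only [h1q, h2q]
  have hFa : F a = (0, 1) := by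
    rw [hF]
    simp only [h1a, h2a]
  have hNC : NC T := by
    intro φ c
    by_contra hcon
    push Not at hcon
    have e1 := hcon (F p) (Finset.mem_image_of_mem _ hpS')
    have e2 := hcon (F q) (Finset.mem_image_of_mem _ hqS')
    have e3 := hcon (F a) (Finset.mem_image_of_mem _ haS')
    rw [hFp] at e1
    rw [hFq] at e2
    rw [hFa] at e3
    unfold ev at e1 e2 e3
    simp only [mul_zero, mul_one, add_zero, zero_add] at e1 e2 e3
    have e4 := Real.sin_sq_add_cos_sq φ
    rw [e2, e3, ← e1] at e4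
    norm_num at e4
  have hBad : Bad T (∑ s ∈ S, sg (h (s - p))) (2 * (j : ℤ) + 3 + 1) := by
    intro φ y hy h2
    have e0 : ∀ s, Real.cos φ * A1 (s - p) + Real.sin φ * A2 (s - p) + -(ev φ y) = ev φ (F s) - ev φ y := by
      intro s
      rfl
    have e1 := htilt (Real.cos φ) (Real.sin φ) (-(ev φ y)) (by
      unfold same at h2
      rw [hcount] at h2
      refine h2.trans (le_of_eq ?_)
      congr 1
      refine Finset.filter_congr fun s _ => ?_
      rw [e0, sub_eq_zero])
    rw [Finset.sum_congr rfl (fun s _ => by rw [e0 s] : ∀ s ∈ S',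
      sg (Real.cos φ * A1 (s - p) + Real.sin φ * A2 (s - p) + -(ev φ y)) = sg (ev φ (F s) - ev φ y)),
      sum_sg S'] at e1
    have e2 : (above T φ y) = (S'.filter fun s => 0 < ev φ (F s) - ev φ y).card := by
      unfold above
      rw [hcount]
      congr 1
      exact Finset.filter_congr fun s _ => by rw [sub_pos]
    have e3 : (below T φ y) = (S'.filter fun s => ev φ (F s) - ev φ y < 0).card := by
      unfold below
      rw [hcount]
      congr 1
      exact Finset.filter_congr fun s _ => by rw [sub_neg]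
    rw [← e2, ← e3, ← add_sub_assoc] at e1
    omega
  obtain ⟨Z', hZ', hcardZ, hE⟩ := planarB hNC hBad (j := j) (by omega) (by
    rw [hTcard]
    exact hval)
  refine ⟨h, hh0, ?_, S'.filter fun x => F x ∈ Z', ?_, ?_, ?_, ?_⟩
  · rw [map_sub] at hhq
    exact sub_eq_zero.1 hhq
  · intro x hx
    exact (Finset.mem_filter.1 (Finset.mem_filter.1 hx).1).1
  · intro z hz
    have h1 := (Finset.mem_filter.1 (Finset.mem_filter.1 hz).1).2
    rw [map_sub] at h1
    exact sub_eq_zero.1 h1
  · have e1 : (S'.filter fun x => F x ∈ Z').image F = Z' := by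
      ext y
      rw [Finset.mem_image]
      constructor
      · rintro ⟨x, hx, rfl⟩
        exact (Finset.mem_filter.1 hx).2
      · intro hy
        obtain ⟨x, hx, hxy⟩ := Finset.mem_image.1 (hZ' hy)
        exact ⟨x, Finset.mem_filter.2 ⟨hx, by rw [hxy]; exact hy⟩, hxy⟩
    have e2 : ((S'.filter fun x => F x ∈ Z').image F).card =
        (S'.filter fun x => F x ∈ Z').card :=
      Finset.card_image_of_injOn (hinj.mono fun x hx => (Finset.mem_filter.1 hx).1)
    rw [← e2, e1]
    exact hcardZ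
  · intro z hz
    rw [Finset.mem_filter] at hz
    obtain ⟨φ, hφ⟩ := hE (F z) hz.2
    refine ⟨Real.cos φ • A1 + Real.sin φ • A2, fun x hx hne => ?_⟩
    rw [Finset.mem_filter] at hx
    have h1 := hφ (F x) hx.2 fun h => hne (hinj (Finset.mem_coe.2 hx.1) (Finset.mem_coe.2 hz.1) h)
    have h2 : ∀ y, (Real.cos φ • A1 + Real.sin φ • A2) y =
        ev φ (F y) + (Real.cos φ • A1 + Real.sin φ • A2) p := by
      intro y
      show Real.cos φ * A1 y + Real.sin φ * A2 y =
        Real.cos φ * A1 (y - p) + Real.sin φ * A2 (y - p) + (Real.cos φ * A1 p + Real.sin φ * A2 p)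
      rw [map_sub, map_sub]
      ring
    rw [h2 x, h2 z]
    linarith

end Pool.Agent.MP_9673d9_co.Conv
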