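import Pool.Agent.MP_9673d9_co.Conv.Three

set_option autoImplicit false

open Finset

namespace Pool.Agent.MP_9673d9_co.Conv

open Pool.Agent.MP_9673d9_co.Rich

/-- bookkeeping for `below_right` and `below_left` -/
theorem TurnA_card (T : Finset (ℝ × ℝ)) (φ₀ ψ : ℝ) (z : ℝ × ℝ) (P : ℝ × ℝ → Prop)
    (h : ∀ w ∈ T, (ev ψ w < ev ψ z ↔ ev φ₀ w < ev φ₀ z ∨ (ev φ₀ w = ev φ₀ z ∧ P w))) :
    below T ψ z = below T φ₀ z + (flt T fun w => ev φ₀ w = ev φ₀ z ∧ P w).card := by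
  classical
  have hd : Disjoint (T.filter fun w => ev φ₀ w < ev φ₀ z) (flt T fun w => ev φ₀ w = ev φ₀ z ∧ P w) := by
    rw [Finset.disjoint_left]
    intro w hw hw'
    rw [Finset.mem_filter] at hw
    rw [mem_flt] at hw'
    exact absurd hw'.2.1 hw.2.ne
  unfold below
  rw [← Finset.card_union_of_disjoint hd]
  congr 1
  ext w
  rw [Finset.mem_filter, Finset.mem_union, Finset.mem_filter, mem_flt]
  constructor
  · rintro ⟨h1, h2⟩
    rcases (h w h1).1 h2 with h3 | h3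
    · exact Or.inl ⟨h1, h3⟩
    · exact Or.inr ⟨h1, h3⟩
  · rintro (⟨h1, h2⟩ | ⟨h1, h2⟩)
    · exact ⟨h1, (h w h1).2 (Or.inl h2)⟩
    · exact ⟨h1, (h w h1).2 (Or.inr h2)⟩

/-- The points of `T` below `z` just after `φ₀`: those below `z` at `φ₀`, and those of the same value with smaller
derivative `ev (φ₀ + π / 2)`.
Proof: for every `w ∈ T`, eventually for `ψ → φ₀+`: `ev ψ w < ev ψ z` iff (`ev φ₀ w < ev φ₀ z`, or `ev φ₀ w = ev φ₀ z` and
`ev (φ₀ + π/2) w < ev (φ₀ + π/2) z`): if the values at `φ₀` differ by `ev_near`; if they are equal, by `ev_rot`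
`ev ψ w - ev ψ z = sin (ψ - φ₀) * (ev (φ₀ + π/2) w - ev (φ₀ + π/2) z)` with `sin (ψ - φ₀) > 0` for `φ₀ < ψ < φ₀ + π`.
`Filter.eventually_all_finset`, then cards of filters (disjoint union). -/
theorem below_right (T : Finset (ℝ × ℝ)) (φ₀ : ℝ) (z : ℝ × ℝ) :
    ∀ᶠ ψ in nhdsWithin φ₀ (Set.Ioi φ₀), below T ψ z = below T φ₀ z +
      (flt T fun w => ev φ₀ w = ev φ₀ z ∧ ev (φ₀ + Real.pi / 2) w < ev (φ₀ + Real.pi / 2) z).card := by
  have hall : ∀ w ∈ T, ∀ᶠ ψ in nhdsWithin φ₀ (Set.Ioi φ₀), (ev ψ w < ev ψ z ↔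
      ev φ₀ w < ev φ₀ z ∨ (ev φ₀ w = ev φ₀ z ∧ ev (φ₀ + Real.pi / 2) w < ev (φ₀ + Real.pi / 2) z)) := by
    intro w _
    rcases lt_trichotomy (ev φ₀ w) (ev φ₀ z) with h | h | h
    · filter_upwards [(ev_near h).filter_mono nhdsWithin_le_nhds] with ψ hψ
      exact ⟨fun _ => Or.inl h, fun _ => hψ⟩
    · filter_upwards [Ioo_mem_nhdsGT (show φ₀ < φ₀ + Real.pi by linarith [Real.pi_pos])] with ψ hψ
      have hs : 0 < Real.sin (ψ - φ₀) :=
        Real.sin_pos_of_pos_of_lt_pi (by linarith [hψ.1]) (by linarith [hψ.2])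
      have e1 := ev_rot φ₀ ψ w
      have e2 := ev_rot φ₀ ψ z
      rw [h] at e1
      constructor
      · intro h1
        refine Or.inr ⟨h, ?_⟩
        by_contra hcon
        rw [not_lt] at hcon
        have := mul_le_mul_of_nonneg_left hcon hs.le
        linarith
      · rintro (h1 | ⟨_, h1⟩)
        · exact absurd h h1.ne
        · have := mul_lt_mul_of_pos_left h1 hs
          linarith
    · filter_upwards [(ev_near h).filter_mono nhdsWithin_le_nhds] with ψ hψ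
      exact ⟨fun h1 => absurd h1 (not_lt.2 hψ.le), fun h1 => by
        rcases h1 with h1 | h1
        · exact absurd h1 (not_lt.2 h.le)
        · exact absurd h1.1 h.ne'⟩
  filter_upwards [(Filter.eventually_all_finset T).2 hall] with ψ hψ
  exact TurnA_card T φ₀ ψ z _ hψ

/-- The same just before `φ₀` (now `sin (ψ - φ₀) < 0`). -/
theorem below_left (T : Finset (ℝ × ℝ)) (φ₀ : ℝ) (z : ℝ × ℝ) :
    ∀ᶠ ψ in nhdsWithin φ₀ (Set.Iio φ₀), below T ψ z = below T φ₀ z +
      (flt T fun w => ev φ₀ w = ev φ₀ z ∧ ev (φ₀ + Real.pi / 2) z < ev (φ₀ + Real.pi / 2) w).card := by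
  have hall : ∀ w ∈ T, ∀ᶠ ψ in nhdsWithin φ₀ (Set.Iio φ₀), (ev ψ w < ev ψ z ↔
      ev φ₀ w < ev φ₀ z ∨ (ev φ₀ w = ev φ₀ z ∧ ev (φ₀ + Real.pi / 2) z < ev (φ₀ + Real.pi / 2) w)) := by
    intro w _
    rcases lt_trichotomy (ev φ₀ w) (ev φ₀ z) with h | h | h
    · filter_upwards [(ev_near h).filter_mono nhdsWithin_le_nhds] with ψ hψ
      exact ⟨fun _ => Or.inl h, fun _ => hψ⟩
    · filter_upwards [Ioo_mem_nhdsLT (show φ₀ - Real.pi < φ₀ by linarith [Real.pi_pos])] with ψ hψ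
      have hs : Real.sin (ψ - φ₀) < 0 :=
        Real.sin_neg_of_neg_of_neg_pi_lt (by linarith [hψ.2]) (by linarith [hψ.1])
      have e1 := ev_rot φ₀ ψ w
      have e2 := ev_rot φ₀ ψ z
      rw [h] at e1
      constructor
      · intro h1
        refine Or.inr ⟨h, ?_⟩
        by_contra hcon
        rw [not_lt] at hcon
        have := mul_le_mul_of_nonpos_left hcon hs.le
        linarith
      · rintro (h1 | ⟨_, h1⟩)
        · exact absurd h h1.ne
        · have := mul_lt_mul_of_neg_left h1 hs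
          linarith
    · filter_upwards [(ev_near h).filter_mono nhdsWithin_le_nhds] with ψ hψ
      exact ⟨fun h1 => absurd h1 (not_lt.2 hψ.le), fun h1 => by
        rcases h1 with h1 | h1
        · exact absurd h1 (not_lt.2 h.le)
        · exact absurd h1.1 h.ne'⟩
  filter_upwards [(Filter.eventually_all_finset T).2 hall] with ψ hψ
  exact TurnA_card T φ₀ ψ z _ hψ

end Pool.Agent.MP_9673d9_co.Conv
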