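import Pool.Agent.MP_9673d9_co.Conv.SideB
import Pool.Agent.MP_9673d9_co.Conv.TurnA
import Pool.Agent.MP_9673d9_co.Rich.Gap

set_option autoImplicit false

open Finset

namespace Pool.Agent.MP_9673d9_co.Conv

open Pool.Agent.MP_9673d9_co.Rich

/-- the two sides of a class, without the point itself -/
theorem Near_split {T : Finset (ℝ × ℝ)} (φ₀ : ℝ) {z : ℝ × ℝ} (hz : z ∈ T) :
    (flt T fun w => ev φ₀ w = ev φ₀ z ∧ ev (φ₀ + Real.pi / 2) z < ev (φ₀ + Real.pi / 2) w).card +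
      (flt T fun w => ev φ₀ w = ev φ₀ z ∧ ev (φ₀ + Real.pi / 2) w < ev (φ₀ + Real.pi / 2) z).card + 1 ≤
      same T φ₀ z := by
  classical
  set A := flt T fun w => ev φ₀ w = ev φ₀ z ∧ ev (φ₀ + Real.pi / 2) z < ev (φ₀ + Real.pi / 2) w
    with hA
  set B := flt T fun w => ev φ₀ w = ev φ₀ z ∧ ev (φ₀ + Real.pi / 2) w < ev (φ₀ + Real.pi / 2) z
    with hB
  have hAB : Disjoint A B := by
    rw [Finset.disjoint_left]
    intro w h1 h2
    rw [hA, mem_flt] at h1
    rw [hB, mem_flt] at h2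
    exact lt_asymm h1.2.2 h2.2.2
  have hz1 : Disjoint (A ∪ B) {z} := by
    rw [Finset.disjoint_singleton_right, Finset.mem_union]
    rintro (h | h)
    · rw [hA, mem_flt] at h
      exact lt_irrefl _ h.2.2
    · rw [hB, mem_flt] at h
      exact lt_irrefl _ h.2.2
  have h1 : (A ∪ B ∪ {z}).card = A.card + B.card + 1 := by
    rw [Finset.card_union_of_disjoint hz1, Finset.card_union_of_disjoint hAB,
      Finset.card_singleton]
  rw [← h1]
  unfold same
  refine Finset.card_le_card fun w hw => ?_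
  rw [Finset.mem_union, Finset.mem_union, Finset.mem_singleton] at hw
  rw [Finset.mem_filter]
  rcases hw with (h | h) | h
  · rw [hA, mem_flt] at h
    exact ⟨h.1, h.2.1⟩
  · rw [hB, mem_flt] at h
    exact ⟨h.1, h.2.1⟩
  · subst h
    exact ⟨hz, rfl⟩

/-- just after `φ₀` no other point has the value of `z` -/
theorem Near_same {T : Finset (ℝ × ℝ)} (φ₀ : ℝ) {z : ℝ × ℝ} (hz : z ∈ T) :
    ∀ᶠ ψ in nhdsWithin φ₀ (Set.Ioi φ₀), same T ψ z = 1 := by
  classical
  have h1 : ∀ w ∈ T, ∀ᶠ ψ in nhdsWithin φ₀ (Set.Ioi φ₀), ev ψ w = ev ψ z → w = z := by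
    intro w _
    rcases lt_trichotomy (ev φ₀ w) (ev φ₀ z) with h2 | h2 | h2
    · filter_upwards [(ev_near h2).filter_mono nhdsWithin_le_nhds] with ψ hψ h3
      exact absurd h3 hψ.ne
    · filter_upwards [Ioo_mem_nhdsGT (by linarith [Real.pi_pos] : φ₀ < φ₀ + Real.pi)] with ψ hψ h3
      exact ev_inj hψ.1 hψ.2 h2 h3
    · filter_upwards [(ev_near h2).filter_mono nhdsWithin_le_nhds] with ψ hψ h3
      exact absurd h3 hψ.ne'
  filter_upwards [(Filter.eventually_all_finset T).2 h1] with ψ hψ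
  unfold same
  rw [Finset.card_eq_one]
  refine ⟨z, ?_⟩
  ext w
  rw [Finset.mem_filter, Finset.mem_singleton]
  constructor
  · rintro ⟨h2, h3⟩
    exact hψ w h2 h3
  · rintro rfl
    exact ⟨hz, rfl⟩

/-- A point of the class at a left event `φ₀` which is to the left just before and just after.
Proof: `c = c' + 1` (`LL.pos`); `LL.down` shows that the class `y` at `φ₀` covers `c'` too.  Let `z` be a point of `T` in a direction
`ψ` just before `φ₀` with `Cov T c' ψ z`, `same T ψ z = 1` — e.g. the label of `c'` on an interval `(α, φ₀)` without events at `c'`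
(`exists_last` in `(φ₀ - π, φ₀)`, or `φ₀ - π` if there is none; `label`).  `Cov T c' φ₀ z` by `label`, so `z` is in the class of `y`.
With `L = below T φ₀ z`, `m = same T φ₀ z`: `below_left` gives `c' = L + #{w in the class | σ z < σ w}`.  The class without `z` splits into
`σ z < σ w` and `σ w < σ z` (equality of `ev φ₀` and of `σ = ev (φ₀ + π/2)` means equality of the points, `ev_inj`), so
`below_right` gives `below T ψ z = L + (m - 1) - (c' - L)` just after `φ₀`.  `LL` gives `2 L + m ≤ T.card - D ≤ 2 c + 2 - D`, so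
`below T ψ z ≤ 2 L + m - c < c`; and `above ≥ T.card - 1 - below` because `same T ψ z = 1` just after `φ₀` (or use `Lf_iff`). -/
theorem stays_near {T : Finset (ℝ × ℝ)} {D : ℤ} {c : ℕ} (hc : c < T.card) (hc1 : 2 * c ≤ T.card)
    (hc2 : T.card ≤ 2 * c + 2) (hD : 4 ≤ D) {φ₀ : ℝ} (hL : LL T 0 D c φ₀) :
    ∃ z ∈ T, Cov T c φ₀ z ∧ (∀ᶠ ψ in nhdsWithin φ₀ (Set.Iio φ₀), Lf T c ψ z) ∧
      (∀ᶠ ψ in nhdsWithin φ₀ (Set.Ioi φ₀), Lf T c ψ z) := by
  have hpos : 1 ≤ c := hL.pos (by omega)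
  obtain ⟨c', rfl⟩ : ∃ k, c = k + 1 := ⟨c - 1, by omega⟩
  obtain ⟨y, hy1, hy2⟩ := down_cov hL (by omega)
  -- an interval before `φ₀` without events at `c'`
  obtain ⟨α, hα, hno⟩ : ∃ α < φ₀, ∀ φ, α < φ → φ < φ₀ → ¬ Ev T c' φ := by
    by_cases hex : ∃ φ, φ₀ - Real.pi < φ ∧ φ < φ₀ ∧ Ev T c' φ
    · obtain ⟨φ, _, h2, _, h4⟩ := exists_last (by linarith) hex
      exact ⟨φ, h2, h4⟩
    · push Not at hex
      exact ⟨φ₀ - Real.pi, by linarith [Real.pi_pos], hex⟩
  obtain ⟨z, hz, -, hzc'⟩ := label (by omega : c' < T.card) hα hno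
  have hzT : z ∈ T := hzc'.1
  have hev : ev φ₀ y = ev φ₀ z := hy2.ev_eq hzc'
  have hzc : Cov T (c' + 1) φ₀ z := hy1.congr hzT hev
  have hL2 : D ≤ (0 : ℤ) + (above T φ₀ z : ℤ) - (below T φ₀ z : ℤ) := by
    obtain ⟨y', h1, _, h3⟩ := hL
    have h4 := h1.ev_eq hzc
    rw [above_congr h4, below_congr h4] at h3
    exact h3
  refine ⟨z, hzT, hzc, ?_, ?_⟩
  · filter_upwards [Ioo_mem_nhdsLT hα] with ψ hψ
    obtain ⟨⟨_, h2, h3⟩, h4⟩ := hz ψ hψ.1 hψ.2
    have h5 := count_add T ψ z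
    unfold Lf
    omega
  · -- the number of points of the class above `z` in the rotated direction
    have hleft : c' = below T φ₀ z + (flt T fun w => ev φ₀ w = ev φ₀ z ∧
        ev (φ₀ + Real.pi / 2) z < ev (φ₀ + Real.pi / 2) w).card := by
      have h1 : ∀ᶠ ψ in nhdsWithin φ₀ (Set.Iio φ₀), below T ψ z = c' := by
        filter_upwards [Ioo_mem_nhdsLT hα] with ψ hψ
        obtain ⟨⟨_, h2, h3⟩, h4⟩ := hz ψ hψ.1 hψ.2
        have h5 := count_add T ψ z
        omega
      obtain ⟨ψ, h2, h3⟩ := (h1.and (below_left T φ₀ z)).exists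
      rw [← h2, h3]
    have hsplit := Near_split φ₀ hzT
    have hcnt := count_add T φ₀ z
    filter_upwards [below_right T φ₀ z, Near_same φ₀ hzT] with ψ h1 h2
    have h3 := count_add T ψ z
    unfold Lf
    omega

end Pool.Agent.MP_9673d9_co.Conv
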