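import Pool.Agent.MP_9673d9_co.Conv.VisEv

set_option autoImplicit false

open Finset

namespace Pool.Agent.MP_9673d9_co.Conv

open Pool.Agent.MP_9673d9_co.Rich

/-- A class covering `p` but not `i > p` is centred to the left.
Proof: `LL_or_RR`; if it is `RR` at `p` then, its class `y`: `d + above - below ≤ -D`; with `below ≤ p`, `p + above < card` and the
window inequality at `i` (`-D < d + card - 1 - 2 i`) the same `y` covers `i` (`i + above < card`), so `Ev T i φ`. -/
theorem LL_of_low {T : Finset (ℝ × ℝ)} {d D : ℤ} (hB : Bad T d D) {p i : ℕ} (hpi : p ≤ i) {φ : ℝ}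
    (h : Ev T p φ) (hn : ¬ Ev T i φ) (hf : -D < d + (T.card : ℤ) - 1 - 2 * (i : ℤ)) : LL T d D p φ := by
  rcases LL_or_RR hB h with h1 | h1
  · exact h1
  · exfalso
    obtain ⟨y, ⟨a0, a1, a2⟩, a3, a4⟩ := h1
    exact hn ⟨y, ⟨a0, by omega, by omega⟩, a3⟩

/-- Consecutive left events at `i` have at least `2 ^ j` labels of the position `i - j` between them, in convex position.
Proof: `down` gives `E` with at least `2 ^ j + 1` events at `i - j` in `[θ, θ']`; remove `θ` and `θ'` if they belong to it; all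
events at `i - j` in `(θ, θ')` are `LL` by `LL_of_low`; `vis_events` with `p = i - j`.
(The `k` of `down` with `(k : ℤ) = i - j` is `i - j`, and `j ≤ i`.) -/
theorem pair_vis {T : Finset (ℝ × ℝ)} {d D : ℤ} (hB : Bad T d D) (j i : ℕ) {θ θ' : ℝ} (h1 : θ < θ')
    (h2 : θ' < θ + Real.pi) (hi : i < T.card) (hL : LL T d D i θ) (hL' : LL T d D i θ')
    (hno : ∀ φ, θ < φ → φ < θ' → ¬ Ev T i φ)
    (hf1 : d + (T.card : ℤ) - 1 - 2 * (i : ℤ) + 2 * (j : ℤ) < D)
    (hf2 : -D < d + (T.card : ℤ) - 1 - 2 * (i : ℤ)) :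
    ∃ V ⊆ vis T (i - j) θ θ', 2 ^ j ≤ V.card ∧ Exposed V := by
  classical
  obtain ⟨E, hE1, hE2, hE3⟩ := down hB j i θ θ' h1 h2 hi hL hL' hno hf1 hf2
  have hEne : E.Nonempty := by
    rw [← Finset.card_pos]
    have h3 : 0 < 2 ^ j := Nat.two_pow_pos j
    omega
  have hji : j ≤ i := by
    obtain ⟨φ, hφ⟩ := hEne
    obtain ⟨k, hk, _⟩ := hE3 φ hφ
    omega
  have hEv : ∀ φ ∈ E, Ev T (i - j) φ := by
    intro φ hφ
    obtain ⟨k, hk, hk2⟩ := hE3 φ hφ
    have : k = i - j := by omega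
    rw [← this]
    exact hk2.ev
  set E' := (E.erase θ).erase θ' with hE'
  have hcard : E.card ≤ E'.card + 2 := by
    have h3 := Finset.pred_card_le_card_erase (s := E) (a := θ)
    have h4 := Finset.pred_card_le_card_erase (s := E.erase θ) (a := θ')
    rw [← hE'] at h4
    omega
  have hf : d + (T.card : ℤ) - 1 - 2 * ((i - j : ℕ) : ℤ) < D := by
    rw [Nat.cast_sub hji]
    omega
  obtain ⟨V, hV1, hV2, hV3⟩ := vis_events (T := T) (d := d) (D := D) (p := i - j) (by omega) hf h1 h2.le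
    (fun φ g1 g2 g3 => LL_of_low hB (Nat.sub_le i j) g3 (hno φ g1 g2) hf2) E' (by
      intro φ hφ
      rw [hE', Finset.mem_erase, Finset.mem_erase] at hφ
      obtain ⟨a1, a2, a3⟩ := hφ
      have b := hE2 φ a3
      exact ⟨lt_of_le_of_ne b.1 (Ne.symm a2), lt_of_le_of_ne b.2 a1, hEv φ a3⟩)
  exact ⟨V, hV1, by omega, hV3⟩

end Pool.Agent.MP_9673d9_co.Conv
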