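import Pool.Agent.MP_9673d9_co.Conv.Triple

set_option autoImplicit false

open Finset

namespace Pool.Agent.MP_9673d9_co.Conv

open Pool.Agent.MP_9673d9_co.Rich

/-- `2 s + 3 ≤ T.card`: a class with two points has `|above - below| ≤ T.card - 2`. -/
theorem card_ge {T : Finset (ℝ × ℝ)} (hT : NC T) {D : ℤ} (hB : Bad T 0 D) : D + 2 ≤ (T.card : ℤ) := by
  obtain ⟨z, hz, _⟩ := hT 0 0
  have hc : 0 < T.card := Finset.card_pos.2 ⟨z, hz⟩
  obtain ⟨φ, _, _, y, hy, h2⟩ := exists_event hT hc 0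
  have h3 := hB φ y hy.1 h2
  have h4 := count_add T φ y
  rcases abs_cases (0 + (above T φ y : ℤ) - (below T φ y : ℤ)) with ⟨h5, _⟩ | ⟨h5, _⟩ <;> rw [h5] at h3 <;> omega

theorem sumlow_pairs (f : ℕ → ℕ) (B : ℕ) : ∀ n : ℕ, (∀ i < n, B ≤ f (2 * i + 1) + f (2 * i + 2)) →
    n * B ≤ ∑ k ∈ Finset.Ico 1 (2 * n + 1), f k := by
  intro n
  induction n with
  | zero => intro _; simp
  | succ n ih =>
    intro h
    have h1 := ih fun i hi => h i (by omega)
    have h2 := h n (by omega)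
    have e1 : ∑ k ∈ Finset.Ico 1 (2 * (n + 1) + 1), f k = ∑ k ∈ Finset.Ico 1 (2 * n + 1), f k + f (2 * n + 1) +
        f (2 * n + 2) := by
      rw [show 2 * (n + 1) + 1 = (2 * n + 1 + 1) + 1 by ring, Finset.sum_Ico_succ_top (by omega),
        Finset.sum_Ico_succ_top (by omega)]
    rw [e1, Nat.succ_mul]
    omega

/-- lower bound for the visits in the gaps `[0, j)`, `j ≤ G`; the pairs of gaps `(1, 2), (3, 4), …`.
Proof: `∑_{k < j} ≥ ∑_{i < (j - 2) / 2} (terms 2 i + 1 and 2 i + 2)`, each at least `2 ^ (s - 1)` by `triple`; as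
`2 i + 3 ≤ j - 1 < G` all three directions are events; they are in the open half-turn `(e 0, e G)`. -/
theorem sum_lower {T : Finset (ℝ × ℝ)} {D : ℤ} (hB : Bad T 0 D) {c s : ℕ} (hs : 1 ≤ s) (hc : c < T.card)
    (hD : 2 * (s : ℤ) + 2 ≤ D) (hc1 : 2 * c ≤ T.card) (hc2 : T.card ≤ 2 * c + 2) {e : ℕ → ℝ} {G : ℕ}
    (hG : Gaps T c e G) (hev : ∀ k, 1 ≤ k → k < G → Ev T c (e k)) {j : ℕ} (hj : j ≤ G) :
    (j - 2) / 2 * 2 ^ (s - 1) ≤ ∑ k ∈ Finset.Ico 0 j, (vis T (c - s) (e k) (e (k + 1))).card +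
      ∑ k ∈ Finset.Ico 0 j, (vis T (c + s) (e k) (e (k + 1))).card := by
  rw [← Finset.sum_add_distrib]
  obtain ⟨n, hn⟩ : ∃ n, n = (j - 2) / 2 := ⟨_, rfl⟩
  rw [← hn]
  by_cases hn0 : n = 0
  · rw [hn0, Nat.zero_mul]
    exact Nat.zero_le _
  have hnj : 2 * n + 2 ≤ j := by omega
  refine (sumlow_pairs (fun k => (vis T (c - s) (e k) (e (k + 1))).card + (vis T (c + s) (e k) (e (k + 1))).card)
    (2 ^ (s - 1)) n fun i hi => ?_).trans ?_
  · have a1 : e (2 * i + 1) < e (2 * i + 2) := hG.mono _ _ (by omega) (by omega)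
    have a2 : e (2 * i + 2) < e (2 * i + 3) := hG.mono _ _ (by omega) (by omega)
    have a3 : e (2 * i + 3) < e G := hG.mono _ _ (by omega) le_rfl
    have a4 : e 0 < e (2 * i + 1) := hG.mono _ _ (by omega) (by omega)
    have a5 := hG.span
    have h := triple hB hs hc hD hc1 hc2 a1 a2 (by linarith) (hev _ (by omega) (by omega))
      (hev _ (by omega) (by omega)) (hev _ (by omega) (by omega)) (hG.free (2 * i + 1) (by omega))
      (hG.free (2 * i + 2) (by omega))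
    refine h.trans (le_of_eq ?_)
    show _ = (vis T (c - s) (e (2 * i + 1)) (e (2 * i + 1 + 1))).card +
      (vis T (c + s) (e (2 * i + 1)) (e (2 * i + 1 + 1))).card +
      ((vis T (c - s) (e (2 * i + 2)) (e (2 * i + 2 + 1))).card +
      (vis T (c + s) (e (2 * i + 2)) (e (2 * i + 2 + 1))).card)
    rw [show 2 * i + 1 + 1 = 2 * i + 2 by ring, show 2 * i + 2 + 1 = 2 * i + 3 by ring]
    ring
  · refine Finset.sum_le_sum_of_subset ?_
    intro k hk
    rw [Finset.mem_Ico] at hk ⊢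
    omega

end Pool.Agent.MP_9673d9_co.Conv
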