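import Pool.Agent.MP_9673d9_co.Conv.UBound
import Pool.Agent.MP_9673d9_co.Conv.SumLow
import Pool.Agent.MP_9673d9_co.Conv.Few
import Pool.Agent.MP_9673d9_co.Conv.Generic

set_option autoImplicit false

open Finset

namespace Pool.Agent.MP_9673d9_co.Conv

open Pool.Agent.MP_9673d9_co.Rich

/-- Planar theorem: if `120 s (m + 1) < 2 ^ s` and no more than `2 ^ m` points of `T` are in convex position, then some line
through two points of `T` has imbalance at most `2 s + 1`.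
Proof: otherwise `hB`.  `card_ge`: `2 s + 4 ≤ T.card`, so `c = (T.card - 1) / 2` has `s < c`, `c + s < T.card`.
`exists_generic` `θ₀`, `exists_gaps`.  `4 ≤ G`: by `few` if the first event is LL; if it is RR apply `few` to `gaps_refl`,
`hB.refl`, `RR.refl` (`c' = T.card - 1 - c` satisfies the same inequalities).  Let `j = min G (2 ^ m)`, `4 ≤ j`.
`U_bound` with `i = 0`, `K = m`, `N = 2 ^ m`: if `j = G` then no point of `T` stays to the left (`full`), otherwise `j = 2 ^ m` and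
`hN`.  The same for `gaps_refl` and `c'`, with `vis_refl` (`c' - s = T.card - 1 - (c + s)`).  Together with `sum_lower`:
`(j - 2) / 2 * 2 ^ (s - 1) ≤ 2 (6 s - 4) j (m + 1)`, and `j ≤ 5 * ((j - 2) / 2)` for `j ≥ 4`, so `2 ^ (s - 1) ≤ 10 (6 s - 4) (m + 1)`,
contradicting `hnum`. -/
theorem planarA {T : Finset (ℝ × ℝ)} (hT : NC T) {s m : ℕ} (hs : 1 ≤ s) (hm : 2 ≤ m)
    (hnum : 120 * s * (m + 1) < 2 ^ s) (hB : Bad T 0 (2 * (s : ℤ) + 2))
    (hN : ∀ Z ⊆ T, Exposed Z → Z.card ≤ 2 ^ m) : False := by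
  have hn := card_ge hT hB
  obtain ⟨n, hnd⟩ : ∃ n, n = T.card := ⟨_, rfl⟩
  rw [← hnd] at hn
  obtain ⟨c, hcd⟩ : ∃ c, c = (n - 1) / 2 := ⟨_, rfl⟩
  have hsc : s < c := by omega
  have hc : c < n := by omega
  have hcs : c + s < n := by omega
  have hc1 : 2 * c ≤ n := by omega
  have hc2 : n ≤ 2 * c + 2 := by omega
  have hD : (4 : ℤ) ≤ 2 * (s : ℤ) + 2 := by omega
  have hcT : c < T.card := hnd ▸ hc
  have hcsT : c + s < T.card := hnd ▸ hcs
  have hc1T : 2 * c ≤ T.card := hnd ▸ hc1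
  have hc2T : T.card ≤ 2 * c + 2 := hnd ▸ hc2
  have hc'T : T.card - 1 - c < T.card := by omega
  have hc1'T : 2 * (T.card - 1 - c) ≤ T.card := by omega
  have hc2'T : T.card ≤ 2 * (T.card - 1 - c) + 2 := by omega
  have hsc' : s ≤ T.card - 1 - c := by omega
  obtain ⟨θ₀, hgen0⟩ := exists_generic T
  obtain ⟨e, G, hG2, hG, he0, heG, hev⟩ := exists_gaps hT hcT θ₀
  have hspan : e G = e 0 + Real.pi := by rw [heG, he0]
  have hgen : ∀ z ∈ T, ∀ w ∈ T, z ≠ w → ev (e 0) z ≠ ev (e 0) w := by rw [he0]; exact hgen0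
  have hGr := gaps_refl hcT hG
  have hspan' : (fun k => e k + Real.pi) G = (fun k => e k + Real.pi) 0 + Real.pi := by
    show e G + Real.pi = e 0 + Real.pi + Real.pi
    rw [hspan]
  have hgen' : ∀ z ∈ T, ∀ w ∈ T, z ≠ w →
      ev ((fun k => e k + Real.pi) 0) z ≠ ev ((fun k => e k + Real.pi) 0) w := by
    intro z hz w hw hzw h
    have h' : ev (e 0 + Real.pi) z = ev (e 0 + Real.pi) w := h
    rw [ev_add_pi, ev_add_pi] at h'
    exact hgen z hz w hw hzw (neg_injective h')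
  have hG4 : 4 ≤ G := by
    rcases LL_or_RR hB (hev 1 le_rfl (by omega)) with hL | hR
    · exact few hG hG2 hspan hgen hcT hc1T hc2T hD hL
    · have hR' := hR.refl
      rw [neg_zero] at hR'
      exact few hGr hG2 hspan' hgen' hc'T hc1'T hc2'T hD hR'
  obtain ⟨j, hjd⟩ : ∃ j, j = min G (2 ^ m) := ⟨_, rfl⟩
  have h4m : 4 ≤ 2 ^ m := by
    calc 4 = 2 ^ 2 := by norm_num
      _ ≤ 2 ^ m := Nat.pow_le_pow_right (by norm_num) hm
  have hj4 : 4 ≤ j := by rw [hjd]; exact le_min hG4 h4m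
  have hjG : j ≤ G := by rw [hjd]; exact min_le_left _ _
  have hj2 : j ≤ 2 ^ m := by rw [hjd]; exact min_le_right _ _
  have hjor : j = G ∨ j = 2 ^ m := by
    rw [hjd]
    rcases le_total G (2 ^ m) with h | h
    · exact Or.inl (min_eq_left h)
    · exact Or.inr (min_eq_right h)
  have h1 : ∑ k ∈ Finset.Ico 0 j, (vis T (c - s) (e k) (e (k + 1))).card ≤ (6 * s - 4) * (j - 0) * (m + 1) := by
    refine U_bound hG hs hsc.le hcT (Nat.zero_le _) hjG (by simpa using hj2) (N := 2 ^ m) ?_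
    rcases hjor with h | h
    · left
      rw [h]
      exact full hG (by omega) hspan hgen hcT hc1T
    · right
      exact ⟨by omega, hN⟩
  have h2 : ∑ k ∈ Finset.Ico 0 j, (vis T (c + s) (e k) (e (k + 1))).card ≤ (6 * s - 4) * (j - 0) * (m + 1) := by
    have h3 := U_bound hGr hs hsc' hc'T (i := 0) (j := j) (K := m) (N := 2 ^ m) (Nat.zero_le _) hjG
      (by simpa using hj2) (by
        rcases hjor with h | h
        · left
          rw [h]
          exact full hGr (by omega) hspan' hgen' hc'T hc1'T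
        · right
          exact ⟨by omega, hN⟩)
    refine le_trans (le_of_eq (Finset.sum_congr rfl fun k _ => ?_)) h3
    have e1 : T.card - 1 - c - s = T.card - 1 - (c + s) := by omega
    show _ = (vis T (T.card - 1 - c - s) (e k + Real.pi) (e (k + 1) + Real.pi)).card
    rw [e1, vis_refl hcsT]
  have h3 := sum_lower hB hs hcT le_rfl hc1T hc2T hG hev hjG
  obtain ⟨q, hqd⟩ : ∃ q, q = (j - 2) / 2 := ⟨_, rfl⟩
  rw [← hqd] at h3
  have hq1 : 1 ≤ q := by omega
  have hjq : j ≤ 5 * q := by omega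
  rw [Nat.sub_zero] at h1 h2
  obtain ⟨a, ha⟩ : ∃ a, a = 6 * s - 4 := ⟨_, rfl⟩
  rw [← ha] at h1 h2
  have h4 : q * 2 ^ (s - 1) ≤ q * (10 * (a * (m + 1))) := by
    calc q * 2 ^ (s - 1) ≤ a * j * (m + 1) + a * j * (m + 1) := h3.trans (Nat.add_le_add h1 h2)
      _ = 2 * (a * (m + 1)) * j := by ring
      _ ≤ 2 * (a * (m + 1)) * (5 * q) := Nat.mul_le_mul_left _ hjq
      _ = q * (10 * (a * (m + 1))) := by ring
  have h5 : 2 ^ (s - 1) ≤ 10 * (a * (m + 1)) := Nat.le_of_mul_le_mul_left h4 hq1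
  have h6 : 2 ^ s = 2 * 2 ^ (s - 1) := by
    obtain ⟨t, rfl⟩ : ∃ t, s = t + 1 := ⟨s - 1, by omega⟩
    rw [Nat.add_sub_cancel, pow_succ]
    ring
  have h7 : a * (m + 1) ≤ 6 * s * (m + 1) := Nat.mul_le_mul_right _ (by omega)
  have h8 : 120 * s * (m + 1) = 20 * (6 * s * (m + 1)) := by ring
  omega

end Pool.Agent.MP_9673d9_co.Conv
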