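import Pool.Agent.MP_9673d9_co.Conv.Pair

set_option autoImplicit false

open Finset

namespace Pool.Agent.MP_9673d9_co.Conv

open Pool.Agent.MP_9673d9_co.Rich

/-- As `planar_rich`, with points in convex position instead of rich lines.
Proof: `start`.  First alternative: `pair_vis` with this `i`, `j` (`f + 2 j ≤ 3 + 2 j < D`).  Second alternative: `pair_vis` for `-d`
(`Bad.refl`), the position `T.card - 1 - i` and the directions `θ + π`, `θ' + π` (`RR.refl`, `Ev.refl`), as in `planar_rich`. -/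
theorem planarB {T : Finset (ℝ × ℝ)} (hT : NC T) {d D : ℤ} (hB : Bad T d D) {j : ℕ}
    (hj : 2 * (j : ℤ) + 4 ≤ D) (hd : |d| ≤ (T.card : ℤ) - 1) :
    ∃ Z ⊆ T, 2 ^ j ≤ Z.card ∧ Exposed Z := by
  have hsub : ∀ (p : ℕ) (α β : ℝ), vis T p α β ⊆ T := fun p α β z hz => (mem_vis.1 hz).1
  rcases start hT hB (by omega) hd with ⟨i, hi, hf0, hf3, θ, θ', h1, h2, hL, hL', hno⟩ |
    ⟨i, hi, hf0, hf1, θ, θ', h1, h2, hR, hR', hno⟩
  · obtain ⟨V, hV, hc, hE⟩ := pair_vis hB j i h1 h2 hi hL hL' hno (by omega) (by omega)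
    exact ⟨V, hV.trans (hsub _ _ _), hc, hE⟩
  · have hc : ((T.card - 1 - i : ℕ) : ℤ) = (T.card : ℤ) - 1 - i := by omega
    have hno' : ∀ φ, θ + Real.pi < φ → φ < θ' + Real.pi → ¬ Ev T (T.card - 1 - i) φ := by
      intro φ hφ1 hφ2 hev
      refine hno (φ - Real.pi) (by linarith) (by linarith) (Ev.refl hi ?_)
      rw [sub_add_cancel]
      exact hev
    obtain ⟨V, hV, hc', hE⟩ := pair_vis hB.refl j (T.card - 1 - i)
      (show θ + Real.pi < θ' + Real.pi by linarith) (by linarith) (by omega) hR.refl hR'.refl hno'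
      (by rw [hc]; omega) (by rw [hc]; omega)
    exact ⟨V, hV.trans (hsub _ _ _), hc', hE⟩

end Pool.Agent.MP_9673d9_co.Conv
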