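import Mathlib

set_option autoImplicit false

open Finset

namespace Pool.Agent.MP_9673d9_co.Conv

/-- a functional that separates the points of `S`, and an independent one.
Proof: `Module.exists_dual_forall_apply_ne_zero` for the differences of different points of `S` and one more non-zero vector; for
`l2` take a functional that is not a multiple of `l1` (e.g. one of the coordinates). -/
theorem exists_proj (S : Finset (Fin 3 → ℝ)) : ∃ l1 l2 : (Fin 3 → ℝ) →ₗ[ℝ] ℝ,
    (∀ a b : ℝ, a • l1 + b • l2 = 0 → a = 0 ∧ b = 0) ∧ ∀ x ∈ S, ∀ y ∈ S, l1 x = l1 y → x = y := by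
  classical
  -- the vectors
  let ι := Option {p : (Fin 3 → ℝ) × (Fin 3 → ℝ) // p ∈ S ×ˢ S ∧ p.1 ≠ p.2}
  have hfin : Finite {p : (Fin 3 → ℝ) × (Fin 3 → ℝ) // p ∈ S ×ˢ S ∧ p.1 ≠ p.2} := by
    have h : ({p : (Fin 3 → ℝ) × (Fin 3 → ℝ) | p ∈ S ×ˢ S ∧ p.1 ≠ p.2}).Finite :=
      (S ×ˢ S).finite_toSet.subset fun p hp => hp.1
    exact h
  have : Finite ι := by
    dsimp only [ι]
    infer_instance
  let v : ι → (Fin 3 → ℝ) := fun o => match o with
    | none => Pi.single 0 1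
    | some p => p.1.1 - p.1.2
  have hv : ∀ i, v i ≠ 0 := by
    rintro (_ | p)
    · intro h
      have := congrFun h 0
      simp [v] at this
    · exact sub_ne_zero.2 p.2.2
  obtain ⟨l1, hl1⟩ : ∃ f : Module.Dual ℝ (Fin 3 → ℝ), ∀ i, f (v i) ≠ 0 :=
    Module.exists_dual_forall_apply_ne_zero v hv
  refine ⟨l1, LinearMap.proj 1, ?_, ?_⟩
  · intro a b hab
    have h0 : a * l1 (Pi.single 0 1) = 0 := by
      have := congrArg (fun l : (Fin 3 → ℝ) →ₗ[ℝ] ℝ => l (Pi.single 0 1)) hab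
      simpa using this
    have ha : a = 0 := (mul_eq_zero.1 h0).resolve_right (hl1 none)
    refine ⟨ha, ?_⟩
    have := congrArg (fun l : (Fin 3 → ℝ) →ₗ[ℝ] ℝ => l (Pi.single 1 1)) hab
    simpa [ha] using this
  · intro x hx y hy hxy
    by_contra hne
    refine hl1 (some ⟨(x, y), Finset.mk_mem_product hx hy, hne⟩) ?_
    change l1 (x - y) = 0
    rw [map_sub, hxy, sub_self]

/-- Proof: `120 * (2 * q + 12) < 4096 * 2 ^ q` by induction on `q`, and `m + 1 ≤ 2 ^ q`. -/
theorem num_ineq (m q : ℕ) (h : m + 1 ≤ 2 ^ q) : 120 * (2 * q + 12) * (m + 1) < 2 ^ (2 * q + 12) := by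
  have h1 : ∀ q : ℕ, 120 * (2 * q + 12) < 4096 * 2 ^ q := by
    intro q
    induction q with
    | zero => norm_num
    | succ n ih =>
      rw [pow_succ]
      have : 1 ≤ 2 ^ n := Nat.one_le_two_pow
      omega
  calc 120 * (2 * q + 12) * (m + 1) ≤ 120 * (2 * q + 12) * 2 ^ q := Nat.mul_le_mul_left _ h
    _ < 4096 * 2 ^ q * 2 ^ q := Nat.mul_lt_mul_of_pos_right (h1 q) (by positivity)
    _ = 2 ^ (2 * q + 12) := by
      rw [pow_add, two_mul, pow_add]
      norm_num
      ring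

end Pool.Agent.MP_9673d9_co.Conv
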