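import Pool.Agent.MP_9673d9_co.Conv.Defs

set_option autoImplicit false

open Finset

namespace Pool.Agent.MP_9673d9_co.Conv

open Pool.Agent.MP_9673d9_co.Rich

theorem Cov_refl {T : Finset (ℝ × ℝ)} {p : ℕ} (hp : p < T.card) {φ : ℝ} {z : ℝ × ℝ} :
    Cov T (T.card - 1 - p) (φ + Real.pi) z ↔ Cov T p φ z := by
  unfold Cov
  rw [below_add_pi, above_add_pi]
  refine and_congr_right fun _ => ?_
  omega

theorem Lab_refl {T : Finset (ℝ × ℝ)} {p : ℕ} (hp : p < T.card) {φ : ℝ} {z : ℝ × ℝ} :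
    Lab T (T.card - 1 - p) (φ + Real.pi) z ↔ Lab T p φ z := by
  unfold Lab
  rw [Cov_refl hp, same_add_pi]

theorem Ev_refl {T : Finset (ℝ × ℝ)} {p : ℕ} (hp : p < T.card) {φ : ℝ} :
    Ev T (T.card - 1 - p) (φ + Real.pi) ↔ Ev T p φ := by
  unfold Ev
  refine exists_congr fun y => ?_
  rw [Cov_refl hp, same_add_pi]

theorem vis_refl {T : Finset (ℝ × ℝ)} {p : ℕ} (hp : p < T.card) (α β : ℝ) :
    vis T (T.card - 1 - p) (α + Real.pi) (β + Real.pi) = vis T p α β := by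
  ext z
  rw [mem_vis, mem_vis]
  refine and_congr_right fun _ => ?_
  constructor
  · rintro ⟨φ, h1, h2, h3⟩
    refine ⟨φ - Real.pi, by linarith, by linarith, ?_⟩
    rw [← Lab_refl hp, sub_add_cancel]
    exact h3
  · rintro ⟨φ, h1, h2, h3⟩
    exact ⟨φ + Real.pi, by linarith, by linarith, (Lab_refl hp).2 h3⟩

theorem gaps_refl {T : Finset (ℝ × ℝ)} {c : ℕ} {e : ℕ → ℝ} {G : ℕ} (hc : c < T.card) (h : Gaps T c e G) :
    Gaps T (T.card - 1 - c) (fun k => e k + Real.pi) G := by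
  refine ⟨?_, ?_, ?_⟩
  · intro k l hkl hl
    have := h.mono k l hkl hl
    linarith
  · have := h.span
    linarith
  · intro k hk φ h1 h2 hev
    refine h.free k hk (φ - Real.pi) (by linarith) (by linarith) ?_
    rw [← Ev_refl hc, sub_add_cancel]
    exact hev

end Pool.Agent.MP_9673d9_co.Conv
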