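import Pool.Agent.MP_9673d9_co.Conv.SideB
import Pool.Agent.MP_9673d9_co.Conv.Comb

set_option autoImplicit false

open Finset

namespace Pool.Agent.MP_9673d9_co.Conv

open Pool.Agent.MP_9673d9_co.Rich

/-- Repeated visits.  `V`: points that are to the left of `c` in all gaps of `[i, j)`, are the label of `c - s` in the gap
`k`, and were the label of `c - s` already in an earlier gap `k' ∈ [i, k)`.
Proof: choose for `z ∈ V` a direction `t₁ z` in an earlier gap and `t₂ z` in the gap `k` with `Lab T (c - s) (t z) z`.  Apply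
`tourn` with `U z = upp T c (t₁ z) z ∪ upp T c (t₂ z) z`, `d = 2 * (s - 1)` (`upp_card` with `p = c - s`).
Totality: let `z ≠ w`, `w ∉ U z`, `z ∉ U w`.  As `w` stays to the left (`Stay`), `w ∉ upp T c (t₁ z) z` gives
`ev (t₁ z) w ≤ ev (t₁ z) z`, and equality is excluded by `same = 1` (`label_eq`), so `w` is strictly lower than `z` at `t₁ z`
and at `t₂ z`; in the same way `z` is strictly lower than `w` at `t₁ w` and at `t₂ w`.  `t₁ z ≠ t₁ w`; both are smaller than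
`t₂ z` and `t₂ w` (gaps, `Gaps.mono`).  If `t₁ z < t₁ w` use `no_three` at `t₁ z < t₁ w < t₂ z`, otherwise at
`t₁ w < t₁ z < t₂ w`.  (All directions are in `(e 0, e G)`, of length at most `π`.) -/
theorem rep_card {T : Finset (ℝ × ℝ)} {c s : ℕ} {e : ℕ → ℝ} {G : ℕ} (hG : Gaps T c e G) (hs : 1 ≤ s)
    (hsc : s ≤ c) (hc : c < T.card) {i j k : ℕ} (hik : i ≤ k) (hkj : k < j) (hj : j ≤ G)
    (V : Finset (ℝ × ℝ))
    (hV : ∀ z ∈ V, Stay T c e i j z ∧ z ∈ vis T (c - s) (e k) (e (k + 1)) ∧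
      ∃ k', i ≤ k' ∧ k' < k ∧ z ∈ vis T (c - s) (e k') (e (k' + 1))) :
    V.card ≤ 4 * s - 3 := by
  classical
  have hmono : ∀ a b : ℕ, a ≤ b → b ≤ G → e a ≤ e b := by
    intro a b hab hb
    rcases Nat.eq_or_lt_of_le hab with h | h
    · rw [h]
    · exact (hG.mono a b h hb).le
  have h2 : ∀ z : ℝ × ℝ, ∃ t : ℝ, z ∈ V → e k < t ∧ t < e (k + 1) ∧ Lab T (c - s) t z := by
    intro z
    by_cases hz : z ∈ V
    · obtain ⟨t, ht⟩ := (mem_vis.mp (hV z hz).2.1).2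
      exact ⟨t, fun _ => ht⟩
    · exact ⟨0, fun h => absurd h hz⟩
  have h1 : ∀ z : ℝ × ℝ, ∃ t : ℝ, z ∈ V → ∃ k', i ≤ k' ∧ k' < k ∧ e k' < t ∧ t < e (k' + 1) ∧
      Lab T (c - s) t z := by
    intro z
    by_cases hz : z ∈ V
    · obtain ⟨k', h3, h4, h5⟩ := (hV z hz).2.2
      obtain ⟨t, ht⟩ := (mem_vis.mp h5).2
      exact ⟨t, fun _ => ⟨k', h3, h4, ht⟩⟩
    · exact ⟨0, fun h => absurd h hz⟩
  choose t₂ ht₂ using h2
  choose t₁ ht₁ using h1
  -- bounds
  have hb2 : ∀ z ∈ V, e k < t₂ z ∧ t₂ z ≤ e 0 + Real.pi := by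
    intro z hz
    obtain ⟨h3, h4, -⟩ := ht₂ z hz
    refine ⟨h3, ?_⟩
    have h5 := hmono (k + 1) G (by omega) le_rfl
    linarith [hG.span]
  have hb1 : ∀ z ∈ V, e 0 < t₁ z ∧ t₁ z < e k := by
    intro z hz
    obtain ⟨k', h3, h4, h5, h6, -⟩ := ht₁ z hz
    have h7 := hmono 0 k' (Nat.zero_le _) (by omega)
    have h8 := hmono (k' + 1) k (by omega) (by omega)
    exact ⟨by linarith, by linarith⟩
  -- strictly lower
  have hlow : ∀ z ∈ V, ∀ w ∈ V, z ≠ w → w ∉ upp T c (t₁ z) z ∪ upp T c (t₂ z) z →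
      ev (t₁ z) w < ev (t₁ z) z ∧ ev (t₂ z) w < ev (t₂ z) z := by
    intro z hz w hw hzw hn
    have hwT : w ∈ T := (mem_vis.mp (hV w hw).2.1).1
    rw [Finset.mem_union, not_or] at hn
    obtain ⟨hn1, hn2⟩ := hn
    constructor
    · obtain ⟨k', h3, h4, h5, h6, h7⟩ := ht₁ z hz
      have hl : Lf T c (t₁ z) w := (hV w hw).1 k' h3 (by omega) _ h5 h6
      rcases lt_trichotomy (ev (t₁ z) w) (ev (t₁ z) z) with h | h | h
      · exact h
      · exact absurd (label_eq h7.2 h7.1.1 hwT h) (Ne.symm hzw)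
      · exact absurd (mem_upp.mpr ⟨hwT, h, hl⟩) hn1
    · obtain ⟨h5, h6, h7⟩ := ht₂ z hz
      have hl : Lf T c (t₂ z) w := (hV w hw).1 k hik hkj _ h5 h6
      rcases lt_trichotomy (ev (t₂ z) w) (ev (t₂ z) z) with h | h | h
      · exact h
      · exact absurd (label_eq h7.2 h7.1.1 hwT h) (Ne.symm hzw)
      · exact absurd (mem_upp.mpr ⟨hwT, h, hl⟩) hn2
  have hmain := tourn V (fun z => upp T c (t₁ z) z ∪ upp T c (t₂ z) z) (2 * (s - 1)) ?_ ?_
  · omega
  · intro z hz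
    obtain ⟨k', -, -, -, -, h7⟩ := ht₁ z hz
    obtain ⟨-, -, h8⟩ := ht₂ z hz
    have h9 := upp_card (c := c) (p := c - s) (by omega) hc h7
    have h10 := upp_card (c := c) (p := c - s) (by omega) hc h8
    have h11 := Finset.card_union_le (upp T c (t₁ z) z) (upp T c (t₂ z) z)
    show (upp T c (t₁ z) z ∪ upp T c (t₂ z) z).card ≤ 2 * (s - 1)
    omega
  · intro z hz w hw hzw
    by_contra hcon
    rw [not_or] at hcon
    obtain ⟨a1, a2⟩ := hlow z hz w hw hzw hcon.1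
    obtain ⟨b1, b2⟩ := hlow w hw z hz (Ne.symm hzw) hcon.2
    have hz1 := hb1 z hz
    have hz2 := hb2 z hz
    have hw1 := hb1 w hw
    have hw2 := hb2 w hw
    rcases lt_trichotomy (t₁ z) (t₁ w) with h | h | h
    · exact no_three h (hw1.2.trans hz2.1) (by linarith [hz1.1, hz2.2]) a1.le b1 a2
    · rw [h] at a1
      exact lt_asymm a1 b1
    · exact no_three h (hz1.2.trans hw2.1) (by linarith [hw1.1, hw2.2]) b1.le a1 b2

end Pool.Agent.MP_9673d9_co.Conv
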