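import Pool.Agent.MP_9673d9_co.Conv.Three

set_option autoImplicit false

open Finset

namespace Pool.Agent.MP_9673d9_co.Conv

open Pool.Agent.MP_9673d9_co.Rich

/-- Sample points: `E` events in `(α, β)` are separated by `E.card + 1` directions without event.
Proof: induction on `E` by removing the maximum (`Finset.induction_on_max`), for all `β`: if `E = insert φ E'` with `φ` larger than all elements of
`E'`, take `P'` for `E'` and `(α, φ)`, and add a direction in `(φ, β)` without event (events are finite in a half-turn: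
`events_finite`, so the infinite set `(φ, β)` contains a non-event). -/
theorem samples {T : Finset (ℝ × ℝ)} {p : ℕ} {α : ℝ} (E : Finset ℝ) : ∀ β : ℝ, α < β → β ≤ α + Real.pi →
    (∀ φ ∈ E, α < φ ∧ φ < β ∧ Ev T p φ) →
    ∃ P : Finset ℝ, P.card = E.card + 1 ∧ (∀ τ ∈ P, α < τ ∧ τ < β ∧ ¬ Ev T p τ) ∧
      ∀ τ ∈ P, ∀ τ' ∈ P, τ < τ' → ∃ φ, τ < φ ∧ φ < τ' ∧ Ev T p φ := by
  classical
  -- a direction without event in a nonempty open interval
  have hfree : ∀ a b : ℝ, α ≤ a → a < b → b ≤ α + Real.pi → ∃ τ, a < τ ∧ τ < b ∧ ¬ Ev T p τ := by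
    intro a b ha hab hb
    by_contra hcon
    push Not at hcon
    refine (Set.Ioo_infinite hab) ((events_finite T p α).subset ?_)
    intro φ hφ
    exact ⟨ha.trans_lt hφ.1, hφ.2.trans_le hb, hcon φ hφ.1 hφ.2⟩
  induction E using Finset.induction_on_max with
  | empty =>
    intro β hαβ hβ _
    obtain ⟨τ, h1, h2, h3⟩ := hfree α β le_rfl hαβ hβ
    refine ⟨{τ}, by simp, ?_, ?_⟩
    · intro τ' hτ'
      rw [Finset.mem_singleton] at hτ'
      rw [hτ']
      exact ⟨h1, h2, h3⟩
    · intro a ha b hb hab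
      rw [Finset.mem_singleton] at ha hb
      rw [ha, hb] at hab
      exact absurd hab (lt_irrefl _)
  | insert φ E' hmax ih =>
    intro β hαβ hβ hE
    have hφ := hE φ (Finset.mem_insert_self _ _)
    have hφn : φ ∉ E' := fun h => lt_irrefl _ (hmax φ h)
    obtain ⟨P', hP1, hP2, hP3⟩ := ih φ hφ.1 (hφ.2.1.le.trans hβ)
      (fun ψ hψ => ⟨(hE ψ (Finset.mem_insert_of_mem hψ)).1, hmax ψ hψ,
        (hE ψ (Finset.mem_insert_of_mem hψ)).2.2⟩)
    obtain ⟨τ, h1, h2, h3⟩ := hfree φ β hφ.1.le hφ.2.1 hβ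
    have hτn : τ ∉ P' := fun h => absurd (hP2 τ h).2.1 (not_lt.2 h1.le)
    refine ⟨insert τ P', ?_, ?_, ?_⟩
    · rw [Finset.card_insert_of_notMem hτn, Finset.card_insert_of_notMem hφn, hP1]
    · intro τ' hτ'
      rcases Finset.mem_insert.1 hτ' with rfl | h
      · exact ⟨hφ.1.trans h1, h2, h3⟩
      · exact ⟨(hP2 τ' h).1, (hP2 τ' h).2.1.trans hφ.2.1, (hP2 τ' h).2.2⟩
    · intro a ha b hb hab
      rcases Finset.mem_insert.1 ha with rfl | ha'
      · rcases Finset.mem_insert.1 hb with rfl | hb'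
        · exact absurd hab (lt_irrefl _)
        · exact absurd ((hP2 b hb').2.1.trans h1) (not_lt.2 hab.le)
      · rcases Finset.mem_insert.1 hb with rfl | hb'
        · exact ⟨φ, (hP2 a ha').2.1, h1, hφ.2.2⟩
        · exact hP3 a ha' b hb' hab

end Pool.Agent.MP_9673d9_co.Conv
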