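import Pool.Agent.MP_9673d9_co.Conv.Three

set_option autoImplicit false

open Finset

namespace Pool.Agent.MP_9673d9_co.Conv

open Pool.Agent.MP_9673d9_co.Rich

/-- the finitely many strict inequalities counted in `above T φ z` persist (see the proof of `cov_limit`) -/
theorem above_near (T : Finset (ℝ × ℝ)) (φ : ℝ) (z : ℝ × ℝ) :
    ∀ᶠ ψ in nhds φ, above T φ z ≤ above T ψ z := by
  have h1 : ∀ p ∈ T, ∀ᶠ ψ in nhds φ, (ev φ z < ev φ p → ev ψ z < ev ψ p) := by
    intro p _
    by_cases h2 : ev φ z < ev φ p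
    · filter_upwards [ev_near h2] with ψ hψ
      exact fun _ => hψ
    · exact Filter.Eventually.of_forall fun ψ h3 => absurd h3 h2
  have hall := (Filter.eventually_all_finset T).2 h1
  filter_upwards [hall] with ψ hψ
  unfold above
  refine Finset.card_le_card fun p hp => ?_
  rw [Finset.mem_filter] at hp ⊢
  exact ⟨hp.1, hψ p hp.1 hp.2⟩

theorem below_near (T : Finset (ℝ × ℝ)) (φ : ℝ) (z : ℝ × ℝ) :
    ∀ᶠ ψ in nhds φ, below T φ z ≤ below T ψ z := by
  have h1 : ∀ p ∈ T, ∀ᶠ ψ in nhds φ, (ev φ p < ev φ z → ev ψ p < ev ψ z) := by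
    intro p _
    by_cases h2 : ev φ p < ev φ z
    · filter_upwards [ev_near h2] with ψ hψ
      exact fun _ => hψ
    · exact Filter.Eventually.of_forall fun ψ h3 => absurd h3 h2
  have hall := (Filter.eventually_all_finset T).2 h1
  filter_upwards [hall] with ψ hψ
  unfold below
  refine Finset.card_le_card fun p hp => ?_
  rw [Finset.mem_filter] at hp ⊢
  exact ⟨hp.1, hψ p hp.1 hp.2⟩

/-- Proof: `→`: if `ev φ x ≤ ev φ z` then `above T φ z ≤ above T φ x` and `c + above T φ x < T.card`.
`←`: `below_add_same_le` and `count_add T φ z`. -/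
theorem Lf_iff {T : Finset (ℝ × ℝ)} {c : ℕ} {φ : ℝ} {x z : ℝ × ℝ} (hx : Cov T c φ x) (hz : z ∈ T) :
    Lf T c φ z ↔ ev φ z < ev φ x := by
  constructor
  · intro h
    by_contra hcon
    push Not at hcon
    have h1 : above T φ z ≤ above T φ x := by
      unfold above
      refine Finset.card_le_card fun p hp => ?_
      rw [Finset.mem_filter] at hp ⊢
      exact ⟨hp.1, lt_of_le_of_lt hcon hp.2⟩
    have h2 := hx.2.2
    unfold Lf at h
    omega
  · intro h
    have h1 := below_add_same_le (T := T) h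
    have h2 := count_add T φ z
    have h3 := hx.2.1
    unfold Lf
    omega

theorem Lab.lf {T : Finset (ℝ × ℝ)} {c p : ℕ} (hp : p < c) {φ : ℝ} {z : ℝ × ℝ} (h : Lab T p φ z) :
    Lf T c φ z := by
  obtain ⟨⟨h1, h2, h3⟩, h4⟩ := h
  have h5 := count_add T φ z
  unfold Lf
  omega

/-- Proof: let `x` with `Cov T c φ x`.  `upp T c φ z ⊆ {w ∈ T | ev φ z < ev φ w ∧ ev φ w < ev φ x}` (`Lf_iff`), and the
disjoint union of this set with `{w | ev φ w < ev φ z}` and `{w | ev φ w = ev φ z}` is contained in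
`{w | ev φ w < ev φ x}`, if it is non-empty (then `ev φ z < ev φ x`); so `card ≤ below T φ x - below T φ z - same T φ z ≤ c - p - 1`,
because `below T φ z = p` (from `Lab` and `count_add`), `same T φ z = 1`, `below T φ x ≤ c`. -/
theorem upp_card {T : Finset (ℝ × ℝ)} {c p : ℕ} (hp : p < c) (hc : c < T.card) {φ : ℝ} {z : ℝ × ℝ}
    (h : Lab T p φ z) : (upp T c φ z).card ≤ c - p - 1 := by
  classical
  obtain ⟨x, hx⟩ := exists_cov hc φ
  have hzT : z ∈ T := h.1.1
  have hzx : ev φ z < ev φ x := (Lf_iff hx hzT).1 (h.lf hp)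
  have hsub : (T.filter fun w => ev φ w < ev φ z) ∪ ((T.filter fun w => ev φ w = ev φ z) ∪ upp T c φ z) ⊆
      T.filter fun w => ev φ w < ev φ x := by
    intro w hw
    rw [Finset.mem_union, Finset.mem_union, Finset.mem_filter, Finset.mem_filter, mem_upp] at hw
    rw [Finset.mem_filter]
    rcases hw with hw | hw | hw
    · exact ⟨hw.1, hw.2.trans hzx⟩
    · exact ⟨hw.1, by rw [hw.2]; exact hzx⟩
    · exact ⟨hw.1, (Lf_iff hx hw.1).1 hw.2.2⟩
  have hcard := Finset.card_le_card hsub
  rw [Finset.card_union_of_disjoint, Finset.card_union_of_disjoint] at hcard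
  · have e1 : (T.filter fun w => ev φ w < ev φ z).card = below T φ z := rfl
    have e2 : (T.filter fun w => ev φ w = ev φ z).card = same T φ z := rfl
    have e3 : (T.filter fun w => ev φ w < ev φ x).card = below T φ x := rfl
    rw [e1, e2, e3] at hcard
    have h5 := count_add T φ z
    have h6 := h.1.2.1
    have h7 := h.1.2.2
    have h8 := h.2
    have h9 := hx.2.1
    omega
  · rw [Finset.disjoint_left]
    intro w hw hw'
    rw [Finset.mem_filter] at hw
    rw [mem_upp] at hw'
    exact absurd hw'.2.1 (by rw [hw.2]; exact lt_irrefl _)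
  · rw [Finset.disjoint_left]
    intro w hw hw'
    rw [Finset.mem_filter] at hw
    rw [Finset.mem_union, Finset.mem_filter, mem_upp] at hw'
    rcases hw' with hw' | hw'
    · exact absurd hw'.2 hw.2.ne
    · exact absurd hw'.2.1 (not_lt.2 hw.2.le)

end Pool.Agent.MP_9673d9_co.Conv
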