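import Pool.Agent.MP_9673d9_co.Conv.SideA

set_option autoImplicit false

open Finset

namespace Pool.Agent.MP_9673d9_co.Conv

open Pool.Agent.MP_9673d9_co.Rich

/-- `Lf` is constant on an interval without events at `c`.
Proof: `label` gives `x` with `Cov T c φ x`, `same T φ x = 1` on the interval; by `Lf_iff`, `Lf T c φ z ↔ ev φ z < ev φ x`
there.  `z ≠ x`, and `ev φ z ≠ ev φ x` on the interval (`label_eq`); if the sign of the continuous function
`ev φ z - ev φ x` changed, it would have a zero in between (`intermediate_value_uIcc` or `isPreconnected_Ioo`). -/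
theorem Lf_const {T : Finset (ℝ × ℝ)} {c : ℕ} (hc : c < T.card) {α β : ℝ} {z : ℝ × ℝ} (hz : z ∈ T)
    (hno : ∀ φ, α < φ → φ < β → ¬ Ev T c φ) {φ₀ : ℝ} (h1 : α < φ₀) (h2 : φ₀ < β) (h : Lf T c φ₀ z) :
    ∀ φ, α < φ → φ < β → Lf T c φ z := by
  obtain ⟨y, hy, -, -⟩ := label hc (h1.trans h2) hno
  have hlt : ev φ₀ z < ev φ₀ y := (Lf_iff (hy φ₀ h1 h2).1 hz).1 h
  intro φ h3 h4
  rw [Lf_iff (hy φ h3 h4).1 hz]
  by_contra hcon
  have hcont : ContinuousOn (fun ψ => ev ψ y - ev ψ z) (Set.uIcc φ₀ φ) :=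
    ((ev_continuous y).sub (ev_continuous z)).continuousOn
  have h0 : (0 : ℝ) ∈ Set.uIcc (ev φ₀ y - ev φ₀ z) (ev φ y - ev φ z) := by
    rw [Set.mem_uIcc]
    right
    constructor <;> linarith [not_lt.1 hcon]
  obtain ⟨ψ, hψ, h5⟩ := intermediate_value_uIcc hcont h0
  have h6 : α < ψ ∧ ψ < β := by
    rcases Set.mem_uIcc.1 hψ with h7 | h7
    · exact ⟨h1.trans_le h7.1, h7.2.trans_lt h4⟩
    · exact ⟨h3.trans_le h7.1, h7.2.trans_lt h2⟩
  have h7 := hy ψ h6.1 h6.2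
  have h8 : ev ψ y - ev ψ z = 0 := h5
  have h9 : z = y := label_eq h7.2 h7.1.1 hz (by linarith)
  rw [h9] at hlt
  exact lt_irrefl _ hlt

/-- a point strictly to the left of the class at `e` is to the left near `e` -/
theorem SideB_lf_near {T : Finset (ℝ × ℝ)} {c : ℕ} {e : ℝ} {x z : ℝ × ℝ} (hx : Cov T c e x)
    (hz : z ∈ T) (h : ev e z < ev e x) : ∀ᶠ ψ in nhds e, Lf T c ψ z := by
  have h1 : T.card ≤ c + above T e z := (Lf_iff hx hz).2 h
  filter_upwards [above_near T e z] with ψ hψ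
  show T.card ≤ c + above T ψ z
  omega

/-- a point strictly to the right of the class at `e` is not to the left near `e` -/
theorem SideB_not_near {T : Finset (ℝ × ℝ)} {c : ℕ} {e : ℝ} {x z : ℝ × ℝ} (hx : Cov T c e x)
    (h : ev e x < ev e z) : ∀ᶠ ψ in nhds e, ¬ Lf T c ψ z := by
  have h1 := below_add_same_le (T := T) h
  have h2 := count_add T e x
  have h3 := hx.2.2
  filter_upwards [below_near T e z] with ψ hψ
  intro h4
  have h5 : T.card ≤ c + above T ψ z := h4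
  have h6 := count_add T ψ z
  omega

/-- A point that is to the left before `e` and not to the left after `e` is in the class covering `c` at `e`.
Proof: let `x` with `Cov T c e x` (`exists_cov`).  If `ev e z < ev e x`: `Lf T c e z`, and by `above_near` `Lf T c ψ z` for
all `ψ` near `e`, in particular for some `ψ ∈ (e, β)`; by `Lf_const` on `(e, β)` for all, contradiction.  If
`ev e x < ev e z`: `c < below T e z` (`below_add_same_le`, `count_add`), by `below_near` `c < below T ψ z` near `e`, so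
`¬ Lf T c ψ z` (as `below + above < card`: `count_add`, `same_pos`) for some `ψ ∈ (α, e)`; but by `Lf_const` `Lf T c ψ z` for
all `ψ ∈ (α, e)`, contradiction.  So equality, and `Cov.congr`. -/
theorem cross {T : Finset (ℝ × ℝ)} {c : ℕ} (hc : c < T.card) {α e β : ℝ} {z : ℝ × ℝ} (hz : z ∈ T)
    (hno1 : ∀ φ, α < φ → φ < e → ¬ Ev T c φ) (hno2 : ∀ φ, e < φ → φ < β → ¬ Ev T c φ)
    (hl : ∃ φ, α < φ ∧ φ < e ∧ Lf T c φ z) (hr : ∃ φ, e < φ ∧ φ < β ∧ ¬ Lf T c φ z) : Cov T c e z := by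
  obtain ⟨x, hx⟩ := exists_cov hc e
  obtain ⟨φ₁, hl1, hl2, hl3⟩ := hl
  obtain ⟨φ₂, hr1, hr2, hr3⟩ := hr
  rcases lt_trichotomy (ev e z) (ev e x) with h | h | h
  · exfalso
    have h1 : ∀ᶠ ψ in nhdsWithin e (Set.Ioi e), Lf T c ψ z :=
      (SideB_lf_near hx hz h).filter_mono nhdsWithin_le_nhds
    obtain ⟨ψ, hψ1, hψ2⟩ := (h1.and (Ioo_mem_nhdsGT (hr1.trans hr2))).exists
    exact hr3 (Lf_const hc hz hno2 hψ2.1 hψ2.2 hψ1 φ₂ hr1 hr2)
  · exact hx.congr hz h.symm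
  · exfalso
    have h1 : ∀ᶠ ψ in nhdsWithin e (Set.Iio e), ¬ Lf T c ψ z :=
      (SideB_not_near hx h).filter_mono nhdsWithin_le_nhds
    obtain ⟨ψ, hψ1, hψ2⟩ := (h1.and (Ioo_mem_nhdsLT (hl1.trans hl2))).exists
    exact hψ1 (Lf_const hc hz hno1 hl1 hl2 hl3 ψ hψ2.1 hψ2.2)

/-- the same in the other direction of time -/
theorem cross' {T : Finset (ℝ × ℝ)} {c : ℕ} (hc : c < T.card) {α e β : ℝ} {z : ℝ × ℝ} (hz : z ∈ T)
    (hno1 : ∀ φ, α < φ → φ < e → ¬ Ev T c φ) (hno2 : ∀ φ, e < φ → φ < β → ¬ Ev T c φ)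
    (hl : ∃ φ, α < φ ∧ φ < e ∧ ¬ Lf T c φ z) (hr : ∃ φ, e < φ ∧ φ < β ∧ Lf T c φ z) : Cov T c e z := by
  obtain ⟨x, hx⟩ := exists_cov hc e
  obtain ⟨φ₁, hl1, hl2, hl3⟩ := hl
  obtain ⟨φ₂, hr1, hr2, hr3⟩ := hr
  rcases lt_trichotomy (ev e z) (ev e x) with h | h | h
  · exfalso
    have h1 : ∀ᶠ ψ in nhdsWithin e (Set.Iio e), Lf T c ψ z :=
      (SideB_lf_near hx hz h).filter_mono nhdsWithin_le_nhds
    obtain ⟨ψ, hψ1, hψ2⟩ := (h1.and (Ioo_mem_nhdsLT (hl1.trans hl2))).exists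
    exact hl3 (Lf_const hc hz hno1 hψ2.1 hψ2.2 hψ1 φ₁ hl1 hl2)
  · exact hx.congr hz h.symm
  · exfalso
    have h1 : ∀ᶠ ψ in nhdsWithin e (Set.Ioi e), ¬ Lf T c ψ z :=
      (SideB_not_near hx h).filter_mono nhdsWithin_le_nhds
    obtain ⟨ψ, hψ1, hψ2⟩ := (h1.and (Ioo_mem_nhdsGT (hr1.trans hr2))).exists
    exact hψ1 (Lf_const hc hz hno2 hr1 hr2 hr3 ψ hψ2.1 hψ2.2)

end Pool.Agent.MP_9673d9_co.Conv
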