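import Pool.Agent.MP_9673d9_co.Conv.SideB
import Pool.Agent.MP_9673d9_co.Conv.Comb

set_option autoImplicit false

open Finset

namespace Pool.Agent.MP_9673d9_co.Conv

open Pool.Agent.MP_9673d9_co.Rich

/-- The number of points that stay to the left in `[i, j)` and visit `c - s` there, if exposed subsets of `T` have at most
`N` points.
Proof: let `X` be this set; for `z ∈ X` choose `t z` with `Lab T (c - s) (t z) z` in a gap of `[i, j)`.  `indep` with
`U z = upp T c (t z) z`, `d = s - 1` gives `I ⊆ X` with `X.card ≤ (2 * (s - 1) + 1) * I.card`; `I` is exposed: for `z ∈ I` take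
`φ = t z`; for `w ∈ I`, `w ≠ z`: `w` is to the left at `t z`, `w ∉ upp T c (t z) z`, so `ev w ≤ ev z`, and `same = 1` excludes
equality. -/
theorem stay_card {T : Finset (ℝ × ℝ)} {c s : ℕ} {e : ℕ → ℝ} {G : ℕ} (hG : Gaps T c e G) (hs : 1 ≤ s)
    (hsc : s ≤ c) (hc : c < T.card) {i j : ℕ} (hj : j ≤ G) {N : ℕ}
    (hN : ∀ Z ⊆ T, Exposed Z → Z.card ≤ N) :
    (flt T fun z => Stay T c e i j z ∧
      ∃ k, i ≤ k ∧ k < j ∧ z ∈ vis T (c - s) (e k) (e (k + 1))).card ≤ (2 * s - 1) * N := by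
  classical
  set X := flt T fun z => Stay T c e i j z ∧
      ∃ k, i ≤ k ∧ k < j ∧ z ∈ vis T (c - s) (e k) (e (k + 1)) with hX
  have hex : ∀ z : ℝ × ℝ, ∃ (t : ℝ) (k : ℕ), z ∈ X → i ≤ k ∧ k < j ∧ e k < t ∧ t < e (k + 1) ∧
      Lab T (c - s) t z := by
    intro z
    by_cases hz : z ∈ X
    · obtain ⟨_, _, k, h1, h2, h3⟩ := mem_flt.1 hz
      obtain ⟨_, t, h4, h5, h6⟩ := mem_vis.1 h3
      exact ⟨t, k, fun _ => ⟨h1, h2, h4, h5, h6⟩⟩
    · exact ⟨0, 0, fun h => absurd h hz⟩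
  choose t κ ht using hex
  have hU : ∀ z ∈ X, (upp T c (t z) z).card ≤ s - 1 := by
    intro z hz
    have h1 := upp_card (p := c - s) (by omega) hc (ht z hz).2.2.2.2
    omega
  obtain ⟨I, hI, hIc, hind⟩ := indep X (fun z => upp T c (t z) z) (s - 1) hU
  have hIT : I ⊆ T := fun z hz => (mem_flt.1 (hI hz)).1
  have hexp : Exposed I := by
    intro z hz
    refine ⟨t z, fun w hw hne => ?_⟩
    obtain ⟨h1, h2, h3, h4, h5⟩ := ht z (hI hz)
    have hwT := hIT hw
    have hlf : Lf T c (t z) w := (mem_flt.1 (hI hw)).2.1 (κ z) h1 h2 (t z) h3 h4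
    have hnot := hind z hz w hw (fun h => hne h.symm)
    have hle : ev (t z) w ≤ ev (t z) z := by
      by_contra hcon
      exact hnot (mem_upp.2 ⟨hwT, not_le.1 hcon, hlf⟩)
    refine lt_of_le_of_ne hle fun heq => ?_
    exact hne (label_eq h5.2 (hIT hz) hwT heq)
  have hIN := hN I hIT hexp
  refine hIc.trans ?_
  have e1 : 2 * (s - 1) + 1 = 2 * s - 1 := by omega
  rw [e1]
  exact Nat.mul_le_mul_left _ hIN

end Pool.Agent.MP_9673d9_co.Conv
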