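import Pool.Agent.MP_9673d9_co.Conv.Rep

set_option autoImplicit false

open Finset

namespace Pool.Agent.MP_9673d9_co.Conv

open Pool.Agent.MP_9673d9_co.Rich

/-- All visits of the points satisfying `P`, if these points stay to the left in `[i, j)`: every gap has at most
`4 * s - 3` repeated visits (`rep_card`), and the first visits are visits of different points.
Proof: split the sum over `k` into the repeated visits
`flt (vis ..) (fun z => P z ∧ ∃ k', i ≤ k' ∧ k' < k ∧ z ∈ vis ..)` and the first visits; the sets of first visits are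
pairwise disjoint subsets of the last set (`Finset.card_biUnion`). -/
theorem sum_stay {T : Finset (ℝ × ℝ)} {c s : ℕ} {e : ℕ → ℝ} {G : ℕ} (hG : Gaps T c e G) (hs : 1 ≤ s)
    (hsc : s ≤ c) (hc : c < T.card) {i j : ℕ} (hij : i ≤ j) (hj : j ≤ G) (P : ℝ × ℝ → Prop)
    (hP : ∀ z ∈ T, P z → Stay T c e i j z) :
    ∑ k ∈ Finset.Ico i j, (flt (vis T (c - s) (e k) (e (k + 1))) P).card ≤
      (4 * s - 3) * (j - i) +
        (flt T fun z => P z ∧ ∃ k, i ≤ k ∧ k < j ∧ z ∈ vis T (c - s) (e k) (e (k + 1))).card := by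
  classical
  set V : ℕ → Finset (ℝ × ℝ) := fun k => vis T (c - s) (e k) (e (k + 1)) with hV
  set R : ℕ → Finset (ℝ × ℝ) := fun k => (V k).filter fun z => P z ∧ ∃ k', i ≤ k' ∧ k' < k ∧ z ∈ V k' with hR
  set F : ℕ → Finset (ℝ × ℝ) := fun k => (V k).filter fun z => P z ∧ ¬ ∃ k', i ≤ k' ∧ k' < k ∧ z ∈ V k' with hF
  have h1 : ∀ k, (flt (V k) P).card ≤ (R k).card + (F k).card := by
    intro k
    refine le_trans (Finset.card_le_card ?_) (Finset.card_union_le _ _)
    intro z hz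
    rw [mem_flt] at hz
    rw [Finset.mem_union]
    by_cases h : ∃ k', i ≤ k' ∧ k' < k ∧ z ∈ V k'
    · exact Or.inl (Finset.mem_filter.mpr ⟨hz.1, hz.2, h⟩)
    · exact Or.inr (Finset.mem_filter.mpr ⟨hz.1, hz.2, h⟩)
  have h2 : ∀ k ∈ Finset.Ico i j, (R k).card ≤ 4 * s - 3 := by
    intro k hk
    rw [Finset.mem_Ico] at hk
    refine rep_card hG hs hsc hc hk.1 hk.2 hj (R k) ?_
    intro z hz
    obtain ⟨h3, h4, h5⟩ := Finset.mem_filter.mp hz
    exact ⟨hP z (mem_vis.mp h3).1 h4, h3, h5⟩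
  have h3 : ∑ k ∈ Finset.Ico i j, (F k).card = ((Finset.Ico i j).biUnion F).card := by
    symm
    apply Finset.card_biUnion
    intro k hk l hl hkl
    rw [Function.onFun, Finset.disjoint_left]
    intro z hz hz'
    obtain ⟨h4, h5, h6⟩ := Finset.mem_filter.mp hz
    obtain ⟨h7, h8, h9⟩ := Finset.mem_filter.mp hz'
    have hk1 := Finset.mem_Ico.mp hk
    have hl1 := Finset.mem_Ico.mp hl
    rcases lt_or_gt_of_ne hkl with h | h
    · exact h9 ⟨k, hk1.1, h, h4⟩
    · exact h6 ⟨l, hl1.1, h, h7⟩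
  have h4 : ((Finset.Ico i j).biUnion F).card ≤
      (flt T fun z => P z ∧ ∃ k, i ≤ k ∧ k < j ∧ z ∈ V k).card := by
    apply Finset.card_le_card
    intro z hz
    obtain ⟨k, hk, h5⟩ := Finset.mem_biUnion.mp hz
    obtain ⟨h6, h7, h8⟩ := Finset.mem_filter.mp h5
    have hk1 := Finset.mem_Ico.mp hk
    rw [mem_flt]
    exact ⟨(mem_vis.mp h6).1, h7, k, hk1.1, hk1.2, h6⟩
  calc ∑ k ∈ Finset.Ico i j, (flt (V k) P).card
      ≤ ∑ k ∈ Finset.Ico i j, ((R k).card + (F k).card) := Finset.sum_le_sum fun k _ => h1 k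
    _ = ∑ k ∈ Finset.Ico i j, (R k).card + ∑ k ∈ Finset.Ico i j, (F k).card := Finset.sum_add_distrib
    _ ≤ ∑ k ∈ Finset.Ico i j, (4 * s - 3) + ((Finset.Ico i j).biUnion F).card := by
        rw [h3]
        exact Nat.add_le_add_right (Finset.sum_le_sum h2) _
    _ = (4 * s - 3) * (j - i) + ((Finset.Ico i j).biUnion F).card := by
        rw [Finset.sum_const, Nat.card_Ico, smul_eq_mul, mul_comm]
    _ ≤ _ := Nat.add_le_add_left h4 _

end Pool.Agent.MP_9673d9_co.Conv
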