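import Pool.Agent.MP_9673d9_co.Conv.Defs

set_option autoImplicit false

open Finset

namespace Pool.Agent.MP_9673d9_co.Conv

open Pool.Agent.MP_9673d9_co.Rich

/-- three directions.  Proof: unfold `ev`, `Real.sin_sub`, `ring`-like with `sin² + cos² = 1` for `φ2`. -/
theorem ev_three (φ1 φ2 φ3 : ℝ) (p : ℝ × ℝ) :
    ev φ2 p * Real.sin (φ3 - φ1) = ev φ1 p * Real.sin (φ3 - φ2) + ev φ3 p * Real.sin (φ2 - φ1) := by
  unfold ev
  rw [Real.sin_sub, Real.sin_sub, Real.sin_sub]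
  ring

/-- rotation by `ψ - φ` -/
theorem ev_rot (φ ψ : ℝ) (p : ℝ × ℝ) :
    ev ψ p = Real.cos (ψ - φ) * ev φ p + Real.sin (ψ - φ) * ev (φ + Real.pi / 2) p := by
  have h1 : Real.cos ψ = Real.cos (ψ - φ) * Real.cos φ - Real.sin (ψ - φ) * Real.sin φ := by
    rw [← Real.cos_add, sub_add_cancel]
  have h2 : Real.sin ψ = Real.sin (ψ - φ) * Real.cos φ + Real.cos (ψ - φ) * Real.sin φ := by
    rw [← Real.sin_add, sub_add_cancel]
  unfold ev
  rw [Real.cos_add_pi_div_two, Real.sin_add_pi_div_two, h1, h2]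
  ring

/-- in a half-turn the order of two points changes at most once.
Proof: with `g φ = ev φ w - ev φ z`, `ev_three` gives
`g φ2 * sin (φ3 - φ1) = g φ1 * sin (φ3 - φ2) + g φ3 * sin (φ2 - φ1)`; the left side is `≤ 0`, the right side `> 0`. -/
theorem no_three {φ1 φ2 φ3 : ℝ} (h12 : φ1 < φ2) (h23 : φ2 < φ3) (h : φ3 ≤ φ1 + Real.pi) {z w : ℝ × ℝ}
    (a1 : ev φ1 z ≤ ev φ1 w) (a2 : ev φ2 w < ev φ2 z) (a3 : ev φ3 z < ev φ3 w) : False := by
  have hw := ev_three φ1 φ2 φ3 w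
  have hz := ev_three φ1 φ2 φ3 z
  have s1 : 0 ≤ Real.sin (φ3 - φ1) := Real.sin_nonneg_of_nonneg_of_le_pi (by linarith) (by linarith)
  have s2 : 0 < Real.sin (φ3 - φ2) := Real.sin_pos_of_pos_of_lt_pi (by linarith) (by linarith)
  have s3 : 0 < Real.sin (φ2 - φ1) := Real.sin_pos_of_pos_of_lt_pi (by linarith) (by linarith)
  have e1 : 0 ≤ (ev φ2 z - ev φ2 w) * Real.sin (φ3 - φ1) := mul_nonneg (by linarith) s1
  have e2 : 0 ≤ (ev φ1 w - ev φ1 z) * Real.sin (φ3 - φ2) := mul_nonneg (by linarith) s2.le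
  have e3 : 0 < (ev φ3 w - ev φ3 z) * Real.sin (φ2 - φ1) := mul_pos (by linarith) s3
  nlinarith

/-- the same with the other inequality weak -/
theorem no_three' {φ1 φ2 φ3 : ℝ} (h12 : φ1 < φ2) (h23 : φ2 < φ3) (h : φ3 ≤ φ1 + Real.pi) {z w : ℝ × ℝ}
    (a1 : ev φ1 z < ev φ1 w) (a2 : ev φ2 w < ev φ2 z) (a3 : ev φ3 z ≤ ev φ3 w) : False := by
  have hw := ev_three φ1 φ2 φ3 w
  have hz := ev_three φ1 φ2 φ3 z
  have s1 : 0 ≤ Real.sin (φ3 - φ1) := Real.sin_nonneg_of_nonneg_of_le_pi (by linarith) (by linarith)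
  have s2 : 0 < Real.sin (φ3 - φ2) := Real.sin_pos_of_pos_of_lt_pi (by linarith) (by linarith)
  have s3 : 0 < Real.sin (φ2 - φ1) := Real.sin_pos_of_pos_of_lt_pi (by linarith) (by linarith)
  have e1 : 0 ≤ (ev φ2 z - ev φ2 w) * Real.sin (φ3 - φ1) := mul_nonneg (by linarith) s1
  have e2 : 0 < (ev φ1 w - ev φ1 z) * Real.sin (φ3 - φ2) := mul_pos (by linarith) s2
  have e3 : 0 ≤ (ev φ3 w - ev φ3 z) * Real.sin (φ2 - φ1) := mul_nonneg (by linarith) s3.le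
  nlinarith

end Pool.Agent.MP_9673d9_co.Conv
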