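import Pool.Agent.MP_9673d9_co.Conv.TripleVis
import Pool.Agent.MP_9673d9_co.Conv.Refl

set_option autoImplicit false

open Finset

namespace Pool.Agent.MP_9673d9_co.Conv

open Pool.Agent.MP_9673d9_co.Rich

/-- reflection of a left event -/
theorem Triple_LL_refl {T : Finset (ℝ × ℝ)} {d D : ℤ} {i : ℕ} {φ : ℝ} (h : LL T d D i φ) :
    RR T (-d) D (T.card - 1 - i) (φ + Real.pi) := by
  obtain ⟨y, h1, h2, h3⟩ := h
  obtain ⟨h0, h4, h5⟩ := h1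
  refine ⟨y, ⟨h0, ?_, ?_⟩, by rwa [same_add_pi], ?_⟩
  · rw [below_add_pi]
    omega
  · rw [above_add_pi]
    omega
  · rw [above_add_pi, below_add_pi]
    omega

/-- the left half of the statement -/
theorem Triple_left {T : Finset (ℝ × ℝ)} {d D : ℤ} (hB : Bad T d D) {c s : ℕ} (hs : 1 ≤ s)
    (hc : c < T.card) (hw1 : d + (T.card : ℤ) - 1 - 2 * (c : ℤ) + 2 * (s : ℤ) < D)
    (hw2 : -D < d + (T.card : ℤ) - 1 - 2 * (c : ℤ)) {θ₀ θ₁ θ₂ : ℝ}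
    (h01 : θ₀ < θ₁) (h12 : θ₁ < θ₂) (h02 : θ₂ < θ₀ + Real.pi)
    (hk : (LL T d D c θ₀ ∧ LL T d D c θ₁) ∨ (LL T d D c θ₁ ∧ LL T d D c θ₂) ∨
      (LL T d D c θ₀ ∧ RR T d D c θ₁ ∧ LL T d D c θ₂))
    (hno1 : ∀ φ, θ₀ < φ → φ < θ₁ → ¬ Ev T c φ)
    (hno2 : ∀ φ, θ₁ < φ → φ < θ₂ → ¬ Ev T c φ) :
    2 ^ (s - 1) ≤ (vis T (c - s) θ₀ θ₁).card + (vis T (c - s) θ₁ θ₂).card := by
  have hpow : 2 ^ (s - 1) ≤ 2 ^ s := Nat.pow_le_pow_right (by norm_num) (by omega)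
  rcases hk with ⟨hL0, hL1⟩ | ⟨hL1, hL2⟩ | ⟨hL0, hR1, hL2⟩
  · obtain ⟨V, hV, hV2, -⟩ := pair_vis hB s c h01 (by linarith) hc hL0 hL1 hno1 hw1 hw2
    have := Finset.card_le_card hV
    omega
  · obtain ⟨V, hV, hV2, -⟩ := pair_vis hB s c h12 (by linarith) hc hL1 hL2 hno2 hw1 hw2
    have := Finset.card_le_card hV
    omega
  · have hpos := hL0.pos (by omega)
    obtain ⟨i, rfl⟩ : ∃ i, c = i + 1 := ⟨c - 1, by omega⟩
    obtain ⟨t, rfl⟩ : ∃ t, s = t + 1 := ⟨s - 1, by omega⟩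
    push_cast at hw1 hw2
    have h := triple_vis hB t i h01 h12 h02 hc hL0 hR1 hL2 hno1 hno2 (by omega) (by omega)
    have e1 : i + 1 - (t + 1) = i - t := by omega
    have e2 : t + 1 - 1 = t := by omega
    rw [e1, e2]
    exact h

/-- Three consecutive events at the middle position `c` have at least `2 ^ (s - 1)` visits of `c - s` or `c + s` between them.
Proof: kinds by `LL_or_RR`.  LL, LL (first two or last two): `pair_vis` with `i = c`, `j = s` (`2 ^ s ≥ 2 ^ (s - 1)`).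
LL, RR, LL: `c = i + 1` (`LL.pos`), `triple_vis` with `j = s - 1` (`i - j = c - s`).  RR, RR and RR, LL, RR: apply the same to
the reflection: `hB.refl` (`-0 = 0`), position `T.card - 1 - c`, directions `θ + π`, `RR.refl` and (for the LL in the middle) the
analogous statement, events by `Ev_refl`; `T.card - 1 - c - s = T.card - 1 - (c + s)`, and `vis_refl` with `p = c + s`
(`c + s < T.card`, because the class of an RR event at `c` covers `c + s`, by the window inequalities). -/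
theorem triple {T : Finset (ℝ × ℝ)} {D : ℤ} (hB : Bad T 0 D) {c s : ℕ} (hs : 1 ≤ s) (hc : c < T.card)
    (hD : 2 * (s : ℤ) + 2 ≤ D) (hc1 : 2 * c ≤ T.card) (hc2 : T.card ≤ 2 * c + 2) {θ₀ θ₁ θ₂ : ℝ}
    (h01 : θ₀ < θ₁) (h12 : θ₁ < θ₂) (h02 : θ₂ < θ₀ + Real.pi) (e0 : Ev T c θ₀) (e1 : Ev T c θ₁)
    (e2 : Ev T c θ₂) (hno1 : ∀ φ, θ₀ < φ → φ < θ₁ → ¬ Ev T c φ)
    (hno2 : ∀ φ, θ₁ < φ → φ < θ₂ → ¬ Ev T c φ) :
    2 ^ (s - 1) ≤ ((vis T (c - s) θ₀ θ₁).card + (vis T (c - s) θ₁ θ₂).card) +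
      ((vis T (c + s) θ₀ θ₁).card + (vis T (c + s) θ₁ θ₂).card) := by
  have hleft : ((LL T 0 D c θ₀ ∧ LL T 0 D c θ₁) ∨ (LL T 0 D c θ₁ ∧ LL T 0 D c θ₂) ∨
      (LL T 0 D c θ₀ ∧ RR T 0 D c θ₁ ∧ LL T 0 D c θ₂)) →
      2 ^ (s - 1) ≤ ((vis T (c - s) θ₀ θ₁).card + (vis T (c - s) θ₁ θ₂).card) +
      ((vis T (c + s) θ₀ θ₁).card + (vis T (c + s) θ₁ θ₂).card) := by
    intro hk
    have := Triple_left hB hs hc (by omega) (by omega) h01 h12 h02 hk hno1 hno2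
    omega
  have hcs : ∀ θ, RR T 0 D c θ → c + s < T.card := by
    intro θ h
    obtain ⟨y, h1, h2, h3⟩ := h
    obtain ⟨h0, h4, h5⟩ := h1
    omega
  have hright : c + s < T.card → ((RR T 0 D c θ₀ ∧ RR T 0 D c θ₁) ∨ (RR T 0 D c θ₁ ∧ RR T 0 D c θ₂) ∨
      (RR T 0 D c θ₀ ∧ LL T 0 D c θ₁ ∧ RR T 0 D c θ₂)) →
      2 ^ (s - 1) ≤ ((vis T (c - s) θ₀ θ₁).card + (vis T (c - s) θ₁ θ₂).card) +
      ((vis T (c + s) θ₀ θ₁).card + (vis T (c + s) θ₁ θ₂).card) := by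
    intro hlt hk
    have hB' := hB.refl
    have hk' : ((LL T (-0) D (T.card - 1 - c) (θ₀ + Real.pi) ∧
        LL T (-0) D (T.card - 1 - c) (θ₁ + Real.pi)) ∨
      (LL T (-0) D (T.card - 1 - c) (θ₁ + Real.pi) ∧ LL T (-0) D (T.card - 1 - c) (θ₂ + Real.pi)) ∨
      (LL T (-0) D (T.card - 1 - c) (θ₀ + Real.pi) ∧ RR T (-0) D (T.card - 1 - c) (θ₁ + Real.pi) ∧
        LL T (-0) D (T.card - 1 - c) (θ₂ + Real.pi))) := by
      rcases hk with ⟨a, b⟩ | ⟨a, b⟩ | ⟨a, b, d⟩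
      · exact Or.inl ⟨a.refl, b.refl⟩
      · exact Or.inr (Or.inl ⟨a.refl, b.refl⟩)
      · exact Or.inr (Or.inr ⟨a.refl, Triple_LL_refl b, d.refl⟩)
    have hn1 : ∀ φ, θ₀ + Real.pi < φ → φ < θ₁ + Real.pi → ¬ Ev T (T.card - 1 - c) φ := by
      intro φ p1 p2 p3
      have e : φ = (φ - Real.pi) + Real.pi := by ring
      rw [e, Ev_refl hc] at p3
      exact hno1 _ (by linarith) (by linarith) p3
    have hn2 : ∀ φ, θ₁ + Real.pi < φ → φ < θ₂ + Real.pi → ¬ Ev T (T.card - 1 - c) φ := by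
      intro φ p1 p2 p3
      have e : φ = (φ - Real.pi) + Real.pi := by ring
      rw [e, Ev_refl hc] at p3
      exact hno2 _ (by linarith) (by linarith) p3
    have h := Triple_left hB' hs (show T.card - 1 - c < T.card by omega) (by omega) (by omega)
      (show θ₀ + Real.pi < θ₁ + Real.pi by linarith) (show θ₁ + Real.pi < θ₂ + Real.pi by linarith)
      (by linarith) hk' hn1 hn2
    have e3 : T.card - 1 - c - s = T.card - 1 - (c + s) := by omega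
    rw [e3, vis_refl hlt, vis_refl hlt] at h
    omega
  rcases LL_or_RR hB e0 with k0 | k0
  · rcases LL_or_RR hB e1 with k1 | k1
    · exact hleft (Or.inl ⟨k0, k1⟩)
    · rcases LL_or_RR hB e2 with k2 | k2
      · exact hleft (Or.inr (Or.inr ⟨k0, k1, k2⟩))
      · exact hright (hcs _ k1) (Or.inr (Or.inl ⟨k1, k2⟩))
  · rcases LL_or_RR hB e1 with k1 | k1
    · rcases LL_or_RR hB e2 with k2 | k2
      · exact hleft (Or.inr (Or.inl ⟨k1, k2⟩))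
      · exact hright (hcs _ k0) (Or.inr (Or.inr ⟨k0, k1, k2⟩))
    · exact hright (hcs _ k0) (Or.inl ⟨k0, k1⟩)

end Pool.Agent.MP_9673d9_co.Conv
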