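import Pool.Agent.MP_9673d9_co.Conv.Pair

set_option autoImplicit false

open Finset

namespace Pool.Agent.MP_9673d9_co.Conv

open Pool.Agent.MP_9673d9_co.Rich

/-- Left, right, left at the position `i + 1`.
Proof: `LL T d D i θ₀` and `LL T d D i θ₂` by `LL.down`.  If there is an event at `i` in `(θ₀, θ₂)` let `ν` be the first one
(`exists_first`), otherwise `ν = θ₂`.  Claim: `LL T d D i ν`.  In the first case, if it is `RR` (`LL_or_RR`), then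
`RR T d D (i + 1) ν` (`RR.up`), so `Ev T (i + 1) ν`, hence `ν = θ₁`; the classes at `θ₀` and `θ₁` cover both `i` and `i + 1`
(`down_cov` for `θ₀`; for `θ₁` the class of `RR`, as in `start_LR`), so `between` gives an event at `i` in `(θ₀, θ₁)`, a
contradiction to the choice of `ν`.  So `pair_vis` for `(i, θ₀, ν)` gives `2 ^ j ≤ (vis T (i - j) θ₀ ν).card`.  Finally
`vis T (i - j) θ₀ ν ⊆ vis T (i - j) θ₀ θ₁ ∪ vis T (i - j) θ₁ θ₂`: if `z` is the label exactly at `φ = θ₁`, then it is the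
label also at directions slightly smaller than `θ₁` (`label_near`). -/
theorem triple_vis {T : Finset (ℝ × ℝ)} {d D : ℤ} (hB : Bad T d D) (j i : ℕ) {θ₀ θ₁ θ₂ : ℝ} (h01 : θ₀ < θ₁)
    (h12 : θ₁ < θ₂) (h02 : θ₂ < θ₀ + Real.pi) (hi : i + 1 < T.card) (hL0 : LL T d D (i + 1) θ₀)
    (hR1 : RR T d D (i + 1) θ₁) (hL2 : LL T d D (i + 1) θ₂)
    (hno1 : ∀ φ, θ₀ < φ → φ < θ₁ → ¬ Ev T (i + 1) φ) (hno2 : ∀ φ, θ₁ < φ → φ < θ₂ → ¬ Ev T (i + 1) φ)
    (hf1 : d + (T.card : ℤ) - 1 - 2 * (i : ℤ) + 2 * (j : ℤ) < D)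
    (hf2 : -D < d + (T.card : ℤ) - 1 - 2 * ((i : ℤ) + 1)) :
    2 ^ j ≤ (vis T (i - j) θ₀ θ₁).card + (vis T (i - j) θ₁ θ₂).card := by
  classical
  have hL0' : LL T d D i θ₀ := hL0.down (by omega)
  have hL2' : LL T d D i θ₂ := hL2.down (by omega)
  obtain ⟨ν, n1, n2, n3, n4⟩ : ∃ ν, θ₀ < ν ∧ ν ≤ θ₂ ∧ LL T d D i ν ∧ ∀ ψ, θ₀ < ψ → ψ < ν → ¬ Ev T i ψ := by
    by_cases hex : ∃ φ, θ₀ < φ ∧ φ < θ₂ ∧ Ev T i φ
    · obtain ⟨ν, a1, a2, a3, a4⟩ := exists_first h02.le hex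
      refine ⟨ν, a1, a2.le, ?_, a4⟩
      rcases LL_or_RR hB a3 with h | h
      · exact h
      · exfalso
        have hup : RR T d D (i + 1) ν := h.up (by omega)
        have hν : ν = θ₁ := by
          rcases lt_trichotomy ν θ₁ with h5 | h5 | h5
          · exact absurd hup.ev (hno1 ν a1 h5)
          · exact h5
          · exact absurd hup.ev (hno2 ν h5 a2)
        subst hν
        obtain ⟨y, hy, hy2⟩ := down_cov hL0 (by omega)
        obtain ⟨y', ⟨b0, b1, b2⟩, b3, b4⟩ := h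
        obtain ⟨φ, c1, c2, c3⟩ := between (T := T) (i := i + 1) (k := i) (by omega) hi (by omega) h01 (by linarith)
          (z := y) (z' := y') hy hy2 ⟨b0, by omega, by omega⟩ ⟨b0, b1, b2⟩ hno1
        exact a4 φ c1 c2 c3
    · refine ⟨θ₂, h01.trans h12, le_rfl, hL2', ?_⟩
      intro ψ p1 p2 p3
      exact hex ⟨ψ, p1, p2, p3⟩
  obtain ⟨V, hV1, hV2, hV3⟩ := pair_vis hB j i n1 (by linarith) (by omega) hL0' n3 n4 hf1 (by omega)
  have hsub : V ⊆ vis T (i - j) θ₀ θ₁ ∪ vis T (i - j) θ₁ θ₂ := by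
    intro z hz
    have hz' := hV1 hz
    rw [mem_vis] at hz'
    obtain ⟨hzT, φ, p1, p2, p3⟩ := hz'
    rw [Finset.mem_union, mem_vis, mem_vis]
    rcases lt_trichotomy φ θ₁ with h5 | h5 | h5
    · exact Or.inl ⟨hzT, φ, p1, h5, p3⟩
    · subst h5
      have h6 := (label_near p3.1 p3.2).filter_mono (nhdsWithin_le_nhds (s := Set.Iio φ))
      have h7 : ∀ᶠ ψ in nhdsWithin φ (Set.Iio φ), ψ ∈ Set.Ioo θ₀ φ := Ioo_mem_nhdsLT h01
      obtain ⟨ψ, q1, q2⟩ := (h6.and h7).exists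
      exact Or.inl ⟨hzT, ψ, q2.1, q2.2, q1⟩
    · exact Or.inr ⟨hzT, φ, h5, by linarith, p3⟩
  calc 2 ^ j ≤ V.card := hV2
    _ ≤ (vis T (i - j) θ₀ θ₁ ∪ vis T (i - j) θ₁ θ₂).card := Finset.card_le_card hsub
    _ ≤ _ := Finset.card_union_le _ _

end Pool.Agent.MP_9673d9_co.Conv
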