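import Pool.Agent.MP_9673d9_co.Conv.TurnA

set_option autoImplicit false

open Finset

namespace Pool.Agent.MP_9673d9_co.Conv

open Pool.Agent.MP_9673d9_co.Rich

/-- A left event turns the label to the left.  `y`, `y'` are the labels of `p` before and after `φ₀`.
Proof: `cov_limit` gives `Cov T p φ₀ y`, `Cov T p φ₀ y'`, so `ev φ₀ y = ev φ₀ y'` (`Cov.ev_eq`).  With `L = below T φ₀ y`,
`m = same T φ₀ y`: `Lab T p ψ y` gives `below T ψ y = p` (`count_add`), so by `below_left`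
`p = L + #{w in the class | σ y < σ w}`, and by `below_right` `p = L + #{w in the class | σ w < σ y'}`, where
`σ = ev (φ₀ + π/2)`.  If `σ y' ≤ σ y` the two sets are disjoint and do not contain `y`, so `2 * (p - L) ≤ m - 1`; but `LL` and `hf`
give `2 * (p - L) > m - 1` (`count_add`, `omega`).  So `σ y < σ y'`, and `ev_rot` (with `sin (ψ - φ₀) > 0`, resp. `< 0`) gives the
claims. -/
theorem turn {T : Finset (ℝ × ℝ)} {d D : ℤ} {p : ℕ} {α φ₀ β : ℝ} {y y' : ℝ × ℝ} (hL : LL T d D p φ₀)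
    (hf : d + (T.card : ℤ) - 1 - 2 * (p : ℤ) < D) (h1 : α < φ₀) (h2 : φ₀ < β)
    (hy : ∀ φ, α < φ → φ < φ₀ → Lab T p φ y) (hy' : ∀ φ, φ₀ < φ → φ < β → Lab T p φ y') :
    (∀ ψ, φ₀ < ψ → ψ < φ₀ + Real.pi → ev ψ y < ev ψ y') ∧
      (∀ ψ, φ₀ - Real.pi < ψ → ψ < φ₀ → ev ψ y' < ev ψ y) := by
  classical
  have hl1 : ∀ᶠ ψ in nhdsWithin φ₀ (Set.Iio φ₀), Lab T p ψ y := by
    filter_upwards [Ioo_mem_nhdsLT h1] with ψ hψ
    exact hy ψ hψ.1 hψ.2
  have hr1 : ∀ᶠ ψ in nhdsWithin φ₀ (Set.Ioi φ₀), Lab T p ψ y' := by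
    filter_upwards [Ioo_mem_nhdsGT h2] with ψ hψ
    exact hy' ψ hψ.1 hψ.2
  have c1 : Cov T p φ₀ y := cov_limit
    ((hl1.mono fun ψ h => h.1).frequently.filter_mono nhdsWithin_le_nhds)
  have c2 : Cov T p φ₀ y' := cov_limit
    ((hr1.mono fun ψ h => h.1).frequently.filter_mono nhdsWithin_le_nhds)
  have he : ev φ₀ y = ev φ₀ y' := c1.ev_eq c2
  obtain ⟨ψ1, g1, g2⟩ := (hl1.and (below_left T φ₀ y)).exists
  obtain ⟨ψ2, g3, g4⟩ := (hr1.and (below_right T φ₀ y')).exists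
  have b1 : below T ψ1 y = p := by
    obtain ⟨⟨_, a1, a2⟩, a3⟩ := g1
    have := count_add T ψ1 y
    omega
  have b2 : below T ψ2 y' = p := by
    obtain ⟨⟨_, a1, a2⟩, a3⟩ := g3
    have := count_add T ψ2 y'
    omega
  rw [b1] at g2
  rw [b2, ← below_congr he] at g4
  have hlt : ev (φ₀ + Real.pi / 2) y < ev (φ₀ + Real.pi / 2) y' := by
    by_contra hcon
    rw [not_lt] at hcon
    set A := flt T fun w => ev φ₀ w = ev φ₀ y ∧ ev (φ₀ + Real.pi / 2) y < ev (φ₀ + Real.pi / 2) w with hA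
    set B := flt T fun w => ev φ₀ w = ev φ₀ y' ∧ ev (φ₀ + Real.pi / 2) w < ev (φ₀ + Real.pi / 2) y' with hB
    have hAB : Disjoint A B := by
      rw [Finset.disjoint_left]
      intro w hw hw'
      rw [hA, mem_flt] at hw
      rw [hB, mem_flt] at hw'
      linarith [hw.2.2, hw'.2.2]
    have hsub : A ∪ B ⊆ (T.filter fun q => ev φ₀ q = ev φ₀ y).erase y := by
      intro w hw
      rw [Finset.mem_union, hA, hB, mem_flt, mem_flt] at hw
      rw [Finset.mem_erase, Finset.mem_filter]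
      rcases hw with ⟨w1, w2, w3⟩ | ⟨w1, w2, w3⟩
      · refine ⟨?_, w1, w2⟩
        rintro rfl
        exact lt_irrefl _ w3
      · refine ⟨?_, w1, by rw [w2, he]⟩
        rintro rfl
        linarith
    have hcard := Finset.card_le_card hsub
    have hmem : y ∈ T.filter fun q => ev φ₀ q = ev φ₀ y := Finset.mem_filter.2 ⟨c1.1, rfl⟩
    rw [Finset.card_union_of_disjoint hAB, Finset.card_erase_of_mem hmem] at hcard
    have hsame : (T.filter fun q => ev φ₀ q = ev φ₀ y).card = same T φ₀ y := rfl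
    rw [hsame] at hcard
    obtain ⟨x, x1, x2, x3⟩ := hL
    have ex : ev φ₀ x = ev φ₀ y := x1.ev_eq c1
    rw [above_congr ex, below_congr ex] at x3
    rw [same_congr ex] at x2
    have hca := count_add T φ₀ y
    omega
  constructor
  · intro ψ p1 p2
    have hs : 0 < Real.sin (ψ - φ₀) :=
      Real.sin_pos_of_pos_of_lt_pi (by linarith) (by linarith)
    have e1 := ev_rot φ₀ ψ y
    have e2 := ev_rot φ₀ ψ y'
    rw [← he] at e2
    have := mul_lt_mul_of_pos_left hlt hs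
    linarith
  · intro ψ p1 p2
    have hs : Real.sin (ψ - φ₀) < 0 :=
      Real.sin_neg_of_neg_of_neg_pi_lt (by linarith) (by linarith)
    have e1 := ev_rot φ₀ ψ y
    have e2 := ev_rot φ₀ ψ y'
    rw [← he] at e2
    have := mul_lt_mul_of_neg_left hlt hs
    linarith

end Pool.Agent.MP_9673d9_co.Conv
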