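import Pool.Agent.MP_9673d9_co.Conv.VBound
import Pool.Agent.MP_9673d9_co.Conv.StayCard

set_option autoImplicit false

open Finset

namespace Pool.Agent.MP_9673d9_co.Conv

open Pool.Agent.MP_9673d9_co.Rich

/-- All visits.
Proof: `vis` is the union of the points with `¬ Stay i j` (`V_bound`) and with `Stay i j` (`sum_stay` with `P = Stay i j`).
In the first case of `hN` the second part is empty; in the second case it is at most
`(4 s - 3) (j - i) + (2 s - 1) N ≤ (6 s - 4) (j - i)` by `stay_card`. -/
theorem U_bound {T : Finset (ℝ × ℝ)} {c s : ℕ} {e : ℕ → ℝ} {G : ℕ} (hG : Gaps T c e G) (hs : 1 ≤ s)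
    (hsc : s ≤ c) (hc : c < T.card) {i j K N : ℕ} (hij : i ≤ j) (hj : j ≤ G) (hK : j - i ≤ 2 ^ K)
    (hN : (∀ z ∈ T, ¬ Stay T c e i j z) ∨ (N ≤ j - i ∧ ∀ Z ⊆ T, Exposed Z → Z.card ≤ N)) :
    ∑ k ∈ Finset.Ico i j, (vis T (c - s) (e k) (e (k + 1))).card ≤ (6 * s - 4) * (j - i) * (K + 1) := by
  classical
  have hsplit : ∀ k, (vis T (c - s) (e k) (e (k + 1))).card =
      (flt (vis T (c - s) (e k) (e (k + 1))) fun z => ¬ Stay T c e i j z).card +
        (flt (vis T (c - s) (e k) (e (k + 1))) fun z => Stay T c e i j z).card := by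
    intro k
    have hd : Disjoint (flt (vis T (c - s) (e k) (e (k + 1))) fun z => ¬ Stay T c e i j z)
        (flt (vis T (c - s) (e k) (e (k + 1))) fun z => Stay T c e i j z) := by
      rw [Finset.disjoint_left]
      intro z h1 h2
      exact (mem_flt.1 h1).2 (mem_flt.1 h2).2
    rw [← Finset.card_union_of_disjoint hd]
    congr 1
    ext z
    rw [Finset.mem_union, mem_flt, mem_flt]
    constructor
    · intro hz
      by_cases h : Stay T c e i j z
      · exact Or.inr ⟨hz, h⟩
      · exact Or.inl ⟨hz, h⟩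
    · rintro (h | h)
      · exact h.1
      · exact h.1
  have h1 := V_bound hG hs hsc hc K i j hij hj hK
  have h2 : ∑ k ∈ Finset.Ico i j,
      (flt (vis T (c - s) (e k) (e (k + 1))) fun z => Stay T c e i j z).card ≤
        (6 * s - 4) * (j - i) := by
    rcases hN with hN | ⟨hN1, hN2⟩
    · have h3 : ∀ k ∈ Finset.Ico i j,
          (flt (vis T (c - s) (e k) (e (k + 1))) fun z => Stay T c e i j z).card = 0 := by
        intro k _
        rw [Finset.card_eq_zero, Finset.eq_empty_iff_forall_notMem]
        intro z hz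
        obtain ⟨hz1, hz2⟩ := mem_flt.1 hz
        exact hN z (mem_vis.1 hz1).1 hz2
      rw [Finset.sum_eq_zero h3]
      exact Nat.zero_le _
    · have h3 := sum_stay hG hs hsc hc hij hj (fun z => Stay T c e i j z) (fun z _ hz => hz)
      have h4 := stay_card hG hs hsc hc (i := i) hj hN2
      refine h3.trans ?_
      calc _ ≤ (4 * s - 3) * (j - i) + (2 * s - 1) * N := Nat.add_le_add_left h4 _
        _ ≤ (4 * s - 3) * (j - i) + (2 * s - 1) * (j - i) :=
          Nat.add_le_add_left (Nat.mul_le_mul_left _ hN1) _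
        _ = (6 * s - 4) * (j - i) := by
          rw [← Nat.add_mul]
          congr 1
          omega
  calc _ = ∑ k ∈ Finset.Ico i j,
          (flt (vis T (c - s) (e k) (e (k + 1))) fun z => ¬ Stay T c e i j z).card +
        ∑ k ∈ Finset.Ico i j,
          (flt (vis T (c - s) (e k) (e (k + 1))) fun z => Stay T c e i j z).card := by
        rw [← Finset.sum_add_distrib]
        exact Finset.sum_congr rfl fun k _ => hsplit k
    _ ≤ (6 * s - 4) * (j - i) * K + (6 * s - 4) * (j - i) := Nat.add_le_add h1 h2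
    _ = (6 * s - 4) * (j - i) * (K + 1) := by ring

end Pool.Agent.MP_9673d9_co.Conv
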