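import Pool.Agent.MP_9673d9_co.Conv.SumStay
import Pool.Agent.MP_9673d9_co.Conv.CrossA
import Pool.Agent.MP_9673d9_co.Conv.CrossB

set_option autoImplicit false

open Finset

namespace Pool.Agent.MP_9673d9_co.Conv

open Pool.Agent.MP_9673d9_co.Rich

/-- Visits of points that do not stay to the left in the whole of `[i, j)`, `j - i ≤ 2 ^ K`.
Proof: induction on `K`, for all `i`, `j`.  `K = 0`: `j = i` (empty sum) or `j = i + 1`: if `z` is the label of `c - s` at
some direction of the gap `i` then it is to the left there (`Lab.lf`, `c - s < c`), hence in the whole gap (`Lf_const`), so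
`Stay T c e i (i + 1) z` and the filtered set is empty.  Step: if `j - i ≤ 2 ^ K` the induction hypothesis is enough.
Otherwise `m = i + 2 ^ K`, `i ≤ m ≤ j`, `m - i ≤ 2 ^ K`, `j - m ≤ 2 ^ K`.  For `k ∈ [i, m)` the points of `vis` with
`¬ Stay i j` are those with `¬ Stay i m` (induction hypothesis) and those with `Stay i m ∧ ¬ Stay i j` (`sum_stay` on `[i, m)` with this `P`, and
`cross_card`): together at most `(6 s - 4) (m - i) K + (4 s - 3) (m - i) + (2 s - 1) (j - m)`; in the same way for
`k ∈ [m, j)` with `Stay m j` and `cross_card'`.  The sum is `(6 s - 4) (j - i) (K + 1)`. -/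
theorem V_bound {T : Finset (ℝ × ℝ)} {c s : ℕ} {e : ℕ → ℝ} {G : ℕ} (hG : Gaps T c e G) (hs : 1 ≤ s)
    (hsc : s ≤ c) (hc : c < T.card) (K : ℕ) : ∀ i j : ℕ, i ≤ j → j ≤ G → j - i ≤ 2 ^ K →
    ∑ k ∈ Finset.Ico i j, (flt (vis T (c - s) (e k) (e (k + 1))) fun z => ¬ Stay T c e i j z).card ≤
      (6 * s - 4) * (j - i) * K := by
  induction K with
  | zero =>
    intro i j hij hj hle
    rw [pow_zero] at hle
    rw [Nat.mul_zero, Nat.le_zero, Finset.sum_eq_zero_iff]
    intro k hk
    rw [Finset.mem_Ico] at hk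
    have hki : k = i := by omega
    have hji : j = i + 1 := by omega
    subst hki
    subst hji
    rw [Finset.card_eq_zero, Finset.eq_empty_iff_forall_notMem]
    intro z hz
    rw [mem_flt] at hz
    obtain ⟨hz1, hz2⟩ := hz
    apply hz2
    rw [mem_vis] at hz1
    obtain ⟨hzT, φ₀, h1, h2, h3⟩ := hz1
    intro k' hk1 hk2 φ h4 h5
    have hkk : k' = k := by omega
    subst hkk
    exact Lf_const hc hzT (hG.free k' (by omega)) h1 h2 (Lab.lf (by omega) h3) φ h4 h5
  | succ K ih =>
    intro i j hij hj hle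
    by_cases hsmall : j - i ≤ 2 ^ K
    · refine (ih i j hij hj hsmall).trans ?_
      exact Nat.mul_le_mul_left _ (Nat.le_succ K)
    · obtain ⟨m, hm⟩ : ∃ m, m = i + 2 ^ K := ⟨_, rfl⟩
      have hpow : 2 ^ (K + 1) = 2 ^ K + 2 ^ K := by ring
      have him : i ≤ m := by omega
      have hmj : m ≤ j := by omega
      have h1 := ih i m him (hmj.trans hj) (by omega)
      have h2 := ih m j hmj hj (by omega)
      have h3 := sum_stay hG hs hsc hc him (hmj.trans hj)
        (fun z => Stay T c e i m z ∧ ¬ Stay T c e i j z) (fun z _ hz => hz.1)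
      have h4 := sum_stay hG hs hsc hc hmj hj
        (fun z => Stay T c e m j z ∧ ¬ Stay T c e i j z) (fun z _ hz => hz.1)
      have h5 := cross_card hG hs hsc hc him hmj hj
      have h6 := cross_card' hG hs hsc hc him hmj hj
      have hsplit : ∀ (V : Finset (ℝ × ℝ)) (P Q : ℝ × ℝ → Prop),
          (flt V fun z => ¬ Q z).card ≤
            (flt V fun z => ¬ P z).card + (flt V fun z => P z ∧ ¬ Q z).card := by
        classical
        intro V P Q
        refine le_trans (Finset.card_le_card ?_) (Finset.card_union_le _ _)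
        intro z hz
        rw [mem_flt] at hz
        rw [Finset.mem_union, mem_flt, mem_flt]
        by_cases hP : P z
        · exact Or.inr ⟨hz.1, hP, hz.2⟩
        · exact Or.inl ⟨hz.1, hP⟩
      have h7 : ∑ k ∈ Finset.Ico i m,
          (flt (vis T (c - s) (e k) (e (k + 1))) fun z => ¬ Stay T c e i j z).card ≤
          ∑ k ∈ Finset.Ico i m,
            (flt (vis T (c - s) (e k) (e (k + 1))) fun z => ¬ Stay T c e i m z).card +
          ∑ k ∈ Finset.Ico i m, (flt (vis T (c - s) (e k) (e (k + 1)))
            fun z => Stay T c e i m z ∧ ¬ Stay T c e i j z).card := by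
        rw [← Finset.sum_add_distrib]
        exact Finset.sum_le_sum fun k _ => hsplit _ _ _
      have h8 : ∑ k ∈ Finset.Ico m j,
          (flt (vis T (c - s) (e k) (e (k + 1))) fun z => ¬ Stay T c e i j z).card ≤
          ∑ k ∈ Finset.Ico m j,
            (flt (vis T (c - s) (e k) (e (k + 1))) fun z => ¬ Stay T c e m j z).card +
          ∑ k ∈ Finset.Ico m j, (flt (vis T (c - s) (e k) (e (k + 1)))
            fun z => Stay T c e m j z ∧ ¬ Stay T c e i j z).card := by
        rw [← Finset.sum_add_distrib]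
        exact Finset.sum_le_sum fun k _ => hsplit _ _ _
      rw [← Finset.sum_Ico_consecutive _ him hmj]
      obtain ⟨t, ht⟩ : ∃ t, s = t + 1 := ⟨s - 1, by omega⟩
      obtain ⟨A, hA⟩ : ∃ A, m = i + A := ⟨m - i, by omega⟩
      obtain ⟨B, hB⟩ : ∃ B, j = m + B := ⟨j - m, by omega⟩
      have e1 : m - i = A := by omega
      have e2 : j - m = B := by omega
      have e3 : j - i = A + B := by omega
      have e4 : 6 * s - 4 = 6 * t + 2 := by omega
      have e5 : 4 * s - 3 = 4 * t + 1 := by omega
      have e6 : 2 * s - 1 = 2 * t + 1 := by omega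
      rw [e1, e4] at h1
      rw [e2, e4] at h2
      rw [e1, e5] at h3
      rw [e2, e5] at h4
      rw [e2, e6] at h5
      rw [e1, e6] at h6
      rw [e3, e4]
      have h9 : (6 * t + 2) * (A + B) * (K + 1) =
          (6 * t + 2) * A * K + ((4 * t + 1) * A + (2 * t + 1) * B) +
          ((6 * t + 2) * B * K + ((4 * t + 1) * B + (2 * t + 1) * A)) := by
        ring
      rw [h9]
      exact Nat.add_le_add
        (h7.trans (Nat.add_le_add h1 (h3.trans (Nat.add_le_add_left h5 _))))
        (h8.trans (Nat.add_le_add h2 (h4.trans (Nat.add_le_add_left h6 _))))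

end Pool.Agent.MP_9673d9_co.Conv
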