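import Pool.Agent.MP_9673d9_co.Conv.Chain
import Pool.Agent.MP_9673d9_co.Conv.Samples

set_option autoImplicit false

open Finset

namespace Pool.Agent.MP_9673d9_co.Conv

open Pool.Agent.MP_9673d9_co.Rich

/-- Many labels in convex position.
Proof: `samples` gives `P`; for `τ ∈ P` let `Y τ` with `Cov T p τ (Y τ)` (`exists_cov`); it is alone, because `τ` is not an
event (`same_pos`), so `Lab T p τ (Y τ)`.  By `chain`, for `τ < τ'` in `P`: `Y τ ≠ Y τ'`, `Y τ` is lower than `Y τ'` at `τ'` and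
`Y τ'` is lower than `Y τ` at `τ`.  So `Y` is injective on `P` and `V = P.image Y` is exposed. -/
theorem vis_events {T : Finset (ℝ × ℝ)} {d D : ℤ} {p : ℕ} (hp : p < T.card)
    (hf : d + (T.card : ℤ) - 1 - 2 * (p : ℤ) < D) {α β : ℝ} (hαβ : α < β) (hβ : β ≤ α + Real.pi)
    (hLL : ∀ φ, α < φ → φ < β → Ev T p φ → LL T d D p φ) (E : Finset ℝ)
    (hE : ∀ φ ∈ E, α < φ ∧ φ < β ∧ Ev T p φ) :
    ∃ V ⊆ vis T p α β, E.card + 1 ≤ V.card ∧ Exposed V := by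
  classical
  obtain ⟨P, hP1, hP2, hP3⟩ := samples E β hαβ hβ hE
  choose Y hY using fun φ => exists_cov hp φ
  have hLab : ∀ τ ∈ P, Lab T p τ (Y τ) := by
    intro τ hτ
    refine ⟨hY τ, ?_⟩
    have h3 := same_pos τ (hY τ).1
    have h4 : ¬ 2 ≤ same T τ (Y τ) := fun h5 => (hP2 τ hτ).2.2 ⟨Y τ, hY τ, h5⟩
    omega
  have hch : ∀ τ ∈ P, ∀ τ' ∈ P, τ < τ' → ev τ' (Y τ) < ev τ' (Y τ') ∧ ev τ (Y τ') < ev τ (Y τ) := by
    intro τ hτ τ' hτ' h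
    exact chain hp hf hβ hLL (hP2 τ hτ).1 h (hP2 τ' hτ').2.1 (hLab τ hτ) (hLab τ' hτ') (hP3 τ hτ τ' hτ' h)
  have hexp : ∀ τ ∈ P, ∀ τ' ∈ P, τ ≠ τ' → ev τ (Y τ') < ev τ (Y τ) := by
    intro τ hτ τ' hτ' h
    rcases lt_or_gt_of_ne h with h | h
    · exact (hch τ hτ τ' hτ' h).2
    · exact (hch τ' hτ' τ hτ h).1
  refine ⟨P.image Y, ?_, ?_, ?_⟩
  · intro z hz
    obtain ⟨τ, hτ, rfl⟩ := Finset.mem_image.1 hz
    rw [mem_vis]
    exact ⟨(hY τ).1, τ, (hP2 τ hτ).1, (hP2 τ hτ).2.1, hLab τ hτ⟩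
  · rw [Finset.card_image_of_injOn, hP1]
    intro τ hτ τ' hτ' h
    by_contra hne
    have h1 := hexp τ hτ τ' hτ' hne
    rw [h] at h1
    exact lt_irrefl _ h1
  · intro z hz
    obtain ⟨τ, hτ, rfl⟩ := Finset.mem_image.1 hz
    refine ⟨τ, fun w hw hne => ?_⟩
    obtain ⟨τ', hτ', rfl⟩ := Finset.mem_image.1 hw
    exact hexp τ hτ τ' hτ' (fun h => hne (by rw [h]))

end Pool.Agent.MP_9673d9_co.Conv
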